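import Mathlib

open Finset
open scoped ENNReal

namespace Pool.Agent.helper36.IsingDefs

variable {V : Type} [Fintype V] [DecidableEq V] (G : SimpleGraph V) [DecidableRel G.Adj]

/-- `P_s (X_k = i, k < H_j)` for the simple random walk `X` on `G`: the probability that the
walk started at `s` is at `i` at time `k` and has not visited `j` at any time `0, ..., k`
(written with the first step recursion; one step goes to each neighbour with probability
`1 / degree`). -/
noncomputable def killedProb (i j : V) : ℕ → V → ℝ≥0∞
  | 0, s => if s = j then 0 else if s = i then 1 else 0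
  | k + 1, s => if s = j then 0 else
      ∑ t ∈ G.neighborFinset s, (G.degree s : ℝ≥0∞)⁻¹ * killedProb i j k t

/-- `u_{ij}(s)`: expected number of visits to `i` before hitting `j`, starting from `s`. -/
noncomputable def visits (i j s : V) : ℝ≥0∞ := ∑' k, killedProb G i j k s

/-- `M_G`: the maximum of `u_{ij}(i) / d(i)` over all `i ≠ j`. -/
noncomputable def greenMax : ℝ≥0∞ :=
  ⨆ (i : V) (j : V) (_ : i ≠ j), visits G i j i / (G.degree i : ℝ≥0∞)

/-- the spin value in `{-1, 1}` -/
def spin (b : Bool) : ℝ := if b then 1 else -1

/-- the sum of `σ_i σ_j` over the edges `{i,j}` of `G` -/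
noncomputable def interaction (σ : V → Bool) : ℝ :=
  ∑ e ∈ G.edgeFinset,
    Sym2.lift ⟨fun u v => spin (σ u) * spin (σ v), fun u v => mul_comm _ _⟩ e

/-- the Gibbs weight of the Ising model (`O(N)` model with `N = 1`) -/
noncomputable def weight (β : ℝ) (σ : V → Bool) : ℝ := Real.exp (β * interaction G σ)

/-- the two point function `E_{G,1,β} σ_x σ_y` -/
noncomputable def twoPoint (β : ℝ) (x y : V) : ℝ :=
  (∑ σ : V → Bool, spin (σ x) * spin (σ y) * weight G β σ) / ∑ σ : V → Bool, weight G β σ

end Pool.Agent.helper36.IsingDefs
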