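import Mathlib

open Matrix Finset

namespace Pool.Agent.helper36.IsingTree

variable {V : Type} [Fintype V] [DecidableEq V]

/-- Laplacian type matrix with prescribed allowed targets `N v` and root set `R` -/
noncomputable def treeMat (N : V → Finset V) (R : Finset V) : Matrix V V ℝ :=
  fun v => if v ∈ R then Pi.single v 1
    else ∑ t ∈ N v, ((Pi.single v 1 : V → ℝ) - Pi.single t 1)

/-- parent maps of spanning forests rooted at `R` -/
def IsPar (N : V → Finset V) (R : Finset V) (π : V → V) : Prop :=
  (∀ v ∈ R, π v = v) ∧ (∀ v, v ∉ R → π v ∈ N v) ∧ ∀ v, ∃ n, π^[n] v ∈ R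

open Classical in
noncomputable def trees (N : V → Finset V) (R : Finset V) : Finset (V → V) :=
  Finset.univ.filter (IsPar N R)

lemma mem_trees {N : V → Finset V} {R : Finset V} {π : V → V} :
    π ∈ trees N R ↔ IsPar N R π := by
  simp [trees]

/-- matrix of a single parent map -/
noncomputable def parMat (R : Finset V) (π : V → V) : Matrix V V ℝ :=
  fun v => if v ∈ R then Pi.single v 1 else (Pi.single v 1 : V → ℝ) - Pi.single (π v) 1

lemma det_parMat_of_acyclic (R : Finset V) (π : V → V) (hne : ∀ v, v ∉ R → π v ≠ v)
    (h : ∀ v, ∃ n, π^[n] v ∈ R) : (parMat R π).det = 1 := by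
  classical
  set ht : V → ℕ := fun v => Nat.find (h v) with hht
  have hstep : ∀ v, v ∉ R → ht (π v) < ht v := by
    intro v hv
    have h1 := Nat.find_spec (h v)
    have h0 : Nat.find (h v) ≠ 0 := by
      intro h0
      rw [h0] at h1
      exact hv h1
    obtain ⟨k, hk⟩ := Nat.exists_eq_succ_of_ne_zero h0
    have h2 : π^[k] (π v) ∈ R := by
      rw [hk, Function.iterate_succ_apply] at h1
      exact h1
    have h3 : ht (π v) ≤ k := Nat.find_min' _ h2
    have h4 : ht v = k + 1 := hk
    omega
  have hentry : ∀ i j, i ≠ j → ht i ≤ ht j → parMat R π i j = 0 := by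
    intro i j hij hle
    unfold parMat
    split_ifs with hi
    · simp [hij.symm]
    · have : j ≠ π i := by
        rintro rfl
        exact absurd (hstep i hi) (by omega)
      simp [hij.symm, this]
  have hbt : (parMat R π).BlockTriangular (fun v => OrderDual.toDual (ht v)) := by
    intro i j hij
    have h1 : ht i < ht j := hij
    exact hentry i j (by rintro rfl; exact lt_irrefl _ h1) h1.le
  rw [hbt.det]
  apply Finset.prod_eq_one
  intro a _
  have : (parMat R π).toSquareBlock (fun v => OrderDual.toDual (ht v)) a = 1 := by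
    ext i j
    rw [Matrix.toSquareBlock_def, Matrix.of_apply]
    by_cases hij : i = j
    · subst hij
      rw [Matrix.one_apply_eq]
      unfold parMat
      split_ifs with hi
      · simp
      · have := hne i hi
        simp [this.symm]
    · rw [Matrix.one_apply_ne hij]
      have hij' : (i : V) ≠ j := fun h => hij (Subtype.ext h)
      have h1 : ht i = ht j := by
        have h2 := i.2.trans j.2.symm
        exact h2
      exact hentry i j hij' h1.le
  rw [this, Matrix.det_one]

lemma det_parMat_of_not_acyclic (R : Finset V) (π : V → V)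
    (h : ¬ ∀ v, ∃ n, π^[n] v ∈ R) : (parMat R π).det = 0 := by
  classical
  rw [← Matrix.exists_mulVec_eq_zero_iff]
  refine ⟨fun v => if ∃ n, π^[n] v ∈ R then 0 else 1, ?_, ?_⟩
  · intro h0
    apply h
    intro v
    by_contra hv
    have := congrFun h0 v
    simp [hv] at this
  · funext v
    simp only [Matrix.mulVec, Pi.zero_apply]
    unfold parMat
    by_cases hv : v ∈ R
    · rw [if_pos hv]
      have : ∃ n, π^[n] v ∈ R := ⟨0, hv⟩
      simp [this]
    · rw [if_neg hv, sub_dotProduct, single_dotProduct, single_dotProduct, one_mul, one_mul]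
      have hiff : (∃ n, π^[n] v ∈ R) ↔ ∃ n, π^[n] (π v) ∈ R := by
        constructor
        · rintro ⟨n, hn⟩
          rcases n with _ | n
          · exact absurd hn hv
          · exact ⟨n, by rw [Function.iterate_succ_apply] at hn; exact hn⟩
        · rintro ⟨n, hn⟩
          exact ⟨n + 1, by rw [Function.iterate_succ_apply]; exact hn⟩
      by_cases hc : ∃ n, π^[n] v ∈ R
      · have hc' := hiff.1 hc
        rw [if_pos hc, if_pos hc', sub_zero]
      · have hc' := fun h => hc (hiff.2 h)
        rw [if_neg hc, if_neg hc', sub_self]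

theorem det_treeMat (N : V → Finset V) (R : Finset V) (hN : ∀ v, v ∉ R → v ∉ N v) :
    (treeMat N R).det = (trees N R).card := by
  classical
  set A : V → Finset V := fun v => if v ∈ R then {v} else N v with hA
  set r : V → V → (V → ℝ) := fun v t => if v ∈ R then Pi.single v 1
    else (Pi.single v 1 : V → ℝ) - Pi.single t 1 with hr
  have h1 : treeMat N R = fun v => ∑ t ∈ A v, r v t := by
    funext v
    unfold treeMat
    by_cases hv : v ∈ R
    · simp [hA, hr, hv]
    · simp [hA, hr, hv]
  have h2 : (treeMat N R).det = ∑ π ∈ Fintype.piFinset A, (parMat R π).det := by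
    rw [h1]
    exact (Matrix.detRowAlternating (R := ℝ) (n := V)).toMultilinearMap.map_sum_finset
      (fun v t => r v t) A
  rw [h2]
  have h3 : ∀ π ∈ Fintype.piFinset A, (parMat R π).det
      = if ∀ v, ∃ n, π^[n] v ∈ R then 1 else 0 := by
    intro π hπ
    rw [Fintype.mem_piFinset] at hπ
    split_ifs with hc
    · apply det_parMat_of_acyclic R π _ hc
      intro v hv h
      have := hπ v
      simp only [hA, if_neg hv, h] at this
      exact hN v hv this
    · exact det_parMat_of_not_acyclic R π hc
  rw [Finset.sum_congr rfl h3, ← Finset.sum_filter, Finset.sum_const, nsmul_eq_mul, mul_one]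
  congr 2
  ext π
  rw [Finset.mem_filter, Fintype.mem_piFinset, mem_trees]
  constructor
  · rintro ⟨h, h'⟩
    refine ⟨fun v hv => ?_, fun v hv => ?_, h'⟩
    · have := h v
      simpa [hA, hv] using this
    · have := h v
      simpa [hA, hv] using this
  · rintro ⟨h, h', h''⟩
    refine ⟨fun v => ?_, h''⟩
    by_cases hv : v ∈ R
    · simp [hA, hv, h v hv]
    · simp [hA, hv, h' v hv]

lemma reach_of_agree {f g : V → V} {R : Finset V} (hfg : ∀ v, v ∉ R → f v = g v) :
    ∀ (n : ℕ) (v : V), f^[n] v ∈ R → ∃ m, g^[m] v ∈ R := by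
  intro n
  induction n with
  | zero => intro v hv; exact ⟨0, hv⟩
  | succ n ih =>
    intro v hv
    by_cases hvR : v ∈ R
    · exact ⟨0, hvR⟩
    · rw [Function.iterate_succ_apply, hfg v hvR] at hv
      obtain ⟨m, hm⟩ := ih _ hv
      exact ⟨m + 1, by rw [Function.iterate_succ_apply]; exact hm⟩

/-- restriction of a spanning tree rooted at `y` to `S` and its complement -/
lemma card_trees_le_mul (N : V → Finset V) (S : Finset V) (y : V) (hy : y ∉ S) :
    (trees N {y}).card ≤ (trees N Sᶜ).card * (trees N (insert y S)).card := by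
  classical
  rw [← Finset.card_product]
  refine Finset.card_le_card_of_injOn
    (fun π => ((fun v => if v ∈ S then π v else v), (fun v => if v ∈ S ∨ v = y then v else π v)))
    ?_ ?_
  · intro π hπ
    rw [Finset.mem_coe, mem_trees] at hπ
    obtain ⟨h1, h2, h3⟩ := hπ
    have hyy : π y = y := h1 y (by simp)
    rw [Finset.mem_coe, Finset.mem_product, mem_trees, mem_trees]
    refine ⟨⟨?_, ?_, ?_⟩, ⟨?_, ?_, ?_⟩⟩
    · intro v hv
      have : v ∉ S := by simpa using hv
      simp [this]
    · intro v hv
      have hvS : v ∈ S := by simpa using hv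
      simp only [hvS, if_true]
      exact h2 v (by simp only [Finset.mem_singleton]; rintro rfl; exact hy hvS)
    · intro v
      obtain ⟨n, hn⟩ := h3 v
      have hn' : π^[n] v = y := by simpa using hn
      apply reach_of_agree (f := π) (R := Sᶜ) _ n v
      · simp [hn', hy]
      · intro w hw
        have : w ∈ S := by simpa using hw
        simp [this]
    · intro v hv
      rw [Finset.mem_insert] at hv
      simp [hv.symm]
    · intro v hv
      rw [Finset.mem_insert, not_or] at hv
      simp only [hv.1, hv.2, or_self, if_false]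
      exact h2 v (by simpa using hv.1)
    · intro v
      obtain ⟨n, hn⟩ := h3 v
      have hn' : π^[n] v = y := by simpa using hn
      apply reach_of_agree (f := π) (R := insert y S) _ n v
      · simp [hn']
      · intro w hw
        rw [Finset.mem_insert, not_or] at hw
        simp [hw.1, hw.2]
  · intro π hπ π' hπ' heq
    rw [Finset.mem_coe, mem_trees] at hπ hπ'
    have e1 := congrArg Prod.fst heq
    have e2 := congrArg Prod.snd heq
    funext v
    by_cases hv : v ∈ S
    · have := congrFun e1 v
      simpa [hv] using this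
    · by_cases hvy : v = y
      · subst hvy
        rw [hπ.1 v (by simp), hπ'.1 v (by simp)]
      · have := congrFun e2 v
        simpa [hv, hvy] using this

/-- iterates of the glued map -/
lemma glue_iter {N : V → Finset V} {S : Finset V} {x : V} (hx : x ∈ S) {π₁ f : V → V}
    (h1 : IsPar (fun v => N v ∩ S) (insert x Sᶜ) π₁) (hf : ∀ v ∈ S, f v = π₁ v) :
    ∀ v ∈ S, ∃ n, f^[n] v = x := by
  have hstay : ∀ (n : ℕ) (v : V), v ∈ S → π₁^[n] v ∈ S ∧ f^[n] v = π₁^[n] v := by
    intro n
    induction n with
    | zero => intro v hv; exact ⟨hv, rfl⟩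
    | succ n ih =>
      intro v hv
      rw [Function.iterate_succ_apply, Function.iterate_succ_apply, hf v hv]
      apply ih
      by_cases hvx : v = x
      · subst hvx
        rw [h1.1 v (by simp)]; exact hv
      · have := h1.2.1 v (by simp [hvx, hv])
        exact (Finset.mem_inter.1 this).2
  intro v hv
  obtain ⟨n, hn⟩ := h1.2.2 v
  obtain ⟨h2, h3⟩ := hstay n v hv
  refine ⟨n, ?_⟩
  rw [h3]
  rw [Finset.mem_insert] at hn
  rcases hn with hn | hn
  · exact hn
  · exact absurd h2 (by simpa using hn)

/-- decomposition of forests with two roots -/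
lemma sum_trees_le (N : V → Finset V) (x y : V) (hxy : x ≠ y) :
    ∑ S ∈ Finset.univ.filter (fun S : Finset V => x ∈ S ∧ y ∉ S),
      (trees (fun v => N v ∩ S) (insert x Sᶜ)).card
        * (trees (fun v => N v ∩ Sᶜ) (insert y S)).card
      ≤ (trees N {x, y}).card := by
  classical
  have hcard : ∑ S ∈ Finset.univ.filter (fun S : Finset V => x ∈ S ∧ y ∉ S),
      (trees (fun v => N v ∩ S) (insert x Sᶜ)).card
        * (trees (fun v => N v ∩ Sᶜ) (insert y S)).card
      = ((Finset.univ.filter (fun S : Finset V => x ∈ S ∧ y ∉ S)).sigma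
        (fun S => trees (fun v => N v ∩ S) (insert x Sᶜ) ×ˢ
          trees (fun v => N v ∩ Sᶜ) (insert y S))).card := by
    rw [Finset.card_sigma]
    exact Finset.sum_congr rfl fun S _ => (Finset.card_product _ _).symm
  rw [hcard]
  refine Finset.card_le_card_of_injOn
    (fun q => fun v => if v ∈ q.1 then q.2.1 v else q.2.2 v) ?_ ?_
  · rintro ⟨S, π₁, π₂⟩ hq
    simp only [Finset.coe_sigma, Set.mem_sigma_iff, Finset.mem_coe, Finset.mem_filter,
      Finset.mem_univ, true_and, Finset.mem_product, mem_trees] at hq
    obtain ⟨⟨hx, hy⟩, h1, h2⟩ := hq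
    rw [Finset.mem_coe, mem_trees]
    have r1 := glue_iter (f := fun v => if v ∈ S then π₁ v else π₂ v) hx h1
      (fun v hv => by simp [hv])
    have h2' : IsPar (fun v => N v ∩ Sᶜ) (insert y Sᶜᶜ) π₂ := by rw [compl_compl]; exact h2
    have r2 := glue_iter (f := fun v => if v ∈ S then π₁ v else π₂ v) (S := Sᶜ)
      (by simpa using hy) h2' (fun v hv => by
        have : v ∉ S := by simpa using hv
        simp [this])
    refine ⟨?_, ?_, ?_⟩
    · intro v hv
      rw [Finset.mem_insert, Finset.mem_singleton] at hv
      rcases hv with rfl | rfl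
      · simp only [hx, if_true]; exact h1.1 v (by simp)
      · simp only [hy, if_false]; exact h2.1 v (by simp)
    · intro v hv
      rw [Finset.mem_insert, Finset.mem_singleton, not_or] at hv
      by_cases hvS : v ∈ S
      · simp only [hvS, if_true]
        exact (Finset.mem_inter.1 (h1.2.1 v (by simp [hv.1, hvS]))).1
      · simp only [hvS, if_false]
        exact (Finset.mem_inter.1 (h2.2.1 v (by simp [hv.2, hvS]))).1
    · intro v
      by_cases hvS : v ∈ S
      · obtain ⟨n, hn⟩ := r1 v hvS
        exact ⟨n, by simp only at hn ⊢; rw [hn]; simp⟩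
      · obtain ⟨n, hn⟩ := r2 v (by simpa using hvS)
        exact ⟨n, by simp only at hn ⊢; rw [hn]; simp⟩
  · rintro ⟨S, π₁, π₂⟩ hq ⟨S', π₁', π₂'⟩ hq' heq
    simp only [Finset.coe_sigma, Set.mem_sigma_iff, Finset.mem_coe, Finset.mem_filter,
      Finset.mem_univ, true_and, Finset.mem_product, mem_trees] at hq hq'
    obtain ⟨⟨hx, hy⟩, h1, h2⟩ := hq
    obtain ⟨⟨hx', hy'⟩, h1', h2'⟩ := hq'
    simp only at heq
    set f : V → V := fun v => if v ∈ S then π₁ v else π₂ v with hf
    have hf' : f = fun v => if v ∈ S' then π₁' v else π₂' v := heq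
    have r1 := glue_iter (f := f) hx h1 (fun v hv => by simp [hf, hv])
    have h2c : IsPar (fun v => N v ∩ Sᶜ) (insert y Sᶜᶜ) π₂ := by rw [compl_compl]; exact h2
    have r2 := glue_iter (f := f) (S := Sᶜ) (by simpa using hy) h2c (fun v hv => by
        have : v ∉ S := by simpa using hv
        simp [hf, this])
    have r1' := glue_iter (f := f) hx' h1' (fun v hv => by simp [hf', hv])
    have h2c' : IsPar (fun v => N v ∩ S'ᶜ) (insert y S'ᶜᶜ) π₂' := by rw [compl_compl]; exact h2'
    have r2' := glue_iter (f := f) (S := S'ᶜ) (by simpa using hy') h2c' (fun v hv => by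
        have : v ∉ S' := by simpa using hv
        simp [hf', this])
    have hfx : f x = x := by
      simp only [hf, hx, if_true]; exact h1.1 x (by simp)
    have hfy : f y = y := by
      simp only [hf, hy, if_false]; exact h2.1 y (by simp)
    have hitx : ∀ n, f^[n] x = x := fun n => Function.iterate_fixed hfx n
    have hity : ∀ n, f^[n] y = y := fun n => Function.iterate_fixed hfy n
    have hexcl : ∀ v n m, f^[n] v = x → f^[m] v = y → False := by
      intro v n m hn hm
      have e1 : f^[m + n] v = x := by rw [Function.iterate_add_apply, hn, hitx]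
      have e2 : f^[n + m] v = y := by rw [Function.iterate_add_apply, hm, hity]
      rw [Nat.add_comm] at e2
      exact hxy (e1.symm.trans e2)
    have hSS : S = S' := by
      ext v
      constructor
      · intro hv
        by_contra hv'
        obtain ⟨n, hn⟩ := r1 v hv
        obtain ⟨m, hm⟩ := r2' v (by simpa using hv')
        exact hexcl v n m hn hm
      · intro hv
        by_contra hv'
        obtain ⟨n, hn⟩ := r1' v hv
        obtain ⟨m, hm⟩ := r2 v (by simpa using hv')
        exact hexcl v n m hn hm
    subst hSS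
    have e1 : π₁ = π₁' := by
      funext v
      by_cases hv : v ∈ S
      · have := congrFun heq v
        simpa [hf, hv] using this
      · rw [h1.1 v (by simp [hv]), h1'.1 v (by simp [hv])]
    have e2 : π₂ = π₂' := by
      funext v
      by_cases hv : v ∈ S
      · rw [h2.1 v (by simp [hv]), h2'.1 v (by simp [hv])]
      · have := congrFun heq v
        simpa [hf, hv] using this
    subst e1
    subst e2
    rfl

end Pool.Agent.helper36.IsingTree
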