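import Mathlib
import Pool.Agent.helper36.IsingDefs
import Pool.Agent.helper36.IsingTree

open Finset Matrix
open scoped ENNReal

namespace Pool.Agent.helper36.IsingRes

open Pool.Agent.helper36.IsingDefs Pool.Agent.helper36.IsingTree

variable {V : Type} [Fintype V] [DecidableEq V] (G : SimpleGraph V) [DecidableRel G.Adj]

/-- Dirichlet energy -/
noncomputable def energy (f : V → ℝ) : ℝ :=
  (∑ v, ∑ t ∈ G.neighborFinset v, (f v - f t) ^ 2) / 2

lemma sum_nbr_swap (F : V → V → ℝ) :
    ∑ v, ∑ t ∈ G.neighborFinset v, F v t = ∑ v, ∑ t ∈ G.neighborFinset v, F t v := by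
  have h : ∀ F : V → V → ℝ, ∑ v, ∑ t ∈ G.neighborFinset v, F v t
      = ∑ v, ∑ t, if G.Adj v t then F v t else 0 := by
    intro F
    refine Finset.sum_congr rfl fun v _ => ?_
    rw [← Finset.sum_filter]
    apply Finset.sum_congr _ (fun _ _ => rfl)
    ext t; simp
  rw [h, h, Finset.sum_comm]
  refine Finset.sum_congr rfl fun v _ => Finset.sum_congr rfl fun t _ => ?_
  by_cases hvt : G.Adj v t
  · rw [if_pos hvt, if_pos hvt.symm]
  · rw [if_neg hvt, if_neg (fun h => hvt h.symm)]

lemma bilin (f g : V → ℝ) :
    ∑ v, f v * ∑ t ∈ G.neighborFinset v, (g v - g t)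
      = (∑ v, ∑ t ∈ G.neighborFinset v, (f v - f t) * (g v - g t)) / 2 := by
  have h1 : ∑ v, f v * ∑ t ∈ G.neighborFinset v, (g v - g t)
      = ∑ v, ∑ t ∈ G.neighborFinset v, f v * (g v - g t) :=
    Finset.sum_congr rfl fun v _ => Finset.mul_sum _ _ _
  have h2 := sum_nbr_swap G (fun v t => f v * (g v - g t))
  have h3 : ∑ v, ∑ t ∈ G.neighborFinset v, (f v - f t) * (g v - g t)
      = ∑ v, ∑ t ∈ G.neighborFinset v, f v * (g v - g t)
        + ∑ v, ∑ t ∈ G.neighborFinset v, f t * (g t - g v) := by
    rw [← Finset.sum_add_distrib]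
    refine Finset.sum_congr rfl fun v _ => ?_
    rw [← Finset.sum_add_distrib]
    exact Finset.sum_congr rfl fun t _ => by ring
  rw [h1, h3, ← h2]
  ring

lemma energy_eq (f : V → ℝ) :
    energy G f = ∑ v, f v * ∑ t ∈ G.neighborFinset v, (f v - f t) := by
  rw [bilin, energy]
  congr 1
  exact Finset.sum_congr rfl fun v _ => Finset.sum_congr rfl fun t _ => by ring

lemma energy_nonneg (f : V → ℝ) : 0 ≤ energy G f := by
  unfold energy
  apply div_nonneg _ (by norm_num)
  exact Finset.sum_nonneg fun v _ => Finset.sum_nonneg fun t _ => sq_nonneg _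

/-- Cauchy Schwarz for the energy -/
lemma energy_cs (f g : V → ℝ) :
    (∑ v, f v * ∑ t ∈ G.neighborFinset v, (g v - g t)) ^ 2 ≤ energy G f * energy G g := by
  set B := ∑ v, f v * ∑ t ∈ G.neighborFinset v, (g v - g t) with hB
  have hexp : ∀ s : ℝ, energy G (fun v => f v + s * g v)
      = energy G f + 2 * s * B + s ^ 2 * energy G g := by
    intro s
    rw [hB, bilin]
    unfold energy
    have : ∑ v, ∑ t ∈ G.neighborFinset v, (f v + s * g v - (f t + s * g t)) ^ 2
        = ∑ v, ∑ t ∈ G.neighborFinset v, (f v - f t) ^ 2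
          + 2 * s * ∑ v, ∑ t ∈ G.neighborFinset v, (f v - f t) * (g v - g t)
          + s ^ 2 * ∑ v, ∑ t ∈ G.neighborFinset v, (g v - g t) ^ 2 := by
      rw [Finset.mul_sum, Finset.mul_sum, ← Finset.sum_add_distrib, ← Finset.sum_add_distrib]
      refine Finset.sum_congr rfl fun v _ => ?_
      rw [Finset.mul_sum, Finset.mul_sum, ← Finset.sum_add_distrib, ← Finset.sum_add_distrib]
      exact Finset.sum_congr rfl fun t _ => by ring
    rw [this]
    ring
  by_cases hg : energy G g = 0
  · have hB0 : B = 0 := by
      by_contra hne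
      have h := energy_nonneg G (fun v => f v + (-(energy G f + 1) / (2 * B)) * g v)
      rw [hexp, hg] at h
      have : 2 * (-(energy G f + 1) / (2 * B)) * B = -(energy G f + 1) := by
        field_simp
      rw [this] at h
      linarith
    rw [hB0, hg]; simp
  · have hgpos : 0 < energy G g := lt_of_le_of_ne (energy_nonneg G g) (Ne.symm hg)
    have h := energy_nonneg G (fun v => f v + (-B / energy G g) * g v)
    rw [hexp] at h
    have : energy G f + 2 * (-B / energy G g) * B + (-B / energy G g) ^ 2 * energy G g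
        = energy G f - B ^ 2 / energy G g := by
      field_simp
      ring
    rw [this] at h
    have h2 : B ^ 2 / energy G g ≤ energy G f := by linarith
    rwa [div_le_iff₀ hgpos] at h2

lemma partial_le (i j : V) (hij : i ≠ j) : ∀ (n : ℕ) (s : V),
    ∑ k ∈ range n, killedProb G i j k s ≤ ∑ k ∈ range n, killedProb G i j k i := by
  intro n
  induction n with
  | zero => intro s; simp
  | succ n ih =>
    intro s
    by_cases hsi : s = i
    · rw [hsi]
    rw [Finset.sum_range_succ']
    by_cases hsj : s = j
    · subst hsj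
      simp [killedProb]
    · have h0 : killedProb G i j 0 s = 0 := by simp [killedProb, hsi, hsj]
      rw [h0, add_zero]
      have h1 : ∑ k ∈ range n, killedProb G i j (k + 1) s
          = ∑ t ∈ G.neighborFinset s, (G.degree s : ℝ≥0∞)⁻¹ *
            ∑ k ∈ range n, killedProb G i j k t := by
        simp only [killedProb, if_neg hsj]
        rw [Finset.sum_comm]
        refine Finset.sum_congr rfl fun t _ => ?_
        rw [Finset.mul_sum]
      rw [h1]
      calc ∑ t ∈ G.neighborFinset s, (G.degree s : ℝ≥0∞)⁻¹ *
            ∑ k ∈ range n, killedProb G i j k t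
          ≤ ∑ t ∈ G.neighborFinset s, (G.degree s : ℝ≥0∞)⁻¹ *
            ∑ k ∈ range n, killedProb G i j k i :=
            Finset.sum_le_sum fun t _ => mul_le_mul_right (ih t) _
        _ = (G.degree s : ℝ≥0∞) * (G.degree s : ℝ≥0∞)⁻¹ *
            ∑ k ∈ range n, killedProb G i j k i := by
            rw [Finset.sum_const, SimpleGraph.card_neighborFinset_eq_degree, nsmul_eq_mul,
              mul_assoc]
        _ ≤ 1 * ∑ k ∈ range n, killedProb G i j k i :=
            mul_le_mul_left (ENNReal.mul_inv_le_one _) _
        _ = ∑ k ∈ range n, killedProb G i j k i := one_mul _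
        _ ≤ ∑ k ∈ range (n + 1), killedProb G i j k i :=
            Finset.sum_le_sum_of_subset (Finset.range_mono (Nat.le_succ n))

lemma visits_le (i j : V) (hij : i ≠ j) (s : V) : visits G i j s ≤ visits G i j i := by
  unfold visits
  apply ENNReal.tsum_le_of_sum_range_le
  intro n
  exact (partial_le G i j hij n s).trans (ENNReal.sum_le_tsum _)

lemma visits_step (i j : V) (s : V) (hsj : s ≠ j) :
    visits G i j s = (if s = i then 1 else 0)
      + ∑ t ∈ G.neighborFinset s, (G.degree s : ℝ≥0∞)⁻¹ * visits G i j t := by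
  unfold visits
  rw [tsum_eq_zero_add' ENNReal.summable]
  congr 1
  · simp [killedProb, hsj]
  · simp only [killedProb, if_neg hsj]
    rw [Summable.tsum_finsetSum (fun _ _ => ENNReal.summable)]
    refine Finset.sum_congr rfl fun t _ => ?_
    rw [ENNReal.tsum_mul_left]

lemma visits_self (i j : V) : visits G i j j = 0 := by
  unfold visits
  rw [ENNReal.tsum_eq_zero]
  intro k
  cases k <;> simp [killedProb]

/-- The resistance bound in variational form. -/
theorem dirichlet (hconn : G.Connected) (hV : Nontrivial V) (M : ℝ) (hM : 0 ≤ M)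
    (hG : greenMax G ≤ ENNReal.ofReal M) (i j : V) (f : V → ℝ) :
    (f i - f j) ^ 2 ≤ M * energy G f := by
  by_cases hij : i = j
  · subst hij
    rw [sub_self]
    have := mul_nonneg hM (energy_nonneg G f)
    nlinarith
  have hdeg : ∀ v, 0 < G.degree v := fun v => hconn.preconnected.degree_pos_of_nontrivial v
  have h1 : visits G i j i / (G.degree i : ℝ≥0∞) ≤ ENNReal.ofReal M := by
    refine le_trans ?_ hG
    unfold greenMax
    exact le_iSup_of_le i (le_iSup_of_le j (le_iSup_of_le hij le_rfl))
  have hdi : (G.degree i : ℝ≥0∞) ≠ 0 := by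
    simpa using (hdeg i).ne'
  have hfin : visits G i j i ≠ ⊤ := by
    intro htop
    rw [htop, ENNReal.top_div_of_ne_top (ENNReal.natCast_ne_top _)] at h1
    exact absurd h1 (by simp)
  have hfins : ∀ s, visits G i j s ≠ ⊤ := fun s =>
    ne_top_of_le_ne_top hfin (visits_le G i j hij s)
  set u : V → ℝ := fun s => (visits G i j s).toReal with hu
  have huj : u j = 0 := by simp [hu, visits_self]
  have hstep : ∀ s, s ≠ j → ∑ t ∈ G.neighborFinset s, (u s - u t)
      = if s = i then (G.degree i : ℝ) else 0 := by
    intro s hs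
    have hds : (0:ℝ) < G.degree s := by exact_mod_cast hdeg s
    have h2 : u s = (if s = i then 1 else 0)
        + ∑ t ∈ G.neighborFinset s, (G.degree s : ℝ)⁻¹ * u t := by
      simp only [hu]
      rw [visits_step G i j s hs, ENNReal.toReal_add, ENNReal.toReal_sum]
      · congr 1
        · split_ifs <;> simp
        · refine Finset.sum_congr rfl fun t _ => ?_
          rw [ENNReal.toReal_mul, ENNReal.toReal_inv, ENNReal.toReal_natCast]
      · intro t _
        exact ENNReal.mul_ne_top (by simpa using (hdeg s).ne') (hfins t)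
      · split_ifs <;> simp
      · apply ENNReal.sum_ne_top.2
        intro t _
        exact ENNReal.mul_ne_top (by simpa using (hdeg s).ne') (hfins t)
    rw [Finset.sum_sub_distrib, Finset.sum_const, SimpleGraph.card_neighborFinset_eq_degree,
      nsmul_eq_mul]
    rw [← Finset.mul_sum] at h2
    have h3 : (G.degree s : ℝ) * u s = (G.degree s : ℝ) * (if s = i then 1 else 0)
        + ∑ t ∈ G.neighborFinset s, u t := by
      conv_lhs => rw [h2]
      field_simp
    rw [h3]
    by_cases hsi : s = i
    · subst hsi; simp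
    · simp [hsi]
  have hkey : ∀ g : V → ℝ, g j = 0 →
      ∑ v, g v * ∑ t ∈ G.neighborFinset v, (u v - u t) = g i * G.degree i := by
    intro g hg
    rw [Finset.sum_eq_single i]
    · rw [hstep i hij, if_pos rfl]
    · intro s _ hs
      by_cases hsj : s = j
      · subst hsj; rw [hg, zero_mul]
      · rw [hstep s hsj, if_neg hs, mul_zero]
    · simp
  have hEu : energy G u = u i * G.degree i := by
    rw [energy_eq]; exact hkey u huj
  set g : V → ℝ := fun v => f v - f j with hg
  have hEg : energy G g = energy G f := by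
    simp [energy, hg]
  have hcs := energy_cs G g u
  rw [hkey g (by simp [hg]), hEu, hEg] at hcs
  have hd : (0:ℝ) < G.degree i := by exact_mod_cast hdeg i
  have hui : u i ≤ M * G.degree i := by
    have h4 := ENNReal.toReal_mono ENNReal.ofReal_ne_top h1
    rw [ENNReal.toReal_div, ENNReal.toReal_natCast, ENNReal.toReal_ofReal hM] at h4
    rwa [div_le_iff₀ hd] at h4
  have hgi : g i = f i - f j := rfl
  rw [hgi] at hcs
  have hE := energy_nonneg G f
  have h5 : (f i - f j) ^ 2 * (G.degree i : ℝ) ^ 2
      ≤ (M * energy G f) * (G.degree i : ℝ) ^ 2 := by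
    calc (f i - f j) ^ 2 * (G.degree i : ℝ) ^ 2
        = ((f i - f j) * G.degree i) ^ 2 := by ring
      _ ≤ energy G f * (u i * G.degree i) := hcs
      _ ≤ energy G f * ((M * G.degree i) * G.degree i) := by
          apply mul_le_mul_of_nonneg_left _ hE
          exact mul_le_mul_of_nonneg_right hui hd.le
      _ = _ := by ring
  exact le_of_mul_le_mul_right h5 (by positivity)

/-- forests with two roots against trees -/
theorem two_roots (M : ℝ) (x y : V) (hxy : x ≠ y)
    (hD : ∀ f : V → ℝ, (f x - f y) ^ 2 ≤ M * energy G f) :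
    ((trees (fun v => G.neighborFinset v) {x, y}).card : ℝ)
      ≤ M * (trees (fun v => G.neighborFinset v) {y}).card := by
  classical
  have hN : ∀ R : Finset V, ∀ v, v ∉ R → v ∉ G.neighborFinset v := by
    intro R v _; simp
  rw [← det_treeMat _ _ (hN _), ← det_treeMat _ _ (hN _)]
  set A := treeMat (fun v => G.neighborFinset v) {y} with hA
  have hA0 : 0 ≤ A.det := by rw [hA, det_treeMat _ _ (hN _)]; positivity
  set g : V → ℝ := fun v => A.adjugate v x with hg
  have hAg : ∀ v, ∑ t, A v t * g t = if v = x then A.det else 0 := by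
    intro v
    have := congrFun (congrFun (Matrix.mul_adjugate A) v) x
    rw [Matrix.mul_apply] at this
    simpa [Matrix.one_apply] using this
  have hupd : A.updateRow x (Pi.single x 1)
      = treeMat (fun v => G.neighborFinset v) {x, y} := by
    funext v
    by_cases hvx : v = x
    · subst hvx
      simp [treeMat]
    · rw [Matrix.updateRow_ne hvx]
      simp [hA, treeMat, hvx]
  have hgx : g x = (treeMat (fun v => G.neighborFinset v) {x, y}).det := by
    simp only [hg]
    rw [Matrix.adjugate_apply, hupd]
  have hrowy : ∀ t, A y t = (Pi.single y 1 : V → ℝ) t := by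
    intro t; simp [hA, treeMat]
  have hgy : g y = 0 := by
    have := hAg y
    rw [if_neg hxy.symm] at this
    simpa [hrowy, Pi.single_apply] using this
  have hrow : ∀ v, v ≠ y → ∑ t, A v t * g t = ∑ t ∈ G.neighborFinset v, (g v - g t) := by
    intro v hv
    have h1 : A v = ∑ t ∈ G.neighborFinset v, ((Pi.single v 1 : V → ℝ) - Pi.single t 1) := by
      simp [hA, treeMat, hv]
    rw [h1]
    change (∑ s ∈ G.neighborFinset v, ((Pi.single v 1 : V → ℝ) - Pi.single s 1)) ⬝ᵥ g = _
    rw [_root_.sum_dotProduct]
    refine Finset.sum_congr rfl fun s _ => ?_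
    rw [sub_dotProduct, single_dotProduct, single_dotProduct, one_mul, one_mul]
  have hE : energy G g = g x * A.det := by
    rw [energy_eq, Finset.sum_eq_single x]
    · rw [← hrow x hxy, hAg, if_pos rfl]
    · intro v _ hv
      by_cases hvy : v = y
      · subst hvy; rw [hgy, zero_mul]
      · rw [← hrow v hvy, hAg, if_neg hv, mul_zero]
    · simp
  have hgx0 : 0 ≤ g x := by
    rw [hgx, det_treeMat _ _ (hN _)]; positivity
  have := hD g
  rw [hgy, sub_zero, hE] at this
  rw [← hgx]
  rcases hgx0.eq_or_lt with h0 | hpos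
  · rw [← h0] at this ⊢
    have hM' : 0 ≤ M ∨ A.det = 0 := by
      by_contra hcon
      push Not at hcon
      have hdet : 0 < A.det := lt_of_le_of_ne hA0 (Ne.symm hcon.2)
      have h1 := hD (fun v => if v = x then 1 else 0)
      have h2 := energy_nonneg G (fun v => if v = x then (1:ℝ) else 0)
      simp only [if_true, if_neg hxy.symm] at h1
      nlinarith
    rcases hM' with h | h
    · positivity
    · rw [h]; simp
  · have h1 : g x * g x ≤ g x * (M * A.det) := by nlinarith
    exact le_of_mul_le_mul_left h1 hpos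

end Pool.Agent.helper36.IsingRes
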