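import Mathlib

open Matrix Finset

namespace Pool.Agent.helper36.IsingGlue

variable {B : Type} [Fintype B] [DecidableEq B]

/-- the matrix of the map identifying `u` with `v` -/
def merge (u v : B) : Matrix B {b : B // b ≠ u} ℝ :=
  fun b x => (if b = (x : B) then 1 else 0) + (if b = u ∧ (x : B) = v then 1 else 0)

/-- `e_u - e_v` -/
def dvec (u v : B) : B → ℝ := Pi.single u 1 - Pi.single v 1

lemma adj_of_mulVec (N : Matrix B B ℝ) (w : B → ℝ) (u : B) (h : N *ᵥ w = Pi.single u 1) :
    N.adjugate u u = N.det * w u := by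
  have h1 : N.adjugate *ᵥ (N *ᵥ w) = N.det • w := by
    rw [Matrix.mulVec_mulVec, Matrix.adjugate_mul, Matrix.smul_mulVec, Matrix.one_mulVec]
  rw [h] at h1
  have h2 := congrFun h1 u
  simpa using h2

lemma adj_eq_det_sub (N : Matrix B B ℝ) (u : B) :
    N.adjugate u u = (N.submatrix (Subtype.val : {b : B // b ≠ u} → B) Subtype.val).det := by
  rw [Matrix.adjugate_apply]
  rw [Matrix.twoBlockTriangular_det (N.updateRow u (Pi.single u 1)) (fun b => b ≠ u)]
  · have h1 : (toSquareBlockProp (N.updateRow u (Pi.single u 1)) fun b => b ≠ u)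
        = N.submatrix (Subtype.val : {b : B // b ≠ u} → B) Subtype.val := by
      ext i j
      simp [toSquareBlockProp, Matrix.updateRow_ne i.2]
    have h2 : (toSquareBlockProp (N.updateRow u (Pi.single u 1)) fun b => ¬ (b ≠ u)).det = 1 := by
      have : Unique {b : B // ¬ (b ≠ u)} := ⟨⟨⟨u, by simp⟩⟩, fun a => by
        apply Subtype.ext; have := a.2; simpa using this⟩
      rw [Matrix.det_unique]
      have hd : ((default : {b : B // ¬ (b ≠ u)}) : B) = u := by
        have := (default : {b : B // ¬ (b ≠ u)}).2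
        simpa using this
      simp [toSquareBlockProp, hd]
    rw [h1, h2, mul_one]
  · intro i hi j hj
    have : i = u := by simpa using hi
    subst this
    simp [hj]

lemma merge_eq (u v : B) (huv : u ≠ v) :
    merge u v = (Matrix.transvection u v (1:ℝ)).submatrix id
      (Subtype.val : {b : B // b ≠ u} → B) := by
  ext b x
  simp only [merge, Matrix.transvection, Matrix.submatrix_apply, id, Matrix.add_apply,
    Matrix.one_apply, Matrix.single_apply]
  congr 1
  have h1 : (b = u ∧ (x : B) = v) ↔ (u = b ∧ v = (x : B)) := by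
    constructor
    · rintro ⟨h, h'⟩; exact ⟨h.symm, h'.symm⟩
    · rintro ⟨h, h'⟩; exact ⟨h.symm, h'.symm⟩
  simp only [h1]

lemma merge_det (A : Matrix B B ℝ) (hA : IsUnit A.det) (u v : B) (huv : u ≠ v) :
    ((merge u v)ᵀ * A * merge u v).det
      = A.det * (dvec u v ⬝ᵥ (A⁻¹ *ᵥ dvec u v)) := by
  set T := Matrix.transvection u v (1:ℝ) with hT
  set N := Tᵀ * A * T with hN
  have hNs : (merge u v)ᵀ * A * merge u v
      = N.submatrix (Subtype.val : {b : B // b ≠ u} → B) Subtype.val := by
    rw [merge_eq u v huv, hN]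
    ext i j
    simp [Matrix.mul_apply, Matrix.submatrix_apply, hT]
  set y := A⁻¹ *ᵥ dvec u v with hy
  set w := (Matrix.transvection u v (-1:ℝ)) *ᵥ y with hw
  have hTT : T * Matrix.transvection u v (-1:ℝ) = 1 := by
    rw [hT, Matrix.transvection_mul_transvection_same _ _ huv]
    simp
  have hNw : N *ᵥ w = Pi.single u 1 := by
    rw [hN, hw, Matrix.mulVec_mulVec, Matrix.mul_assoc, hTT, Matrix.mul_one, hy,
      Matrix.mulVec_mulVec, Matrix.mul_assoc, Matrix.mul_nonsing_inv _ hA, Matrix.mul_one]
    ext b
    simp only [hT, dvec, Matrix.transvection, Matrix.transpose_add, Matrix.transpose_one,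
      Matrix.add_mulVec, Matrix.one_mulVec, Matrix.mulVec_sub]
    simp only [Matrix.transpose_single, Pi.add_apply, Pi.sub_apply]
    simp [Matrix.mulVec_single_one, Matrix.single_apply, Pi.single_apply, huv, huv.symm, eq_comm]
  have hdet : N.det = A.det := by
    rw [hN, Matrix.det_mul, Matrix.det_mul, Matrix.det_transpose, hT,
      Matrix.det_transvection_of_ne u v huv]
    ring
  rw [hNs, ← adj_eq_det_sub, adj_of_mulVec N w u hNw, hdet]
  congr 1
  rw [hw]
  simp only [Matrix.transvection, Matrix.add_mulVec, Matrix.one_mulVec, Pi.add_apply, dvec,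
    sub_dotProduct, single_dotProduct]
  simp [Matrix.single_mulVec]
  ring

lemma merge_mulVec (u v : B) (g : {b : B // b ≠ u} → ℝ) (b : B) (hv : v ≠ u) :
    (merge u v *ᵥ g) b = if h : b = u then g ⟨v, hv⟩ else g ⟨b, h⟩ := by
  simp only [Matrix.mulVec, dotProduct, merge]
  by_cases h : b = u
  · subst h
    simp only [dif_pos rfl, true_and]
    rw [Finset.sum_eq_single ⟨v, hv⟩]
    · simp [hv.symm]
    · intro x _ hx
      have h1 : (x : B) ≠ v := fun h => hx (Subtype.ext h)
      simp [h1, x.2.symm]
    · simp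
  · simp only [dif_neg h, h, false_and, if_false, add_zero]
    rw [Finset.sum_eq_single ⟨b, h⟩]
    · simp
    · intro x _ hx
      have h1 : b ≠ (x : B) := fun h => hx (Subtype.ext h.symm)
      simp [h1]
    · simp

lemma merge_injective (u v : B) (hv : v ≠ u) : Function.Injective (merge u v).mulVec := by
  intro g g' h
  funext x
  have h1 := congrFun h (x : B)
  rw [merge_mulVec u v g _ hv, merge_mulVec u v g' _ hv, dif_neg x.2, dif_neg x.2] at h1
  exact h1

lemma merge_posDef (A : Matrix B B ℝ) (hA : A.PosDef) (u v : B) (hv : v ≠ u) :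
    ((merge u v)ᵀ * A * merge u v).PosDef := by
  have := hA.conjTranspose_mul_mul_same (merge_injective u v hv)
  simpa using this

/-- pushforward of a weight -/
def push (u v : B) (D : B → ℝ) : {b : B // b ≠ u} → ℝ :=
  fun x => D x + if (x : B) = v then D u else 0

lemma merge_diag (u v : B) (hv : v ≠ u) (D : B → ℝ) :
    (merge u v)ᵀ * Matrix.diagonal D * merge u v = Matrix.diagonal (push u v D) := by
  ext x y
  rw [Matrix.mul_assoc, Matrix.mul_apply]
  simp only [Matrix.diagonal_mul, Matrix.transpose_apply]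
  by_cases hxy : x = y
  · subst hxy
    rw [Matrix.diagonal_apply_eq]
    simp only [merge, push]
    rw [← Finset.add_sum_erase _ _ (Finset.mem_univ (x : B))]
    have hx := x.2
    simp only [if_true, hx, false_and, if_false, add_zero, mul_one, one_mul]
    congr 1
    by_cases hxv : (x : B) = v
    · rw [if_pos hxv]
      rw [Finset.sum_eq_single u]
      · simp [hxv, hx.symm, hv.symm]
      · intro b hb hbu
        have : b ≠ (x : B) := (Finset.mem_erase.1 hb).1
        simp [this, hbu]
      · intro h
        exact absurd (Finset.mem_erase.2 ⟨hx.symm, Finset.mem_univ _⟩) h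
    · rw [if_neg hxv]
      apply Finset.sum_eq_zero
      intro b hb
      have : b ≠ (x : B) := (Finset.mem_erase.1 hb).1
      simp [this, hxv]
  · rw [Matrix.diagonal_apply_ne _ hxy]
    apply Finset.sum_eq_zero
    intro b _
    have hxy' : (x : B) ≠ y := fun h => hxy (Subtype.ext h)
    simp only [merge]
    by_cases hbx : b = (x : B)
    · have h1 : b ≠ (y : B) := by rw [hbx]; exact hxy'
      have h2 : b ≠ u := by rw [hbx]; exact x.2
      simp [h1, h2]
    · by_cases hbu : b = u
      · by_cases hxv : (x : B) = v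
        · have h1 : (y : B) ≠ v := by rw [← hxv]; exact hxy'.symm
          have h2 : b ≠ (y : B) := by rw [hbu]; exact y.2.symm
          simp [h1, h2]
        · simp [hbx, hxv]
      · simp [hbx, hbu]

lemma sum_push (u v : B) (hv : v ≠ u) (D : B → ℝ) : ∑ x, push u v D x = ∑ b, D b := by
  simp only [push, Finset.sum_add_distrib]
  rw [← Finset.add_sum_erase _ _ (Finset.mem_univ u), add_comm]
  congr 1
  · rw [Finset.sum_eq_single ⟨v, hv⟩]
    · simp
    · intro x _ hx
      have h1 : (x : B) ≠ v := fun h => hx (Subtype.ext h)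
      simp [h1]
    · simp
  · rw [← Finset.sum_subtype (Finset.univ.erase u) (by simp) D]

/-- a Laplacian all of whose cuts are at least `c` -/
structure IsNet (c : ℝ) (L : Matrix B B ℝ) : Prop where
  symm : Lᵀ = L
  off : ∀ a b, a ≠ b → L a b ≤ 0
  row : L *ᵥ (fun _ => 1) = 0
  cut : ∀ g : B → ℝ, (∀ b, g b = 0 ∨ g b = 1) → (∃ a, g a = 1) → (∃ b, g b = 0) →
    c ≤ g ⬝ᵥ (L *ᵥ g)

lemma merge_nonneg (u v b : B) (x : {b : B // b ≠ u}) : 0 ≤ merge u v b x := by
  unfold merge
  positivity

lemma merge_disj (u v b : B) (x y : {b : B // b ≠ u}) (hxy : x ≠ y) :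
    merge u v b x * merge u v b y = 0 := by
  have hxy' : (x : B) ≠ y := fun h => hxy (Subtype.ext h)
  simp only [merge]
  by_cases hbx : b = (x : B)
  · have h1 : b ≠ (y : B) := by rw [hbx]; exact hxy'
    have h2 : b ≠ u := by rw [hbx]; exact x.2
    simp [h1, h2]
  · by_cases hbu : b = u
    · by_cases hxv : (x : B) = v
      · have h1 : (y : B) ≠ v := by rw [← hxv]; exact hxy'.symm
        have h2 : b ≠ (y : B) := by rw [hbu]; exact y.2.symm
        simp [h1, h2]
      · simp [hbx, hxv]
    · simp [hbx, hbu]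

lemma quad_merge (L : Matrix B B ℝ) (u v : B) (g : {b : B // b ≠ u} → ℝ) :
    g ⬝ᵥ (((merge u v)ᵀ * L * merge u v) *ᵥ g)
      = (merge u v *ᵥ g) ⬝ᵥ (L *ᵥ (merge u v *ᵥ g)) := by
  rw [← Matrix.mulVec_mulVec, ← Matrix.mulVec_mulVec, Matrix.dotProduct_mulVec,
    Matrix.vecMul_transpose]

lemma IsNet.merge {c : ℝ} {L : Matrix B B ℝ} (h : IsNet c L) (u v : B) (hv : v ≠ u) :
    IsNet c ((merge u v)ᵀ * L * merge u v) where
  symm := by
    rw [Matrix.transpose_mul, Matrix.transpose_mul, Matrix.transpose_transpose, h.symm,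
      Matrix.mul_assoc]
  off := by
    intro x y hxy
    rw [Matrix.mul_apply]
    apply Finset.sum_nonpos
    intro b' _
    rw [Matrix.mul_apply, Finset.sum_mul]
    apply Finset.sum_nonpos
    intro b _
    rw [Matrix.transpose_apply]
    by_cases hb : b = b'
    · subst hb
      have := merge_disj u v b x y hxy
      have h2 : IsingGlue.merge u v b x * L b b * IsingGlue.merge u v b y = 0 := by
        rw [mul_right_comm, this, zero_mul]
      rw [h2]
    · have h1 := h.off b b' hb
      have h2 := merge_nonneg u v b x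
      have h3 := merge_nonneg u v b' y
      have h4 : IsingGlue.merge u v b x * L b b' ≤ 0 := mul_nonpos_of_nonneg_of_nonpos h2 h1
      exact mul_nonpos_of_nonpos_of_nonneg h4 h3
  row := by
    have h1 : IsingGlue.merge u v *ᵥ (fun _ => (1:ℝ)) = fun _ => 1 := by
      funext b
      rw [merge_mulVec u v _ b hv]
      by_cases hb : b = u <;> simp [hb]
    rw [← Matrix.mulVec_mulVec, h1, ← Matrix.mulVec_mulVec, h.row, Matrix.mulVec_zero]
  cut := by
    intro g hg ⟨a, ha⟩ ⟨b, hb⟩
    rw [quad_merge]
    apply h.cut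
    · intro b
      rw [merge_mulVec u v _ b hv]
      by_cases hb : b = u
      · rw [dif_pos hb]; exact hg _
      · rw [dif_neg hb]; exact hg _
    · refine ⟨a, ?_⟩
      rw [merge_mulVec u v _ _ hv, dif_neg a.2]; exact ha
    · refine ⟨b, ?_⟩
      rw [merge_mulVec u v _ _ hv, dif_neg b.2]; exact hb

/-- effective resistance form -/
noncomputable def res (A : Matrix B B ℝ) (u v : B) : ℝ := dvec u v ⬝ᵥ (A⁻¹ *ᵥ dvec u v)

lemma res_expand (A : Matrix B B ℝ) (u v : B) :
    res A u v = A⁻¹ u u + A⁻¹ v v - A⁻¹ u v - A⁻¹ v u := by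
  simp only [res, dvec, Matrix.mulVec_sub, sub_dotProduct, dotProduct_sub, single_dotProduct,
    Matrix.mulVec_single_one, one_mul, Matrix.col_apply]
  ring

lemma res_nonneg (A : Matrix B B ℝ) (hA : A.PosDef) (u v : B) : 0 ≤ res A u v := by
  have := (hA.inv.posSemidef).dotProduct_mulVec_nonneg (dvec u v)
  simpa [res] using this

lemma res_lower (A : Matrix B B ℝ) (hA : A.PosDef) (u v : B) (huv : u ≠ v) :
    1 ≤ res A u v * A u u := by
  have hd : IsUnit A.det := (Matrix.isUnit_iff_isUnit_det A).1 hA.isUnit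
  have hu : 0 < A u u := hA.diag_pos
  set y := A⁻¹ *ᵥ dvec u v with hy
  have hAy : A *ᵥ y = dvec u v := by
    rw [hy, Matrix.mulVec_mulVec, Matrix.mul_nonsing_inv _ hd, Matrix.one_mulVec]
  set s := (A u u)⁻¹ with hs
  have h0 := hA.posSemidef.dotProduct_mulVec_nonneg (y - s • (Pi.single u 1 : B → ℝ))
  rw [star_trivial, Matrix.mulVec_sub, Matrix.mulVec_smul, hAy, sub_dotProduct, dotProduct_sub,
    dotProduct_sub] at h0
  have h1 : y ⬝ᵥ dvec u v = res A u v := by
    rw [dotProduct_comm, res]
  have h2 : (s • (Pi.single u 1 : B → ℝ)) ⬝ᵥ dvec u v = s := by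
    simp [dvec, huv]
  have h3 : y ⬝ᵥ s • (A *ᵥ (Pi.single u 1 : B → ℝ)) = s := by
    rw [dotProduct_smul]
    have : y ⬝ᵥ (A *ᵥ (Pi.single u 1 : B → ℝ)) = dvec u v ⬝ᵥ (Pi.single u 1 : B → ℝ) := by
      have hsym : Aᵀ = A := by simpa using hA.isHermitian.eq
      rw [Matrix.dotProduct_mulVec, ← Matrix.mulVec_transpose, hsym, hAy]
    rw [this]
    simp [dvec, huv.symm]
  have h4 : (s • (Pi.single u 1 : B → ℝ)) ⬝ᵥ s • (A *ᵥ (Pi.single u 1 : B → ℝ))
      = s * s * A u u := by
    simp [Matrix.mulVec_single_one]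
    ring
  rw [h1, h2, h3, h4] at h0
  have h5 : s * A u u = 1 := inv_mul_cancel₀ hu.ne'
  have h6 : res A u v ≥ s := by nlinarith
  calc (1:ℝ) = s * A u u := h5.symm
    _ ≤ res A u v * A u u := mul_le_mul_of_nonneg_right h6 hu.le

/-- Foster type bound -/
lemma foster (c : ℝ) (L : Matrix B B ℝ) (hL : IsNet c L) (E : B → ℝ) (hE : ∀ b, 0 ≤ E b)
    (hA : (L + Matrix.diagonal E).PosDef) :
    ∑ u, ∑ v, (-L u v) * res (L + Matrix.diagonal E) u v ≤ 2 * Fintype.card B := by
  set A := L + Matrix.diagonal E with hAdef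
  have hd : IsUnit A.det := (Matrix.isUnit_iff_isUnit_det A).1 hA.isUnit
  have hrow : ∀ u, ∑ v, L u v = 0 := by
    intro u
    have := congrFun hL.row u
    simpa [Matrix.mulVec, dotProduct] using this
  have hsy : ∀ u v, L u v = L v u := by
    intro u v
    have := congrFun (congrFun hL.symm v) u
    simpa using this
  have hcol : ∀ v, ∑ u, L u v = 0 := by
    intro v
    rw [← hrow v]
    exact Finset.sum_congr rfl fun u _ => hsy u v
  have h1 : ∑ u, ∑ v, (-L u v) * A⁻¹ u u = 0 := by
    apply Finset.sum_eq_zero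
    intro u _
    rw [← Finset.sum_mul, Finset.sum_neg_distrib, hrow u]
    simp
  have h2 : ∑ u, ∑ v, (-L u v) * A⁻¹ v v = 0 := by
    rw [Finset.sum_comm]
    apply Finset.sum_eq_zero
    intro v _
    rw [← Finset.sum_mul, Finset.sum_neg_distrib, hcol v]
    simp
  have htr : Matrix.trace (L * A⁻¹) = ∑ u, ∑ v, L u v * A⁻¹ v u := by
    simp [Matrix.trace, Matrix.mul_apply]
  have htr2 : ∑ u, ∑ v, L u v * A⁻¹ u v = ∑ u, ∑ v, L u v * A⁻¹ v u := by
    rw [Finset.sum_comm]
    refine Finset.sum_congr rfl fun u _ => Finset.sum_congr rfl fun v _ => ?_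
    rw [hsy]
  have htr3 : Matrix.trace (L * A⁻¹) ≤ Fintype.card B := by
    have h : L * A⁻¹ = 1 - Matrix.diagonal E * A⁻¹ := by
      have : A * A⁻¹ = 1 := Matrix.mul_nonsing_inv _ hd
      rw [← this, hAdef, Matrix.add_mul, add_sub_cancel_right]
    rw [h, Matrix.trace_sub, Matrix.trace_one]
    have : 0 ≤ Matrix.trace (Matrix.diagonal E * A⁻¹) := by
      simp only [Matrix.trace, Matrix.diag_apply, Matrix.diagonal_mul]
      exact Finset.sum_nonneg fun b _ => mul_nonneg (hE b) hA.inv.diag_pos.le
    linarith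
  have hexp : ∑ u, ∑ v, (-L u v) * res A u v
      = ∑ u, ∑ v, (-L u v) * A⁻¹ u u + ∑ u, ∑ v, (-L u v) * A⁻¹ v v
        + ∑ u, ∑ v, L u v * A⁻¹ u v + ∑ u, ∑ v, L u v * A⁻¹ v u := by
    rw [← Finset.sum_add_distrib, ← Finset.sum_add_distrib, ← Finset.sum_add_distrib]
    refine Finset.sum_congr rfl fun u _ => ?_
    rw [← Finset.sum_add_distrib, ← Finset.sum_add_distrib, ← Finset.sum_add_distrib]
    refine Finset.sum_congr rfl fun v _ => ?_
    rw [res_expand]
    ring
  rw [hexp, h1, h2, htr2, ← htr]
  linarith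

theorem glue_bound (c : ℝ) (hc : 0 < c) (t : ℝ) (ht : 0 < t) :
    ∀ (m : ℕ) (B : Type) [Fintype B] [DecidableEq B], Fintype.card B = m + 1 →
    ∀ (L : Matrix B B ℝ) (D E : B → ℝ), IsNet c L → (∀ b, 0 ≤ D b) → (∀ b, 0 ≤ E b) →
    ∑ b, D b = t → ∑ b, E b = 1 → (L + Matrix.diagonal D).PosDef →
    (L + Matrix.diagonal E).PosDef →
    (L + Matrix.diagonal D).det ≤
      (∏ j ∈ Finset.range m, 4 * (1 + 2 * t / (c * (j + 2)))) * t
        * (L + Matrix.diagonal E).det := by
  intro m
  induction m with
  | zero =>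
    intro B _ _ hB L D E hL hD hE hDt hE1 _ _
    have hu : Nonempty (Unique B) := by
      rw [← Fintype.card_eq_one_iff_nonempty_unique]; simpa using hB
    obtain ⟨hu⟩ := hu
    have hL0 : L default default = 0 := by
      have := congrFun hL.row default
      simpa [Matrix.mulVec, dotProduct] using this
    have hD0 : D default = t := by simpa using hDt
    have hE0 : E default = 1 := by simpa using hE1
    rw [Matrix.det_unique, Matrix.det_unique]
    simp [hL0, hD0, hE0]
  | succ m ih =>
    intro B _ _ hB L D E hL hD hE hDt hE1 hAD hAE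
    set AE := L + Matrix.diagonal E with hAEdef
    set AD := L + Matrix.diagonal D with hADdef
    have hdE : IsUnit AE.det := (Matrix.isUnit_iff_isUnit_det AE).1 hAE.isUnit
    have hdD : IsUnit AD.det := (Matrix.isUnit_iff_isUnit_det AD).1 hAD.isUnit
    have hcard : (Fintype.card B : ℝ) = m + 2 := by rw [hB]; push_cast; ring
    have hm2 : (0:ℝ) < m + 2 := by positivity
    have hnt : Nontrivial B := by
      rw [← Fintype.one_lt_card_iff_nontrivial, hB]; omega
    -- the averaging step
    have hfos := foster c L hL E hE hAE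
    rw [← hAEdef, hcard] at hfos
    have hne : (Finset.univ : Finset B).Nonempty := Finset.univ_nonempty
    obtain ⟨u, -, hu⟩ := Finset.exists_le_of_sum_le (s := (Finset.univ : Finset B))
      (f := fun u => (∑ v, (-L u v) * res AE u v) / 2 + (m + 2) / t * D u)
      (g := fun _ => (2:ℝ)) hne (by
        rw [Finset.sum_add_distrib, ← Finset.sum_div, ← Finset.mul_sum, hDt]
        rw [Finset.sum_const, Finset.card_univ, nsmul_eq_mul, hcard]
        have : (m + 2 : ℝ) / t * t = m + 2 := by field_simp
        rw [this]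
        linarith)
    set a := ∑ v, (-L u v) * res AE u v with ha
    have ha0 : 0 ≤ a := by
      apply Finset.sum_nonneg
      intro v _
      by_cases huv : u = v
      · subst huv
        have : res AE u u = 0 := by simp [res, dvec]
        rw [this, mul_zero]
      · exact mul_nonneg (by have := hL.off u v huv; linarith) (res_nonneg AE hAE u v)
    have hDu := hD u
    have ha4 : a ≤ 4 := by
      have : 0 ≤ (m + 2) / t * D u := by positivity
      linarith
    have hDu2 : D u ≤ 2 * t / (m + 2) := by
      have h1 : (m + 2) / t * D u ≤ 2 := by linarith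
      rw [le_div_iff₀ hm2]
      have h2 : (m + 2) / t * D u * t ≤ 2 * t := mul_le_mul_of_nonneg_right h1 ht.le
      have h3 : (m + 2) / t * D u * t = D u * (m + 2) := by field_simp
      linarith
    -- total conductance at u
    have hrow : ∑ v, L u v = 0 := by
      have := congrFun hL.row u
      simpa [Matrix.mulVec, dotProduct] using this
    have hs : c ≤ L u u := by
      obtain ⟨w, hw⟩ := exists_ne u
      have := hL.cut (Pi.single u 1) (by
        intro b
        by_cases hb : b = u
        · right; subst hb; simp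
        · left; simp [hb]) ⟨u, by simp⟩ ⟨w, by simp [hw]⟩
      simpa using this
    have hspos : 0 < L u u := lt_of_lt_of_le hc hs
    -- best neighbour
    obtain ⟨w, hw⟩ := exists_ne u
    obtain ⟨v, hvmem, hvmin⟩ := Finset.exists_min_image (Finset.univ.erase u)
      (fun v => res AE u v) ⟨w, by simp [hw]⟩
    have hv : v ≠ u := (Finset.mem_erase.1 hvmem).1
    have hR : L u u * res AE u v ≤ a := by
      have h1 : L u u = ∑ x ∈ Finset.univ.erase u, (-L u x) := by
        rw [← Finset.add_sum_erase _ _ (Finset.mem_univ u)] at hrow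
        rw [Finset.sum_neg_distrib]
        linarith
      have h2 : a = ∑ x ∈ Finset.univ.erase u, (-L u x) * res AE u x := by
        rw [ha, ← Finset.add_sum_erase _ _ (Finset.mem_univ u)]
        have : res AE u u = 0 := by simp [res, dvec]
        rw [this, mul_zero, zero_add]
      rw [h2]
      conv_lhs => rw [h1]
      rw [Finset.sum_mul]
      apply Finset.sum_le_sum
      intro x hx
      have hxu : x ≠ u := (Finset.mem_erase.1 hx).1
      exact mul_le_mul_of_nonneg_left (hvmin x hx) (by have := hL.off u x hxu.symm; linarith)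
    -- merge
    have hmD : (merge u v)ᵀ * L * merge u v + Matrix.diagonal (push u v D)
        = (merge u v)ᵀ * AD * merge u v := by
      rw [← merge_diag u v hv, hADdef, Matrix.mul_add, Matrix.add_mul]
    have hmE : (merge u v)ᵀ * L * merge u v + Matrix.diagonal (push u v E)
        = (merge u v)ᵀ * AE * merge u v := by
      rw [← merge_diag u v hv, hAEdef, Matrix.mul_add, Matrix.add_mul]
    have hcard' : Fintype.card {b : B // b ≠ u} = m + 1 := by
      rw [Fintype.card_subtype_compl, Fintype.card_subtype_eq, hB]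
      omega
    have hpush : ∀ F : B → ℝ, (∀ b, 0 ≤ F b) → ∀ x, 0 ≤ push u v F x := by
      intro F hF x
      unfold push
      have := hF x
      have := hF u
      split_ifs <;> linarith
    have key := ih {b : B // b ≠ u} hcard' ((merge u v)ᵀ * L * merge u v) (push u v D)
      (push u v E) (hL.merge u v hv) (hpush D hD) (hpush E hE)
      (by rw [sum_push u v hv, hDt]) (by rw [sum_push u v hv, hE1])
      (by rw [hmD]; exact merge_posDef AD hAD u v hv)
      (by rw [hmE]; exact merge_posDef AE hAE u v hv)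
    rw [hmD, hmE, merge_det AD hdD u v hv.symm, merge_det AE hdE u v hv.symm] at key
    change AD.det * res AD u v ≤ _ * t * (AE.det * res AE u v) at key
    set K := ∏ j ∈ Finset.range m, 4 * (1 + 2 * t / (c * ((j:ℝ) + 2))) with hK
    have hK0 : 0 ≤ K := Finset.prod_nonneg fun j _ => by positivity
    have hlow := res_lower AD hAD u v hv.symm
    have hADuu : AD u u = L u u + D u := by simp [hADdef]
    rw [hADuu] at hlow
    have hdetD : 0 < AD.det := hAD.det_pos
    have hdetE : 0 < AE.det := hAE.det_pos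
    have hRE := res_nonneg AE hAE u v
    have step1 : AD.det ≤ K * t * AE.det * (res AE u v * (L u u + D u)) := by
      calc AD.det ≤ AD.det * (res AD u v * (L u u + D u)) := by
            nlinarith
        _ = (AD.det * res AD u v) * (L u u + D u) := by ring
        _ ≤ (K * t * (AE.det * res AE u v)) * (L u u + D u) :=
            mul_le_mul_of_nonneg_right key (by linarith)
        _ = _ := by ring
    have step2 : res AE u v * (L u u + D u) ≤ 4 * (1 + 2 * t / (c * ((m:ℝ) + 2))) := by
      have h1 : res AE u v ≤ a / L u u := by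
        rw [le_div_iff₀ hspos]; linarith
      calc res AE u v * (L u u + D u) ≤ a / L u u * (L u u + D u) :=
            mul_le_mul_of_nonneg_right h1 (by linarith)
        _ = a * (1 + D u / L u u) := by field_simp
        _ ≤ 4 * (1 + (2 * t / (m + 2)) / c) := by
            apply mul_le_mul ha4 _ (by positivity) (by norm_num)
            have : D u / L u u ≤ (2 * t / (m + 2)) / c :=
              div_le_div₀ (by positivity) hDu2 hc hs
            linarith
        _ = _ := by
            congr 2
            field_simp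
    rw [Finset.prod_range_succ]
    calc AD.det ≤ K * t * AE.det * (res AE u v * (L u u + D u)) := step1
      _ ≤ K * t * AE.det * (4 * (1 + 2 * t / (c * ((m:ℝ) + 2)))) :=
          mul_le_mul_of_nonneg_left step2 (by positivity)
      _ = _ := by ring

end Pool.Agent.helper36.IsingGlue
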