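import Mathlib
import Pool.Agent.helper36.IsingGlue

open Matrix Finset

namespace Pool.Agent.helper36.IsingTrace

open Pool.Agent.helper36.IsingGlue

section quad
variable {W : Type} [Fintype W] [DecidableEq W]

/-- quadratic form of a symmetric matrix with zero row sums -/
lemma quad_eq (Q : Matrix W W ℝ) (hs : Qᵀ = Q) (hrow : Q *ᵥ (fun _ => 1) = 0) (h : W → ℝ) :
    h ⬝ᵥ (Q *ᵥ h) = (∑ a, ∑ b, (-Q a b) * (h a - h b) ^ 2) / 2 := by
  have hr : ∀ u, ∑ v, Q u v = 0 := by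
    intro u
    have := congrFun hrow u
    simpa [Matrix.mulVec, dotProduct] using this
  have hsy : ∀ u v, Q u v = Q v u := by
    intro u v
    have := congrFun (congrFun hs v) u
    simpa using this
  have hc : ∀ v, ∑ u, Q u v = 0 := by
    intro v
    rw [← hr v]
    exact Finset.sum_congr rfl fun u _ => hsy u v
  have h1 : ∑ a, ∑ b, (-Q a b) * (h a) ^ 2 = 0 := by
    apply Finset.sum_eq_zero
    intro a _
    rw [← Finset.sum_mul, Finset.sum_neg_distrib, hr a]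
    simp
  have h2 : ∑ a, ∑ b, (-Q a b) * (h b) ^ 2 = 0 := by
    rw [Finset.sum_comm]
    apply Finset.sum_eq_zero
    intro b _
    rw [← Finset.sum_mul, Finset.sum_neg_distrib, hc b]
    simp
  have h3 : ∑ a, ∑ b, (-Q a b) * (h a - h b) ^ 2
      = ∑ a, ∑ b, (-Q a b) * (h a) ^ 2 + ∑ a, ∑ b, (-Q a b) * (h b) ^ 2
        + 2 * ∑ a, ∑ b, h a * (Q a b * h b) := by
    rw [Finset.mul_sum, ← Finset.sum_add_distrib, ← Finset.sum_add_distrib]
    refine Finset.sum_congr rfl fun a _ => ?_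
    rw [Finset.mul_sum, ← Finset.sum_add_distrib, ← Finset.sum_add_distrib]
    refine Finset.sum_congr rfl fun b _ => ?_
    ring
  rw [h3, h1, h2, zero_add, zero_add, mul_div_cancel_left₀ _ (by norm_num : (2:ℝ) ≠ 0)]
  simp only [dotProduct, Matrix.mulVec, Finset.mul_sum]

lemma quad_nonneg (Q : Matrix W W ℝ) (hs : Qᵀ = Q) (hrow : Q *ᵥ (fun _ => 1) = 0)
    (hoff : ∀ a b, a ≠ b → Q a b ≤ 0) (h : W → ℝ) : 0 ≤ h ⬝ᵥ (Q *ᵥ h) := by
  rw [quad_eq Q hs hrow]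
  apply div_nonneg _ (by norm_num)
  apply Finset.sum_nonneg
  intro a _
  apply Finset.sum_nonneg
  intro b _
  by_cases hab : a = b
  · subst hab; simp
  · exact mul_nonneg (by have := hoff a b hab; linarith) (sq_nonneg _)

lemma quad_abs_le (Q : Matrix W W ℝ) (hs : Qᵀ = Q) (hrow : Q *ᵥ (fun _ => 1) = 0)
    (hoff : ∀ a b, a ≠ b → Q a b ≤ 0) (h : W → ℝ) :
    (fun a => |h a|) ⬝ᵥ (Q *ᵥ (fun a => |h a|)) ≤ h ⬝ᵥ (Q *ᵥ h) := by
  rw [quad_eq Q hs hrow, quad_eq Q hs hrow]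
  apply div_le_div_of_nonneg_right _ (by norm_num)
  apply Finset.sum_le_sum
  intro a _
  apply Finset.sum_le_sum
  intro b _
  by_cases hab : a = b
  · subst hab; simp
  · apply mul_le_mul_of_nonneg_left _ (by have := hoff a b hab; linarith)
    exact sq_le_sq.2 (abs_abs_sub_abs_le (h a) (h b))

end quad

section trace
variable {P I : Type} [Fintype P] [DecidableEq P] [Fintype I] [DecidableEq I]

/-- hypotheses on a Laplacian with boundary part `P` -/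
structure IsBd (c : ℝ) (Q : Matrix (P ⊕ I) (P ⊕ I) ℝ) : Prop where
  symm : Qᵀ = Q
  off : ∀ a b, a ≠ b → Q a b ≤ 0
  row : Q *ᵥ (fun _ => 1) = 0
  ker : ∀ h : P ⊕ I → ℝ, h ⬝ᵥ (Q *ᵥ h) = 0 → ∀ a b, h a = h b
  cut : ∀ h : P ⊕ I → ℝ, (∀ b : P, h (Sum.inl b) = 0 ∨ h (Sum.inl b) = 1) →
    (∃ a : P, h (Sum.inl a) = 1) → (∃ b : P, h (Sum.inl b) = 0) → c ≤ h ⬝ᵥ (Q *ᵥ h)

variable {c : ℝ} {Q : Matrix (P ⊕ I) (P ⊕ I) ℝ}

/-- Schur complement -/
noncomputable def schur (Q : Matrix (P ⊕ I) (P ⊕ I) ℝ) : Matrix P P ℝ :=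
  Q.toBlocks₁₁ - Q.toBlocks₁₂ * Q.toBlocks₂₂⁻¹ * Q.toBlocks₁₂ᵀ

lemma IsBd.blocks (hQ : IsBd c Q) :
    Q = Matrix.fromBlocks Q.toBlocks₁₁ Q.toBlocks₁₂ Q.toBlocks₁₂ᵀ Q.toBlocks₂₂ := by
  have h1 : Q.toBlocks₂₁ = Q.toBlocks₁₂ᵀ := by
    ext i j
    have := congrFun (congrFun hQ.symm (Sum.inr i)) (Sum.inl j)
    simpa [Matrix.toBlocks₂₁, Matrix.toBlocks₁₂] using this.symm
  rw [← h1, Matrix.fromBlocks_toBlocks]

lemma IsBd.herm22 (hQ : IsBd c Q) : Q.toBlocks₂₂.IsHermitian := by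
  ext i j
  have := congrFun (congrFun hQ.symm (Sum.inr i)) (Sum.inr j)
  simpa [Matrix.toBlocks₂₂] using this

lemma IsBd.pos22 (hQ : IsBd c Q) [Nonempty P] : Q.toBlocks₂₂.PosDef := by
  apply Matrix.PosDef.of_dotProduct_mulVec_pos hQ.herm22
  intro x hx
  rw [star_trivial]
  have hq : x ⬝ᵥ (Q.toBlocks₂₂ *ᵥ x)
      = (Sum.elim (0 : P → ℝ) x) ⬝ᵥ (Q *ᵥ (Sum.elim (0 : P → ℝ) x)) := by
    conv_rhs => rw [hQ.blocks]
    rw [Matrix.fromBlocks_mulVec]
    simp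
  rw [hq]
  refine lt_of_le_of_ne (quad_nonneg Q hQ.symm hQ.row hQ.off _) (fun h0 => hx ?_)
  have := hQ.ker _ h0.symm
  funext i
  obtain ⟨p⟩ := ‹Nonempty P›
  have h1 := this (Sum.inr i) (Sum.inl p)
  simpa using h1

lemma IsBd.isUnit22 (hQ : IsBd c Q) [Nonempty P] : IsUnit Q.toBlocks₂₂.det :=
  (Matrix.isUnit_iff_isUnit_det _).1 hQ.pos22.isUnit

/-- completing the square -/
lemma IsBd.square (hQ : IsBd c Q) [Nonempty P] (g : P → ℝ) (y : I → ℝ) :
    (Sum.elim g y) ⬝ᵥ (Q *ᵥ (Sum.elim g y))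
      = ((Q.toBlocks₂₂⁻¹ * Q.toBlocks₁₂ᵀ) *ᵥ g + y) ⬝ᵥ
          (Q.toBlocks₂₂ *ᵥ ((Q.toBlocks₂₂⁻¹ * Q.toBlocks₁₂ᵀ) *ᵥ g + y))
        + g ⬝ᵥ (schur Q *ᵥ g) := by
  have := hQ.isUnit22
  let _ : Invertible Q.toBlocks₂₂ := Matrix.invertibleOfIsUnitDet _ this
  have h := Matrix.schur_complement_eq₂₂ Q.toBlocks₁₁ Q.toBlocks₁₂ g y hQ.herm22
  simp only [star_trivial, Matrix.conjTranspose_eq_transpose_of_trivial] at h
  rw [← hQ.blocks] at h
  rw [Matrix.dotProduct_mulVec, h, schur, Matrix.dotProduct_mulVec, Matrix.dotProduct_mulVec]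

lemma IsBd.schur_le (hQ : IsBd c Q) [Nonempty P] (g : P → ℝ) (y : I → ℝ) :
    g ⬝ᵥ (schur Q *ᵥ g) ≤ (Sum.elim g y) ⬝ᵥ (Q *ᵥ (Sum.elim g y)) := by
  rw [hQ.square]
  have := hQ.pos22.posSemidef.dotProduct_mulVec_nonneg
    ((Q.toBlocks₂₂⁻¹ * Q.toBlocks₁₂ᵀ) *ᵥ g + y)
  rw [star_trivial] at this
  linarith

lemma IsBd.schur_eq (hQ : IsBd c Q) [Nonempty P] (g : P → ℝ) :
    ∃ y : I → ℝ, g ⬝ᵥ (schur Q *ᵥ g) = (Sum.elim g y) ⬝ᵥ (Q *ᵥ (Sum.elim g y)) := by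
  refine ⟨-((Q.toBlocks₂₂⁻¹ * Q.toBlocks₁₂ᵀ) *ᵥ g), ?_⟩
  rw [hQ.square]
  simp

lemma IsBd.schur_symm (hQ : IsBd c Q) [Nonempty P] : (schur Q)ᵀ = schur Q := by
  have h1 : Q.toBlocks₁₁ᵀ = Q.toBlocks₁₁ := by
    ext i j
    have := congrFun (congrFun hQ.symm (Sum.inl i)) (Sum.inl j)
    simpa [Matrix.toBlocks₁₁] using this
  have h2 : Q.toBlocks₂₂ᵀ = Q.toBlocks₂₂ := by simpa using hQ.herm22.eq
  rw [schur, Matrix.transpose_sub, h1, Matrix.transpose_mul, Matrix.transpose_mul,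
    Matrix.transpose_transpose, Matrix.transpose_nonsing_inv, h2, Matrix.mul_assoc]

lemma IsBd.isNet (hQ : IsBd c Q) [Nonempty P] : IsNet c (schur Q) where
  symm := hQ.schur_symm
  off := by
    intro u v huv
    obtain ⟨y, hy⟩ := hQ.schur_eq (Pi.single u 1 - Pi.single v 1 : P → ℝ)
    have h1 := quad_abs_le Q hQ.symm hQ.row hQ.off
      (Sum.elim (Pi.single u 1 - Pi.single v 1 : P → ℝ) y)
    have h2 : (fun a => |Sum.elim (Pi.single u 1 - Pi.single v 1 : P → ℝ) y a|)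
        = Sum.elim (Pi.single u 1 + Pi.single v 1 : P → ℝ) (fun i => |y i|) := by
      funext a
      rcases a with a | a
      · simp only [Sum.elim_inl, Pi.sub_apply, Pi.add_apply]
        by_cases hau : a = u
        · subst hau; simp [huv]
        · by_cases hav : a = v
          · subst hav; simp [hau]
          · simp [hau, hav]
      · simp
    rw [h2, ← hy] at h1
    have h3 := hQ.schur_le (Pi.single u 1 + Pi.single v 1 : P → ℝ) (fun i => |y i|)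
    have h4 := h3.trans h1
    have hsy : schur Q v u = schur Q u v := by
      have := congrFun (congrFun hQ.schur_symm u) v
      simpa using this
    simp only [Matrix.mulVec_add, Matrix.mulVec_sub, add_dotProduct, sub_dotProduct,
      dotProduct_add, dotProduct_sub, single_dotProduct, Matrix.mulVec_single_one,
      Matrix.col_apply, one_mul] at h4
    linarith
  row := by
    have hr := hQ.row
    have h0 : (fun _ => (1:ℝ) : P ⊕ I → ℝ) = Sum.elim (fun _ => 1) (fun _ => 1) := by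
      funext a; rcases a with a | a <;> rfl
    rw [h0, hQ.blocks, Matrix.fromBlocks_mulVec] at hr
    have h1 : Q.toBlocks₁₁ *ᵥ (fun _ => 1) + Q.toBlocks₁₂ *ᵥ (fun _ => 1) = 0 := by
      funext i
      have := congrFun hr (Sum.inl i)
      simpa [Function.comp_def] using this
    have h2 : Q.toBlocks₁₂ᵀ *ᵥ (fun _ => 1) + Q.toBlocks₂₂ *ᵥ (fun _ => 1) = 0 := by
      funext i
      have := congrFun hr (Sum.inr i)
      simpa [Function.comp_def] using this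
    have h3 : Q.toBlocks₂₂⁻¹ *ᵥ (Q.toBlocks₁₂ᵀ *ᵥ (fun _ => (1:ℝ))) = -(fun _ => (1:ℝ)) := by
      have h4 : Q.toBlocks₁₂ᵀ *ᵥ (fun _ => (1:ℝ)) = - (Q.toBlocks₂₂ *ᵥ (fun _ => 1)) :=
        eq_neg_of_add_eq_zero_left h2
      rw [h4, Matrix.mulVec_neg, Matrix.mulVec_mulVec, Matrix.nonsing_inv_mul _ hQ.isUnit22,
        Matrix.one_mulVec]
    rw [schur, Matrix.sub_mulVec, ← Matrix.mulVec_mulVec, ← Matrix.mulVec_mulVec, h3,
      Matrix.mulVec_neg, sub_neg_eq_add]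
    exact h1
  cut := by
    intro g hg ⟨a, ha⟩ ⟨b, hb⟩
    obtain ⟨y, hy⟩ := hQ.schur_eq g
    rw [hy]
    exact hQ.cut _ (by simpa using hg) ⟨a, by simpa using ha⟩ ⟨b, by simpa using hb⟩

lemma IsBd.posDef (hQ : IsBd c Q) [Nonempty P] (D : P → ℝ) (hD : ∀ b, 0 ≤ D b)
    (hDs : 0 < ∑ b, D b) : (schur Q + Matrix.diagonal D).PosDef := by
  apply Matrix.PosDef.of_dotProduct_mulVec_pos
  · apply Matrix.IsHermitian.add
    · rw [Matrix.IsHermitian, Matrix.conjTranspose_eq_transpose_of_trivial]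
      exact hQ.schur_symm
    · exact Matrix.isHermitian_diagonal _
  · intro g hg
    rw [star_trivial, Matrix.add_mulVec, dotProduct_add]
    obtain ⟨y, hy⟩ := hQ.schur_eq g
    have h1 : 0 ≤ g ⬝ᵥ (schur Q *ᵥ g) := by
      rw [hy]; exact quad_nonneg Q hQ.symm hQ.row hQ.off _
    have h2 : g ⬝ᵥ (Matrix.diagonal D *ᵥ g) = ∑ b, D b * g b ^ 2 := by
      simp only [dotProduct, Matrix.mulVec_diagonal]
      exact Finset.sum_congr rfl fun b _ => by ring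
    have h3 : 0 ≤ ∑ b, D b * g b ^ 2 :=
      Finset.sum_nonneg fun b _ => mul_nonneg (hD b) (sq_nonneg _)
    rw [h2]
    by_contra hcon
    push Not at hcon
    have h4 : g ⬝ᵥ (schur Q *ᵥ g) = 0 := by linarith
    have h5 : ∑ b, D b * g b ^ 2 = 0 := by linarith
    have hk := hQ.ker _ (hy.symm.trans h4)
    obtain ⟨p⟩ := ‹Nonempty P›
    have hconst : ∀ b, g b = g p := by
      intro b
      simpa using hk (Sum.inl b) (Sum.inl p)
    have h6 : (∑ b, D b) * g p ^ 2 = 0 := by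
      rw [← h5, Finset.sum_mul]
      exact Finset.sum_congr rfl fun b _ => by rw [hconst b]
    have h7 : g p = 0 := by
      rcases mul_eq_zero.1 h6 with h | h
      · exact absurd h hDs.ne'
      · exact pow_eq_zero_iff (by norm_num) |>.1 h
    apply hg
    funext b
    rw [hconst b, h7]; rfl

/-- extension by zero of a weight on the boundary -/
def extD (D : P → ℝ) : P ⊕ I → ℝ := Sum.elim D (fun _ => 0)

lemma IsBd.det (hQ : IsBd c Q) [Nonempty P] (D : P → ℝ) :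
    (Q + Matrix.diagonal (extD D)).det
      = Q.toBlocks₂₂.det * (schur Q + Matrix.diagonal D).det := by
  let _ : Invertible Q.toBlocks₂₂ := Matrix.invertibleOfIsUnitDet _ hQ.isUnit22
  have h1 : Q + Matrix.diagonal (extD D) = Matrix.fromBlocks
      (Q.toBlocks₁₁ + Matrix.diagonal D) Q.toBlocks₁₂ Q.toBlocks₁₂ᵀ Q.toBlocks₂₂ := by
    conv_lhs => rw [hQ.blocks]
    ext i j
    rcases i with i | i <;> rcases j with j | j <;>
      simp [Matrix.fromBlocks, Matrix.diagonal, extD]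
  rw [h1, Matrix.det_fromBlocks₂₂, Matrix.invOf_eq_nonsing_inv, schur]
  congr 2
  abel

theorem IsBd.bound (hc : 0 < c) (hQ : IsBd c Q) [Nonempty P] (m : ℕ)
    (hm : Fintype.card P = m + 1) (D E : P → ℝ) (t : ℝ) (ht : 0 < t) (hD : ∀ b, 0 ≤ D b)
    (hE : ∀ b, 0 ≤ E b) (hDt : ∑ b, D b = t) (hE1 : ∑ b, E b = 1) :
    (Q + Matrix.diagonal (extD D)).det ≤
      (∏ j ∈ Finset.range m, 4 * (1 + 2 * t / (c * (j + 2)))) * t
        * (Q + Matrix.diagonal (extD E)).det := by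
  rw [hQ.det, hQ.det]
  have h := glue_bound c hc t ht m P hm (schur Q) D E hQ.isNet hD hE hDt hE1
    (hQ.posDef D hD (by rw [hDt]; exact ht)) (hQ.posDef E hE (by rw [hE1]; norm_num))
  have hp := hQ.pos22.det_pos
  calc Q.toBlocks₂₂.det * (schur Q + Matrix.diagonal D).det
      ≤ Q.toBlocks₂₂.det * ((∏ j ∈ Finset.range m, 4 * (1 + 2 * t / (c * (j + 2)))) * t
        * (schur Q + Matrix.diagonal E).det) := mul_le_mul_of_nonneg_left h hp.le
    _ = _ := by ring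

end trace

end Pool.Agent.helper36.IsingTrace
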