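import Mathlib
import Pool.Agent.helper36.IsingRes
import Pool.Agent.helper36.IsingTrace

open Finset Matrix

namespace Pool.Agent.helper36.IsingCut

open Pool.Agent.helper36.IsingDefs Pool.Agent.helper36.IsingTree
open Pool.Agent.helper36.IsingRes Pool.Agent.helper36.IsingTrace

variable {V : Type} [Fintype V] [DecidableEq V] (G : SimpleGraph V) [DecidableRel G.Adj]

/-- cut form of connectedness of `G[S]` -/
def Conn (S : Finset V) : Prop :=
  ∀ A : V → Prop, (∃ a ∈ S, A a) → (∃ b ∈ S, ¬ A b) → ∃ u ∈ S, ∃ v ∈ S, A u ∧ ¬ A v ∧ G.Adj u v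

/-- Laplacian of `G[S]` -/
noncomputable def lap (S : Finset V) : Matrix {v // v ∈ S} {v // v ∈ S} ℝ :=
  fun a b => if a = b then ((G.neighborFinset a ∩ S).card : ℝ)
    else if G.Adj (a : V) b then -1 else 0

lemma treeMat_apply (N : V → Finset V) (R : Finset V) (v w : V) :
    treeMat N R v w = if v ∈ R then (if w = v then 1 else 0)
      else ((N v).card : ℝ) * (if w = v then 1 else 0) - (if w ∈ N v then 1 else 0) := by
  unfold treeMat
  split_ifs with h1 h2 h3 h4 <;>
    simp_all [Finset.sum_apply, Pi.single_apply, Finset.sum_sub_distrib]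

lemma det_block (N' : V → Finset V) (R S : Finset V) (h : ∀ v, v ∉ S → v ∈ R) :
    (treeMat N' R).det
      = ((treeMat N' R).submatrix (Subtype.val : {v // v ∈ S} → V) Subtype.val).det := by
  classical
  rw [Matrix.twoBlockTriangular_det (treeMat N' R) (fun v => v ∈ S)]
  · have h2 : (toSquareBlockProp (treeMat N' R) fun v => ¬ v ∈ S) = 1 := by
      ext i j
      rw [toSquareBlockProp_def, Matrix.of_apply, treeMat_apply, if_pos (h i i.2)]
      by_cases hij : i = j
      · subst hij; simp
      · have : (i : V) ≠ j := fun h => hij (Subtype.ext h)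
        rw [Matrix.one_apply_ne hij]
        simp [this.symm]
    rw [h2, Matrix.det_one, mul_one]
    have hi : (Subtype.fintype fun v => v ∈ S) = Finset.Subtype.fintype S :=
      Subsingleton.elim _ _
    rw [hi]
    rfl
  · intro i hi j hj
    rw [treeMat_apply, if_pos (h i hi)]
    have : j ≠ i := by rintro rfl; exact hi hj
    simp [this]

lemma det_add_single {W : Type} [Fintype W] [DecidableEq W] (A : Matrix W W ℝ) (r : W) :
    (A + Matrix.diagonal (Pi.single r 1)).det
      = A.det + (A.updateRow r (Pi.single r 1)).det := by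
  have h1 : A + Matrix.diagonal (Pi.single r 1)
      = A.updateRow r (A r + Pi.single r 1) := by
    ext i j
    by_cases hi : i = r
    · subst hi
      rw [Matrix.updateRow_self, Matrix.add_apply, Pi.add_apply]
      congr 1
      by_cases hij : i = j
      · subst hij; simp
      · rw [Matrix.diagonal_apply_ne _ hij]; simp [Ne.symm hij]
    · rw [Matrix.updateRow_ne hi, Matrix.add_apply]
      by_cases hij : i = j
      · subst hij; simp [hi]
      · rw [Matrix.diagonal_apply_ne _ hij, add_zero]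
  rw [h1, Matrix.det_updateRow_add, Matrix.updateRow_eq_self]

variable (S : Finset V)

/-- number of neighbours outside `S` -/
noncomputable def outd (v : V) : ℝ := ((G.neighborFinset v \ S).card : ℝ)

lemma det_lap_out :
    ((trees (fun v => G.neighborFinset v) Sᶜ).card : ℝ)
      = (lap G S + Matrix.diagonal (fun w : {v // v ∈ S} => outd G S w)).det := by
  classical
  rw [← det_treeMat _ _ (by intro v _; simp), det_block _ Sᶜ S (by simp)]
  congr 1
  ext a b
  have ha : ¬ ((a : V) ∈ Sᶜ) := by simp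
  simp only [Matrix.submatrix_apply, treeMat_apply, if_neg ha, Matrix.add_apply]
  have hcard : ((G.neighborFinset (a : V)).card : ℝ)
      = ((G.neighborFinset (a : V) ∩ S).card : ℝ) + outd G S a := by
    unfold outd
    exact_mod_cast (Finset.card_inter_add_card_sdiff _ _).symm
  by_cases hab : a = b
  · subst hab
    simp only [lap, if_true, Matrix.diagonal_apply_eq, SimpleGraph.mem_neighborFinset,
      SimpleGraph.irrefl, if_false, sub_zero, mul_one, hcard]
  · have hab' : (b : V) ≠ a := fun h => hab (Subtype.ext h.symm)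
    simp only [lap, if_neg hab, Matrix.diagonal_apply_ne _ hab, if_neg hab', mul_zero,
      zero_sub, add_zero, SimpleGraph.mem_neighborFinset]
    split_ifs <;> simp

lemma det_lap_out_root (r : V) (hr : r ∈ S) :
    ((trees (fun v => G.neighborFinset v) (insert r Sᶜ)).card : ℝ)
      = ((lap G S + Matrix.diagonal (fun w : {v // v ∈ S} => outd G S w)).updateRow
          ⟨r, hr⟩ (Pi.single ⟨r, hr⟩ 1)).det := by
  classical
  rw [← det_treeMat _ _ (by intro v _; simp), det_block _ (insert r Sᶜ) S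
    (by intro v hv; simp [hv])]
  congr 1
  ext a b
  by_cases har : a = ⟨r, hr⟩
  · subst har
    rw [Matrix.updateRow_self]
    simp only [Matrix.submatrix_apply, treeMat_apply, Finset.mem_insert_self, if_true]
    by_cases hab : (⟨r, hr⟩ : {v // v ∈ S}) = b
    · subst hab; simp
    · have hab' : (b : V) ≠ r := fun h => hab (Subtype.ext h.symm)
      simp [hab', Ne.symm hab]
  · have har' : (a : V) ≠ r := fun h => har (Subtype.ext h)
    have ha : ¬ ((a : V) ∈ insert r Sᶜ) := by simp [har']
    rw [Matrix.updateRow_ne har]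
    simp only [Matrix.submatrix_apply, treeMat_apply, if_neg ha, Matrix.add_apply]
    have hcard : ((G.neighborFinset (a : V)).card : ℝ)
        = ((G.neighborFinset (a : V) ∩ S).card : ℝ) + outd G S a := by
      unfold outd
      exact_mod_cast (Finset.card_inter_add_card_sdiff _ _).symm
    by_cases hab : a = b
    · subst hab
      simp only [lap, if_true, Matrix.diagonal_apply_eq, SimpleGraph.mem_neighborFinset,
        SimpleGraph.irrefl, if_false, sub_zero, mul_one, hcard]
    · have hab' : (b : V) ≠ a := fun h => hab (Subtype.ext h.symm)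
      simp only [lap, if_neg hab, Matrix.diagonal_apply_ne _ hab, if_neg hab', mul_zero,
        zero_sub, add_zero, SimpleGraph.mem_neighborFinset]
      split_ifs <;> simp

lemma lap_row (a : {v // v ∈ S}) : ∑ b, lap G S a b = 0 := by
  classical
  rw [← Finset.add_sum_erase _ _ (Finset.mem_univ a)]
  have h1 : ∑ b ∈ Finset.univ.erase a, lap G S a b
      = ∑ b ∈ Finset.univ.erase a, (if G.Adj (a : V) b then (-1:ℝ) else 0) := by
    refine Finset.sum_congr rfl fun b hb => ?_
    have : a ≠ b := (Finset.mem_erase.1 hb).1.symm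
    simp [lap, this]
  have h2 : ∑ b ∈ Finset.univ.erase a, (if G.Adj (a : V) b then (-1:ℝ) else 0)
      = ∑ b : {v // v ∈ S}, (if G.Adj (a : V) b then (-1:ℝ) else 0) := by
    rw [← Finset.add_sum_erase _ _ (Finset.mem_univ a)]
    simp
  have h3 : ∑ b : {v // v ∈ S}, (if G.Adj (a : V) b then (-1:ℝ) else 0)
      = ∑ b ∈ S, (if G.Adj (a : V) b then (-1:ℝ) else 0) :=
    (Finset.sum_subtype S (by simp) (fun b => if G.Adj (a : V) b then (-1:ℝ) else 0)).symm
  have h4 : ∑ b ∈ S, (if G.Adj (a : V) b then (-1:ℝ) else 0)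
      = -((G.neighborFinset (a:V) ∩ S).card : ℝ) := by
    rw [← Finset.sum_filter, Finset.sum_const, nsmul_eq_mul, mul_neg_one]
    congr 2
    congr 1
    ext t
    simp [and_comm]
  rw [h1, h2, h3, h4]
  simp [lap]

lemma lap_symm : (lap G S)ᵀ = lap G S := by
  ext a b
  rw [Matrix.transpose_apply]
  unfold lap
  by_cases hab : a = b
  · subst hab; rfl
  · rw [if_neg hab, if_neg (Ne.symm hab)]
    by_cases h : G.Adj (a : V) b
    · rw [if_pos h, if_pos h.symm]
    · rw [if_neg h, if_neg (fun h' => h h'.symm)]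

lemma lap_off (a b : {v // v ∈ S}) (hab : a ≠ b) : lap G S a b ≤ 0 := by
  unfold lap
  rw [if_neg hab]
  split_ifs <;> norm_num

lemma lap_row' : lap G S *ᵥ (fun _ => 1) = 0 := by
  funext a
  have := lap_row G S a
  simpa [Matrix.mulVec, dotProduct] using this

lemma lap_det_zero (hS : S.Nonempty) : (lap G S).det = 0 := by
  classical
  rw [← Matrix.exists_mulVec_eq_zero_iff]
  refine ⟨fun _ => 1, ?_, lap_row' G S⟩
  obtain ⟨r, hr⟩ := hS
  intro h
  have := congrFun h ⟨r, hr⟩
  simp at this

lemma det_lap_root (r : V) (hr : r ∈ S) :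
    ((trees (fun v => G.neighborFinset v ∩ S) (insert r Sᶜ)).card : ℝ)
      = (lap G S + Matrix.diagonal (Pi.single (⟨r, hr⟩ : {v // v ∈ S}) (1:ℝ))).det := by
  classical
  rw [det_add_single, lap_det_zero G S ⟨r, hr⟩, zero_add]
  rw [← det_treeMat _ _ (by intro v _; simp), det_block _ (insert r Sᶜ) S
    (by intro v hv; simp [hv])]
  congr 1
  ext a b
  by_cases har : a = ⟨r, hr⟩
  · subst har
    rw [Matrix.updateRow_self]
    simp only [Matrix.submatrix_apply, treeMat_apply, Finset.mem_insert_self, if_true]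
    by_cases hab : (⟨r, hr⟩ : {v // v ∈ S}) = b
    · subst hab; simp
    · have hab' : (b : V) ≠ r := fun h => hab (Subtype.ext h.symm)
      simp [hab', Ne.symm hab]
  · have har' : (a : V) ≠ r := fun h => har (Subtype.ext h)
    have ha : ¬ ((a : V) ∈ insert r Sᶜ) := by simp [har']
    rw [Matrix.updateRow_ne har]
    simp only [Matrix.submatrix_apply, treeMat_apply, if_neg ha]
    by_cases hab : a = b
    · subst hab
      simp [lap]
    · have hab' : (b : V) ≠ a := fun h => hab (Subtype.ext h.symm)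
      simp only [lap, if_neg hab, if_neg hab', mul_zero,
        zero_sub, Finset.mem_inter, SimpleGraph.mem_neighborFinset, b.2, and_true]
      split_ifs <;> simp

lemma lap_quad (h : {v // v ∈ S} → ℝ) :
    h ⬝ᵥ (lap G S *ᵥ h)
      = (∑ a : {v // v ∈ S}, ∑ b : {v // v ∈ S},
          (if G.Adj (a : V) b then (h a - h b) ^ 2 else 0)) / 2 := by
  rw [quad_eq (lap G S) (lap_symm G S) (lap_row' G S)]
  congr 1
  refine Finset.sum_congr rfl fun a _ => Finset.sum_congr rfl fun b _ => ?_
  by_cases hab : a = b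
  · subst hab; simp
  · simp only [lap, if_neg hab]
    split_ifs <;> simp

lemma quad_ge_term (h : {v // v ∈ S} → ℝ) (u v : {v // v ∈ S}) (huv : G.Adj (u : V) v) :
    (h u - h v) ^ 2 / 2 ≤ h ⬝ᵥ (lap G S *ᵥ h) := by
  rw [lap_quad]
  apply div_le_div_of_nonneg_right _ (by norm_num)
  have h1 : ∀ a b : {v // v ∈ S}, 0 ≤ (if G.Adj (a : V) b then (h a - h b) ^ 2 else 0) := by
    intro a b; split_ifs
    · exact sq_nonneg _
    · exact le_rfl
  calc (h u - h v) ^ 2 = (if G.Adj (u : V) v then (h u - h v) ^ 2 else 0) := by rw [if_pos huv]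
    _ ≤ ∑ b : {v // v ∈ S}, (if G.Adj (u : V) b then (h u - h b) ^ 2 else 0) :=
        Finset.single_le_sum (f := fun b : {v // v ∈ S} =>
          (if G.Adj (u : V) b then (h u - h b) ^ 2 else 0)) (fun b _ => h1 u b) (Finset.mem_univ v)
    _ ≤ _ := Finset.single_le_sum (f := fun a : {v // v ∈ S} =>
          ∑ b : {v // v ∈ S}, (if G.Adj (a : V) b then (h a - h b) ^ 2 else 0))
          (fun a _ => Finset.sum_nonneg fun b _ => h1 a b) (Finset.mem_univ u)

lemma lap_ker (hS : Conn G S) (h : {v // v ∈ S} → ℝ) (h0 : h ⬝ᵥ (lap G S *ᵥ h) = 0)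
    (a b : {v // v ∈ S}) : h a = h b := by
  by_contra hne
  obtain ⟨u, hu, v, hv, ⟨hu', hAu⟩, hAv, huv⟩ := hS (fun v => ∃ hv : v ∈ S, h ⟨v, hv⟩ = h a)
    ⟨a, a.2, a.2, rfl⟩ ⟨b, b.2, fun ⟨_, h'⟩ => hne h'.symm⟩
  have h1 := quad_ge_term G S h ⟨u, hu⟩ ⟨v, hv⟩ huv
  rw [h0] at h1
  have h2 : (h ⟨u, hu⟩ - h ⟨v, hv⟩) ^ 2 = 0 := by
    have := sq_nonneg (h ⟨u, hu⟩ - h ⟨v, hv⟩)
    linarith
  have h3 : h ⟨u, hu⟩ - h ⟨v, hv⟩ = 0 := pow_eq_zero_iff (by norm_num) |>.1 h2
  apply hAv
  exact ⟨hv, by rw [← hAu]; linarith⟩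

/-- bump function -/
noncomputable def bump (t : ℝ) : ℝ := max (min (3 / 2 - 3 * |t - 1 / 2|) 1) 0

lemma bump_lip (s t : ℝ) : (bump s - bump t) ^ 2 ≤ 9 * (s - t) ^ 2 := by
  have h1 : |bump s - bump t| ≤ 3 * |s - t| := by
    unfold bump
    refine (abs_max_sub_max_le_abs _ _ _).trans ?_
    refine (abs_min_sub_min_le_max _ _ _ _).trans ?_
    rw [sub_self, abs_zero, max_eq_left (abs_nonneg _)]
    have h2 : 3 / 2 - 3 * |s - 1 / 2| - (3 / 2 - 3 * |t - 1 / 2|)
        = 3 * (|t - 1 / 2| - |s - 1 / 2|) := by ring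
    rw [h2, abs_mul, abs_of_pos (by norm_num : (0:ℝ) < 3)]
    apply mul_le_mul_of_nonneg_left _ (by norm_num)
    refine (abs_abs_sub_abs_le _ _).trans ?_
    rw [abs_sub_comm]
    apply le_of_eq
    congr 1
    ring
  have h2 := sq_le_sq' (by have := abs_nonneg (bump s - bump t); have := abs_nonneg (s - t); linarith) h1
  rw [sq_abs, mul_pow, sq_abs] at h2
  linarith

lemma bump_zero : bump 0 = 0 := by
  unfold bump
  have : |(0:ℝ) - 1 / 2| = 1 / 2 := by rw [zero_sub, abs_neg, abs_of_pos (by norm_num)]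
  rw [this]; norm_num

lemma bump_one : bump 1 = 0 := by
  unfold bump
  have : |(1:ℝ) - 1 / 2| = 1 / 2 := by rw [abs_of_pos (by norm_num)]; norm_num
  rw [this]; norm_num

lemma bump_mid (t : ℝ) (h1 : 1 / 3 ≤ t) (h2 : t ≤ 2 / 3) : bump t = 1 := by
  unfold bump
  have : |t - 1 / 2| ≤ 1 / 6 := by rw [abs_le]; constructor <;> linarith
  rw [min_eq_right (by linarith)]
  norm_num

/-- boundary vertices together with the root -/
def bdry (r : V) (w : {v // v ∈ S}) : Prop := (w : V) = r ∨ ∃ t, t ∉ S ∧ G.Adj (w : V) t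

lemma lap_cut (M : ℝ) (hM : 1 ≤ M)
    (hD : ∀ (i j : V) (f : V → ℝ), (f i - f j) ^ 2 ≤ M * energy G f)
    (hS : Conn G S) (r : V) (h : {v // v ∈ S} → ℝ)
    (h01 : ∀ w, bdry G S r w → h w = 0 ∨ h w = 1) (ha : ∃ a, bdry G S r a ∧ h a = 1)
    (hb : ∃ b, bdry G S r b ∧ h b = 0) :
    1 / (18 * M) ≤ h ⬝ᵥ (lap G S *ᵥ h) := by
  classical
  obtain ⟨a, hpa, ha1⟩ := ha
  obtain ⟨b, hpb, hb0⟩ := hb
  by_cases hz : ∃ z, 1 / 3 ≤ h z ∧ h z ≤ 2 / 3
  · obtain ⟨z, hz1, hz2⟩ := hz
    set g : V → ℝ := fun v => if hv : v ∈ S then bump (h ⟨v, hv⟩) else 0 with hg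
    have hgz : g z = 1 := by
      simp only [hg, z.2, dif_pos]
      exact bump_mid _ hz1 hz2
    have hgb : g b = 0 := by
      simp only [hg, b.2, dif_pos]
      change bump (h b) = 0
      rw [hb0, bump_zero]
    have h1 := hD z b g
    rw [hgz, hgb] at h1
    have hE : energy G g ≤ 9 * (h ⬝ᵥ (lap G S *ᵥ h)) := by
      rw [lap_quad]
      unfold energy
      have h2 : ∑ v, ∑ t ∈ G.neighborFinset v, (g v - g t) ^ 2
          ≤ 9 * ∑ a : {v // v ∈ S}, ∑ b : {v // v ∈ S},
            (if G.Adj (a : V) b then (h a - h b) ^ 2 else 0) := by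
        have h3 : ∑ v, ∑ t ∈ G.neighborFinset v, (g v - g t) ^ 2
            = ∑ v, ∑ t, (if G.Adj v t then (g v - g t) ^ 2 else 0) := by
          refine Finset.sum_congr rfl fun v _ => ?_
          rw [← Finset.sum_filter]
          apply Finset.sum_congr _ (fun _ _ => rfl)
          ext t; simp
        have hout : ∀ v t, v ∈ S → t ∉ S → G.Adj v t → g v = 0 := by
          intro v t hv ht hvt
          simp only [hg, hv, dif_pos]
          rcases h01 ⟨v, hv⟩ (Or.inr ⟨t, ht, hvt⟩) with h0 | h0
          · rw [h0, bump_zero]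
          · rw [h0, bump_one]
        have hnot : ∀ v, v ∉ S → g v = 0 := by
          intro v hv; simp only [hg, hv, dif_neg, not_false_eq_true]
        have hF1 : ∀ v t, v ∉ S → (if G.Adj v t then (g v - g t) ^ 2 else 0) = 0 := by
          intro v t hv
          split_ifs with hvt
          · by_cases ht : t ∈ S
            · rw [hnot v hv, hout t v ht hv hvt.symm]; simp
            · rw [hnot v hv, hnot t ht]; simp
          · rfl
        have hF2 : ∀ v t, t ∉ S → (if G.Adj v t then (g v - g t) ^ 2 else 0) = 0 := by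
          intro v t ht
          split_ifs with hvt
          · by_cases hv : v ∈ S
            · rw [hnot t ht, hout v t hv ht hvt]; simp
            · rw [hnot v hv, hnot t ht]; simp
          · rfl
        have h4 : ∑ v, ∑ t, (if G.Adj v t then (g v - g t) ^ 2 else 0)
            = ∑ v ∈ S, ∑ t ∈ S, (if G.Adj v t then (g v - g t) ^ 2 else 0) := by
          symm
          rw [Finset.sum_subset (Finset.subset_univ S)]
          · refine Finset.sum_congr rfl fun v _ => ?_
            exact Finset.sum_subset (Finset.subset_univ S) fun t _ ht => hF2 v t ht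
          · intro v _ hv
            exact Finset.sum_eq_zero fun t _ => hF1 v t hv
        rw [h3, h4, ← Finset.sum_coe_sort S, Finset.mul_sum]
        apply Finset.sum_le_sum
        intro a _
        rw [← Finset.sum_coe_sort S, Finset.mul_sum]
        apply Finset.sum_le_sum
        intro b _
        split_ifs with hab
        · have e1 : g a = bump (h a) := by simp only [hg, a.2, dif_pos]
          have e2 : g b = bump (h b) := by simp only [hg, b.2, dif_pos]
          rw [e1, e2]
          exact bump_lip _ _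
        · simp
      linarith
    have hMpos : 0 < M := by linarith
    rw [div_le_iff₀ (by positivity)]
    nlinarith
  · push Not at hz
    obtain ⟨u, hu, v, hv, ⟨hu', hAu⟩, hAv, huv⟩ := hS (fun v => ∃ hv : v ∈ S, 2 / 3 < h ⟨v, hv⟩)
      ⟨a, a.2, a.2, by change 2 / 3 < h a; rw [ha1]; norm_num⟩
      ⟨b, b.2, fun ⟨_, h'⟩ => by
        have h'' : 2 / 3 < h b := h'
        rw [hb0] at h''; norm_num at h''⟩
    have h1 := quad_ge_term G S h ⟨u, hu⟩ ⟨v, hv⟩ huv
    have h2 : h ⟨v, hv⟩ ≤ 2 / 3 := by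
      by_contra hcon
      exact hAv ⟨hv, lt_of_not_ge hcon⟩
    have h3 : h ⟨v, hv⟩ < 1 / 3 := by
      by_contra hcon
      have := hz ⟨v, hv⟩ (le_of_not_gt hcon)
      linarith
    have h4 : 1 / 9 ≤ (h ⟨u, hu⟩ - h ⟨v, hv⟩) ^ 2 := by nlinarith
    have hMpos : 0 < M := by linarith
    have h5 : 1 / (18 * M) ≤ 1 / 18 := by
      apply one_div_le_one_div_of_le (by norm_num)
      linarith
    linarith

end Pool.Agent.helper36.IsingCut
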