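import Mathlib
import Pool.Agent.helper36.IsingCut

open Finset Matrix

namespace Pool.Agent.helper36.IsingKey

open Pool.Agent.helper36.IsingDefs Pool.Agent.helper36.IsingTree
open Pool.Agent.helper36.IsingRes Pool.Agent.helper36.IsingTrace Pool.Agent.helper36.IsingCut

variable {V : Type} [Fintype V] [DecidableEq V] (G : SimpleGraph V) [DecidableRel G.Adj]
variable (S : Finset V)

/-- number of edges leaving `S` (as oriented pairs from inside to outside) -/
def bsize : ℕ := ∑ v ∈ S, (G.neighborFinset v \ S).card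

lemma sum_outd : ∑ w : {v // v ∈ S}, outd G S w = bsize G S := by
  unfold bsize outd
  rw [Finset.sum_coe_sort S (fun w => ((G.neighborFinset w \ S).card : ℝ))]
  push_cast
  rfl

open Classical in
lemma card_bdry (r : V) :
    Fintype.card {w : {v // v ∈ S} // bdry G S r w} ≤ bsize G S + 1 := by
  rw [Fintype.card_subtype]
  have h1 : (Finset.univ.filter (fun w : {v // v ∈ S} => bdry G S r w)).card
      ≤ (Finset.univ.filter (fun w : {v // v ∈ S} => (w : V) = r)).card
        + (Finset.univ.filter (fun w : {v // v ∈ S} => ∃ t, t ∉ S ∧ G.Adj (w : V) t)).card := by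
    refine le_trans (Finset.card_le_card ?_) (Finset.card_union_le _ _)
    intro w hw
    rw [Finset.mem_filter] at hw
    rw [Finset.mem_union, Finset.mem_filter, Finset.mem_filter]
    rcases hw.2 with h | h
    · exact Or.inl ⟨Finset.mem_univ _, h⟩
    · exact Or.inr ⟨Finset.mem_univ _, h⟩
  have h2 : (Finset.univ.filter (fun w : {v // v ∈ S} => (w : V) = r)).card ≤ 1 := by
    rw [Finset.card_le_one]
    intro a ha b hb
    rw [Finset.mem_filter] at ha hb
    exact Subtype.ext (ha.2.trans hb.2.symm)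
  have h3 : (Finset.univ.filter (fun w : {v // v ∈ S} => ∃ t, t ∉ S ∧ G.Adj (w : V) t)).card
      ≤ bsize G S := by
    rw [Finset.card_eq_sum_ones]
    calc ∑ w ∈ Finset.univ.filter (fun w : {v // v ∈ S} => ∃ t, t ∉ S ∧ G.Adj (w : V) t), 1
        ≤ ∑ w ∈ Finset.univ.filter (fun w : {v // v ∈ S} => ∃ t, t ∉ S ∧ G.Adj (w : V) t),
          (G.neighborFinset (w : V) \ S).card := by
          apply Finset.sum_le_sum
          intro w hw
          rw [Finset.mem_filter] at hw
          obtain ⟨_, t, ht, hwt⟩ := hw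
          exact Finset.card_pos.2 ⟨t, by simp [ht, hwt]⟩
      _ ≤ ∑ w : {v // v ∈ S}, (G.neighborFinset (w : V) \ S).card :=
          Finset.sum_le_sum_of_subset (Finset.filter_subset _ _)
      _ = bsize G S := by
          rw [Finset.sum_coe_sort S (fun w => (G.neighborFinset w \ S).card)]
          rfl
  omega

open Classical in
theorem cut_bound (M : ℝ) (hM : 1 ≤ M)
    (hD : ∀ (i j : V) (f : V → ℝ), (f i - f j) ^ 2 ≤ M * energy G f)
    (hS : Conn G S) (r : V) (hr : r ∈ S) :
    ∃ m : ℕ, m ≤ bsize G S ∧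
    (lap G S + Matrix.diagonal (fun w : {v // v ∈ S} => outd G S w)
      + Matrix.diagonal (Pi.single (⟨r, hr⟩ : {v // v ∈ S}) (1:ℝ))).det ≤
      (∏ j ∈ Finset.range m, 4 * (1 + 2 * ((bsize G S : ℝ) + 1) / (1 / (18 * M) * (j + 2))))
        * ((bsize G S : ℝ) + 1)
        * (lap G S + Matrix.diagonal (Pi.single (⟨r, hr⟩ : {v // v ∈ S}) (1:ℝ))).det := by
  set p : {v // v ∈ S} → Prop := bdry G S r with hp
  set e : {w // p w} ⊕ {w // ¬ p w} ≃ {v // v ∈ S} := Equiv.sumCompl p with he
  set Q := (lap G S).submatrix e e with hQdef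
  set c : ℝ := 1 / (18 * M) with hc
  have hcpos : 0 < c := by rw [hc]; positivity
  have hquad : ∀ h : {w // p w} ⊕ {w // ¬ p w} → ℝ,
      h ⬝ᵥ (Q *ᵥ h) = (h ∘ e.symm) ⬝ᵥ (lap G S *ᵥ (h ∘ e.symm)) := by
    intro h
    rw [hQdef, Matrix.submatrix_mulVec_equiv]
    rw [← comp_equiv_dotProduct_comp_equiv _ _ e]
    congr 1
    funext a
    simp
  have hrp : p ⟨r, hr⟩ := Or.inl rfl
  have hne : Nonempty {w // p w} := ⟨⟨⟨r, hr⟩, hrp⟩⟩
  have hQ : IsBd c Q := by
    refine ⟨?_, ?_, ?_, ?_, ?_⟩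
    · rw [hQdef, Matrix.transpose_submatrix, lap_symm]
    · intro a b hab
      exact lap_off G S _ _ (fun h => hab (e.injective h))
    · rw [hQdef, Matrix.submatrix_mulVec_equiv]
      have : ((fun _ => (1:ℝ)) ∘ e.symm : {v // v ∈ S} → ℝ) = fun _ => 1 := rfl
      rw [this, lap_row']
      rfl
    · intro h h0 a b
      rw [hquad] at h0
      have := lap_ker G S hS (h ∘ e.symm) h0 (e a) (e b)
      simpa using this
    · intro h h01 ⟨a, ha⟩ ⟨b, hb⟩
      rw [hquad]
      apply lap_cut G S M hM hD hS r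
      · intro w hw
        have hsymm : e.symm w = Sum.inl ⟨w, hw⟩ := by
          rw [Equiv.symm_apply_eq]; rfl
        simp only [Function.comp, hsymm]
        exact h01 _
      · refine ⟨a, a.2, ?_⟩
        have hsymm : e.symm (a : {v // v ∈ S}) = Sum.inl a := by
          rw [Equiv.symm_apply_eq]; rfl
        simp only [Function.comp, hsymm]
        exact ha
      · refine ⟨b, b.2, ?_⟩
        have hsymm : e.symm (b : {v // v ∈ S}) = Sum.inl b := by
          rw [Equiv.symm_apply_eq]; rfl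
        simp only [Function.comp, hsymm]
        exact hb
  have htr : ∀ F : {v // v ∈ S} → ℝ, (∀ w, ¬ p w → F w = 0) →
      (Q + Matrix.diagonal (extD (fun w : {w // p w} => F w))).det
        = (lap G S + Matrix.diagonal F).det := by
    intro F hF
    rw [← Matrix.det_submatrix_equiv_self e (lap G S + Matrix.diagonal F)]
    congr 1
    rw [Matrix.submatrix_add, hQdef]
    congr 1
    rw [Matrix.submatrix_diagonal_equiv]
    congr 1
    funext a
    rcases a with a | a
    · rfl
    · simp only [extD, Sum.elim_inr, Function.comp]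
      exact (hF _ a.2).symm
  have hsumP : ∀ F : {v // v ∈ S} → ℝ, (∀ w, ¬ p w → F w = 0) →
      ∑ w : {w // p w}, F w = ∑ w, F w := by
    intro F hF
    rw [← Equiv.sum_comp e F, Fintype.sum_sum_type]
    have : ∑ a : {w // ¬ p w}, F (e (Sum.inr a)) = 0 :=
      Finset.sum_eq_zero fun a _ => hF _ a.2
    rw [this, add_zero]
    rfl
  obtain ⟨m, hm⟩ : ∃ m, Fintype.card {w // p w} = m + 1 :=
    ⟨Fintype.card {w // p w} - 1, by have := Fintype.card_pos_iff.2 hne; omega⟩
  have hcard := card_bdry G S r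
  refine ⟨m, by rw [← hp] at hcard; omega, ?_⟩
  set F : {v // v ∈ S} → ℝ := fun w =>
    outd G S w + (Pi.single (⟨r, hr⟩ : {v // v ∈ S}) (1:ℝ) : {v // v ∈ S} → ℝ) w with hF
  have hF0 : ∀ w, ¬ p w → F w = 0 := by
    intro w hw
    have h1 : w ≠ ⟨r, hr⟩ := by rintro rfl; exact hw hrp
    have h2 : outd G S w = 0 := by
      unfold outd
      rw [Nat.cast_eq_zero, Finset.card_eq_zero, Finset.eq_empty_iff_forall_notMem]
      intro t ht
      rw [Finset.mem_sdiff, SimpleGraph.mem_neighborFinset] at ht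
      exact hw (Or.inr ⟨t, ht.2, ht.1⟩)
    simp [hF, h1, h2]
  have hE0 : ∀ w, ¬ p w →
      (Pi.single (⟨r, hr⟩ : {v // v ∈ S}) (1:ℝ) : {v // v ∈ S} → ℝ) w = 0 := by
    intro w hw
    have h1 : w ≠ ⟨r, hr⟩ := by rintro rfl; exact hw hrp
    simp [h1]
  have hsingle_nn : ∀ w : {v // v ∈ S},
      (0:ℝ) ≤ (Pi.single (⟨r, hr⟩ : {v // v ∈ S}) (1:ℝ) : {v // v ∈ S} → ℝ) w := by
    intro w
    rw [Pi.single_apply]; split_ifs <;> norm_num
  have ht : (0:ℝ) < (bsize G S : ℝ) + 1 := by positivity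
  have key := hQ.bound hcpos m hm (fun w : {w // p w} => F w)
    (fun w : {w // p w} => (Pi.single (⟨r, hr⟩ : {v // v ∈ S}) (1:ℝ) : {v // v ∈ S} → ℝ) w)
    ((bsize G S : ℝ) + 1) ht
    (fun w => add_nonneg (Nat.cast_nonneg _) (hsingle_nn _)) (fun w => hsingle_nn _)
    (by
      rw [hsumP F hF0]
      simp only [hF]
      rw [Finset.sum_add_distrib, sum_outd]
      simp)
    (by
      rw [hsumP _ hE0]
      simp)
  rw [htr F hF0, htr _ hE0] at key
  have hFdiag : lap G S + Matrix.diagonal F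
      = lap G S + Matrix.diagonal (fun w : {v // v ∈ S} => outd G S w)
        + Matrix.diagonal (Pi.single (⟨r, hr⟩ : {v // v ∈ S}) (1:ℝ)) := by
    rw [add_assoc, Matrix.diagonal_add]
  rw [hFdiag] at key
  exact key

/-- the base of the exponential bound -/
noncomputable def kap (M : ℝ) : ℝ := 8 * Real.exp (1 + 36 * M)

lemma kap_ge (M : ℝ) (hM : 1 ≤ M) : 1 ≤ kap M := by
  unfold kap
  have : 1 ≤ Real.exp (1 + 36 * M) := Real.one_le_exp (by linarith)
  linarith

lemma prod_bound (n m : ℕ) (hmn : m ≤ n) (M : ℝ) (hM : 1 ≤ M) :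
    (∏ j ∈ Finset.range m, 4 * (1 + 2 * ((n : ℝ) + 1) / (1 / (18 * M) * (j + 2))))
        * ((n : ℝ) + 1) ≤ kap M ^ (n + 1) := by
  set X : ℝ := 36 * M * (n + 1) with hX
  have hX0 : 0 ≤ X := by rw [hX]; positivity
  have h1 : ∀ j : ℕ, 4 * (1 + 2 * ((n : ℝ) + 1) / (1 / (18 * M) * (j + 2)))
      = 4 * (((j : ℝ) + 2 + X) / (j + 2)) := by
    intro j
    have hj : (0:ℝ) < (j : ℝ) + 2 := by positivity
    rw [hX]
    field_simp
    ring
  rw [Finset.prod_congr rfl (fun j _ => h1 j)]
  have h2 : ∏ j ∈ Finset.range m, 4 * (((j : ℝ) + 2 + X) / (j + 2))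
      ≤ ∏ j ∈ Finset.range n, 4 * (((j : ℝ) + 2 + X) / (j + 2)) := by
    apply Finset.prod_le_prod_of_subset_of_one_le (Finset.range_mono hmn)
    · intro j _; positivity
    · intro j _ _
      have hj : (0:ℝ) < (j : ℝ) + 2 := by positivity
      have : 1 ≤ ((j : ℝ) + 2 + X) / (j + 2) := by
        rw [le_div_iff₀ hj]; linarith
      linarith
  have h3 : ∏ j ∈ Finset.range n, 4 * (((j : ℝ) + 2 + X) / (j + 2))
      ≤ 4 ^ n * Real.exp ((n + 1) * (1 + 36 * M)) := by
    rw [Finset.prod_mul_distrib, Finset.prod_const, Finset.card_range]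
    apply mul_le_mul_of_nonneg_left _ (by positivity)
    rw [Finset.prod_div_distrib]
    have hfac : ∏ j ∈ Finset.range n, ((j : ℝ) + 2) = ((n + 1).factorial : ℝ) := by
      clear h2 h1 hX0 hX X hmn
      induction n with
      | zero => simp
      | succ k ih =>
        rw [Finset.prod_range_succ, ih, Nat.factorial_succ (k + 1)]
        push_cast
        ring
    rw [hfac]
    have hnum : ∏ j ∈ Finset.range n, ((j : ℝ) + 2 + X) ≤ ((n : ℝ) + 1 + X) ^ (n + 1) := by
      have h4 : ∏ j ∈ Finset.range n, ((j : ℝ) + 2 + X) ≤ ((n : ℝ) + 1 + X) ^ n := by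
        calc ∏ j ∈ Finset.range n, ((j : ℝ) + 2 + X)
            ≤ ∏ j ∈ Finset.range n, ((n : ℝ) + 1 + X) := by
              apply Finset.prod_le_prod
              · intro j _; positivity
              · intro j hj
                have : (j : ℝ) + 1 ≤ n := by exact_mod_cast Finset.mem_range.1 hj
                linarith
          _ = _ := by rw [Finset.prod_const, Finset.card_range]
      refine h4.trans ?_
      apply pow_le_pow_right₀ _ (Nat.le_succ n)
      have : (0:ℝ) ≤ n := Nat.cast_nonneg n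
      linarith
    calc (∏ j ∈ Finset.range n, ((j : ℝ) + 2 + X)) / ((n + 1).factorial : ℝ)
        ≤ ((n : ℝ) + 1 + X) ^ (n + 1) / ((n + 1).factorial : ℝ) :=
          div_le_div_of_nonneg_right hnum (by positivity)
      _ ≤ Real.exp ((n : ℝ) + 1 + X) := Real.pow_div_factorial_le_exp _ (by positivity) _
      _ = Real.exp ((n + 1) * (1 + 36 * M)) := by
          congr 1; rw [hX]; ring
  have h5 : (n : ℝ) + 1 ≤ 2 ^ n := by
    have := Nat.lt_two_pow_self (n := n)
    exact_mod_cast this
  calc (∏ j ∈ Finset.range m, 4 * (((j : ℝ) + 2 + X) / (j + 2))) * ((n : ℝ) + 1)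
      ≤ (4 ^ n * Real.exp ((n + 1) * (1 + 36 * M))) * 2 ^ n := by
        apply mul_le_mul (h2.trans h3) h5 (by positivity) (by positivity)
    _ = 8 ^ n * Real.exp ((n + 1) * (1 + 36 * M)) := by
        have : (8:ℝ) ^ n = 4 ^ n * 2 ^ n := by rw [← mul_pow]; norm_num
        rw [this]; ring
    _ ≤ 8 ^ (n + 1) * Real.exp ((n + 1) * (1 + 36 * M)) := by
        apply mul_le_mul_of_nonneg_right _ (Real.exp_pos _).le
        exact pow_le_pow_right₀ (by norm_num) (Nat.le_succ n)
    _ = kap M ^ (n + 1) := by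
        unfold kap
        rw [mul_pow, ← Real.exp_nat_mul]
        push_cast
        ring_nf

theorem part_bound (M : ℝ) (hM : 1 ≤ M)
    (hD : ∀ (i j : V) (f : V → ℝ), (f i - f j) ^ 2 ≤ M * energy G f)
    (hS : Conn G S) (r : V) (hr : r ∈ S) :
    ((trees (fun v => G.neighborFinset v) Sᶜ).card : ℝ)
      + ((trees (fun v => G.neighborFinset v) (insert r Sᶜ)).card : ℝ)
      ≤ kap M ^ (bsize G S + 1)
        * ((trees (fun v => G.neighborFinset v ∩ S) (insert r Sᶜ)).card : ℝ) := by
  rw [det_lap_out, det_lap_out_root G S r hr, ← det_add_single, det_lap_root G S r hr]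
  obtain ⟨m, hm, h⟩ := cut_bound G S M hM hD hS r hr
  refine h.trans ?_
  apply mul_le_mul_of_nonneg_right (prod_bound _ _ hm M hM)
  rw [← det_lap_root G S r hr]
  positivity

lemma bsize_compl : bsize G Sᶜ = bsize G S := by
  have h : ∀ T : Finset V, bsize G T = ∑ v ∈ T, ∑ t ∈ Tᶜ, if G.Adj v t then 1 else 0 := by
    intro T
    unfold bsize
    refine Finset.sum_congr rfl fun v _ => ?_
    rw [← Finset.sum_filter, Finset.card_eq_sum_ones]
    apply Finset.sum_congr _ (fun _ _ => rfl)
    ext t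
    simp [and_comm]
  rw [h, h, compl_compl, Finset.sum_comm]
  refine Finset.sum_congr rfl fun v _ => Finset.sum_congr rfl fun t _ => ?_
  by_cases hvt : G.Adj v t
  · rw [if_pos hvt, if_pos hvt.symm]
  · rw [if_neg hvt, if_neg (fun h => hvt h.symm)]

theorem tree_ratio (M : ℝ) (hM : 1 ≤ M)
    (hD : ∀ (i j : V) (f : V → ℝ), (f i - f j) ^ 2 ≤ M * energy G f)
    (hS : Conn G S) (hS' : Conn G Sᶜ) (x y : V) (hx : x ∈ S) (hy : y ∉ S) :
    ((trees (fun v => G.neighborFinset v) {y}).card : ℝ)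
      ≤ kap M ^ (2 * (bsize G S + 1))
        * (((trees (fun v => G.neighborFinset v ∩ S) (insert x Sᶜ)).card : ℝ)
          * ((trees (fun v => G.neighborFinset v ∩ Sᶜ) (insert y S)).card : ℝ)) := by
  have h1 := part_bound G S M hM hD hS x hx
  have h2 := part_bound G Sᶜ M hM hD hS' y (by simpa using hy)
  rw [bsize_compl, compl_compl] at h2
  have h3 : ((trees (fun v => G.neighborFinset v) {y}).card : ℝ)
      ≤ ((trees (fun v => G.neighborFinset v) Sᶜ).card : ℝ)
        * ((trees (fun v => G.neighborFinset v) (insert y S)).card : ℝ) := by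
    exact_mod_cast card_trees_le_mul (fun v => G.neighborFinset v) S y hy
  refine h3.trans ?_
  have h4 : ((trees (fun v => G.neighborFinset v) Sᶜ).card : ℝ)
      ≤ kap M ^ (bsize G S + 1)
        * ((trees (fun v => G.neighborFinset v ∩ S) (insert x Sᶜ)).card : ℝ) := by
    have : (0:ℝ) ≤ ((trees (fun v => G.neighborFinset v) (insert x Sᶜ)).card : ℝ) := by
      positivity
    linarith
  have h5 : ((trees (fun v => G.neighborFinset v) (insert y S)).card : ℝ)
      ≤ kap M ^ (bsize G S + 1)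
        * ((trees (fun v => G.neighborFinset v ∩ Sᶜ) (insert y S)).card : ℝ) := by
    have : (0:ℝ) ≤ ((trees (fun v => G.neighborFinset v) S).card : ℝ) := by
      positivity
    linarith
  calc _ ≤ (kap M ^ (bsize G S + 1)
        * ((trees (fun v => G.neighborFinset v ∩ S) (insert x Sᶜ)).card : ℝ))
        * (kap M ^ (bsize G S + 1)
        * ((trees (fun v => G.neighborFinset v ∩ Sᶜ) (insert y S)).card : ℝ)) := by
          apply mul_le_mul h4 h5 (by positivity)
          have := kap_ge M hM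
          positivity
    _ = _ := by ring

end Pool.Agent.helper36.IsingKey
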