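import Mathlib
import Pool.Agent.helper36.IsingKey

open Finset

namespace Pool.Agent.helper36.IsingPeierls

open Pool.Agent.helper36.IsingDefs Pool.Agent.helper36.IsingTree
open Pool.Agent.helper36.IsingRes Pool.Agent.helper36.IsingCut Pool.Agent.helper36.IsingKey

variable {V : Type} [Fintype V] [DecidableEq V] (G : SimpleGraph V) [DecidableRel G.Adj]

lemma cross_walk (K : SimpleGraph V) (y : V) (A : V → Prop) {u v : V} (p : K.Walk u v) :
    K.Reachable y u → A u → ¬ A v →
      ∃ u' v', K.Reachable y u' ∧ K.Reachable y v' ∧ A u' ∧ ¬ A v' ∧ K.Adj u' v' := by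
  induction p with
  | nil => intro _ h1 h2; exact absurd h1 h2
  | cons h q ih =>
    rename_i a b c
    intro hy hA hnA
    have hyb : K.Reachable y b := hy.trans h.reachable
    by_cases hb : A b
    · exact ih hyb hb hnA
    · exact ⟨a, b, hy, hyb, hA, hb, h⟩

/-- components are connected in the cut sense -/
lemma conn_component (K : SimpleGraph V) (hK : ∀ u v, K.Adj u v → G.Adj u v) (y : V)
    (D : Finset V) (hD : ∀ v, v ∈ D ↔ K.Reachable y v) : Conn G D := by
  intro A ⟨a, haD, hAa⟩ ⟨b, hbD, hAb⟩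
  have ha := (hD a).1 haD
  have hb := (hD b).1 hbD
  obtain ⟨p⟩ := ha.symm.trans hb
  obtain ⟨u, v, hu, hv, hAu, hAv, huv⟩ := cross_walk K y A p ha hAa hAb
  exact ⟨u, (hD u).2 hu, v, (hD v).2 hv, hAu, hAv, hK _ _ huv⟩

lemma conn_univ (hconn : G.Connected) : Conn G Finset.univ := by
  obtain ⟨y⟩ := hconn.nonempty
  exact conn_component G G (fun _ _ h => h) y Finset.univ
    (fun v => ⟨fun _ => hconn.preconnected y v, fun _ => Finset.mem_univ v⟩)

/-- the separating cut of a configuration -/
lemma exists_cut (hconn : G.Connected) (x y : V) (σ : V → Bool) (hσ : σ x ≠ σ y) :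
    ∃ S : Finset V, x ∈ S ∧ y ∉ S ∧ Conn G S ∧ Conn G Sᶜ ∧
      ∀ u ∈ S, ∀ v, v ∉ S → G.Adj u v → σ u ≠ σ v := by
  classical
  let H : SimpleGraph V := 
    { Adj := fun u v => G.Adj u v ∧ σ u = σ v
      symm := ⟨fun u v h => ⟨h.1.symm, h.2.symm⟩⟩
      loopless := ⟨fun u h => G.irrefl h.1⟩ }
  let C : V → Prop := fun v => H.Reachable x v
  have hCσ : ∀ v, C v → σ v = σ x := by
    intro v hv
    obtain ⟨p⟩ := hv
    have : ∀ {a b : V} (p : H.Walk a b), σ b = σ a := by
      intro a b p
      induction p with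
      | nil => rfl
      | cons h q ih => rw [ih, ← h.2]
    exact this p
  have hyC : ¬ C y := fun h => hσ (hCσ y h).symm
  let K : SimpleGraph V := 
    { Adj := fun u v => G.Adj u v ∧ ¬ C u ∧ ¬ C v
      symm := ⟨fun u v h => ⟨h.1.symm, h.2.2, h.2.1⟩⟩
      loopless := ⟨fun u h => G.irrefl h.1⟩ }
  let D : Finset V := Finset.univ.filter (fun v => K.Reachable y v)
  have hD : ∀ v, v ∈ D ↔ K.Reachable y v := by intro v; simp [D]
  have hDC : ∀ v, v ∈ D → ¬ C v := by
    intro v hv
    obtain ⟨p⟩ := ((hD v).1 hv).symm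
    cases p with
    | nil => exact hyC
    | cons h q => exact h.2.1
  have hyD : y ∈ D := (hD y).2 (SimpleGraph.Reachable.refl y)
  have hadj : ∀ u v, u ∉ D → v ∈ D → G.Adj u v → C u := by
    intro u v hu hv huv
    by_contra hCu
    apply hu
    rw [hD]
    have hK : K.Adj v u := ⟨huv.symm, hDC v hv, hCu⟩
    exact ((hD v).1 hv).trans hK.reachable
  have hxC : C x := SimpleGraph.Reachable.refl x
  have hCS : ∀ v, C v → v ∉ D := fun v hv hvD => hDC v hvD hv
  refine ⟨Dᶜ, ?_, ?_, ?_, ?_, ?_⟩
  · rw [Finset.mem_compl]; exact hCS x hxC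
  · simpa using hyD
  · -- connectedness of the outer part
    let KS : SimpleGraph V := 
      { Adj := fun u v => G.Adj u v ∧ u ∉ D ∧ v ∉ D
        symm := ⟨fun u v h => ⟨h.1.symm, h.2.2, h.2.1⟩⟩
        loopless := ⟨fun u h => G.irrefl h.1⟩ }
    have h1 : ∀ {a b : V} (p : H.Walk a b), C a → KS.Reachable a b := by
      intro a b p
      induction p with
      | nil => intro _; exact SimpleGraph.Reachable.refl _
      | cons h q ih =>
        rename_i a b c
        intro ha
        have hb : C b := ha.trans h.reachable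
        have hK : KS.Adj a b := ⟨h.1, hCS a ha, hCS b hb⟩
        exact hK.reachable.trans (ih hb)
    have h2 : ∀ {a b : V} (p : G.Walk a b), b = x → a ∉ D → KS.Reachable x a := by
      intro a b p
      induction p with
      | nil => intro h _; subst h; exact SimpleGraph.Reachable.refl _
      | cons h q ih =>
        rename_i a b c
        intro hc ha
        by_cases hCa : C a
        · obtain ⟨r⟩ := hCa
          exact h1 r hxC
        · have hb : b ∉ D := by
            intro hbD
            exact hCa (hadj a b ha hbD h)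
          have hK : KS.Adj b a := ⟨h.symm, hb, ha⟩
          exact (ih hc hb).trans hK.reachable
    apply conn_component G KS (fun _ _ h => h.1) x
    intro v
    rw [Finset.mem_compl]
    constructor
    · intro hv
      obtain ⟨p⟩ := hconn.preconnected v x
      exact h2 p rfl hv
    · intro hv
      obtain ⟨p⟩ := hv.symm
      cases p with
      | nil => exact hCS _ hxC
      | cons h q => exact h.2.1
  · rw [compl_compl]
    exact conn_component G K (fun _ _ h => h.1) y D hD
  · intro u hu v hv huv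
    rw [Finset.mem_compl] at hu hv
    have hvD : v ∈ D := by simpa using hv
    have hCu := hadj u v hu hvD huv
    intro heq
    have hH : H.Adj u v := ⟨huv, heq⟩
    exact hDC v hvD (hCu.trans hH.reachable)

/-- flipping the spins of `S` -/
def flip (S : Finset V) (σ : V → Bool) : V → Bool := fun v => if v ∈ S then !(σ v) else σ v

lemma flip_flip (S : Finset V) (σ : V → Bool) : flip S (flip S σ) = σ := by
  funext v
  by_cases hv : v ∈ S <;> simp [flip, hv]

lemma spin_not (b : Bool) : spin (!b) = - spin b := by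
  cases b <;> simp [spin]

/-- term of an edge -/
def eterm (σ : V → Bool) (e : Sym2 V) : ℝ :=
  Sym2.lift ⟨fun u v => spin (σ u) * spin (σ v), fun _ _ => mul_comm _ _⟩ e

lemma interaction_flip (S : Finset V) (σ : V → Bool)
    (hσ : ∀ u ∈ S, ∀ v, v ∉ S → G.Adj u v → σ u ≠ σ v) :
    interaction G (flip S σ) = interaction G σ + 2 * bsize G S := by
  classical
  set P : Finset (V × V) := (S ×ˢ Sᶜ).filter (fun q => G.Adj q.1 q.2) with hP
  set E : Finset (Sym2 V) := P.image (fun q => s(q.1, q.2)) with hE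
  have hinj : Set.InjOn (fun q : V × V => s(q.1, q.2)) P := by
    intro q hq q' hq' h
    rw [Finset.mem_coe, hP, Finset.mem_filter, Finset.mem_product, Finset.mem_compl] at hq hq'
    simp only [Sym2.eq_iff] at h
    rcases h with h | h
    · exact Prod.ext h.1 h.2
    · exact absurd hq.1.1 (by rw [h.1]; exact hq'.1.2)
  have hsub : E ⊆ G.edgeFinset := by
    intro e he
    rw [hE, Finset.mem_image] at he
    obtain ⟨q, hq, rfl⟩ := he
    rw [hP, Finset.mem_filter] at hq
    rw [SimpleGraph.mem_edgeFinset, SimpleGraph.mem_edgeSet]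
    exact hq.2
  have hcard : P.card = bsize G S := by
    rw [hP, bsize, Finset.card_filter, Finset.sum_product]
    refine Finset.sum_congr rfl fun v _ => ?_
    rw [← Finset.card_filter]
    congr 1
    ext t
    simp [and_comm]
  have hout : ∀ e ∈ G.edgeFinset, e ∉ E → eterm (flip S σ) e = eterm σ e := by
    intro e
    induction e using Sym2.inductionOn with
    | hf u v =>
      intro he hne
      rw [SimpleGraph.mem_edgeFinset, SimpleGraph.mem_edgeSet] at he
      simp only [eterm, Sym2.lift_mk]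
      by_cases hu : u ∈ S
      · by_cases hv : v ∈ S
        · simp [flip, hu, hv, spin_not]
        · exfalso
          apply hne
          rw [hE, Finset.mem_image]
          exact ⟨(u, v), by rw [hP, Finset.mem_filter]; simp [hu, hv, he], rfl⟩
      · by_cases hv : v ∈ S
        · exfalso
          apply hne
          rw [hE, Finset.mem_image]
          exact ⟨(v, u), by rw [hP, Finset.mem_filter]; simp [hu, hv, he.symm], Sym2.eq_swap⟩
        · simp [flip, hu, hv]
  have hin : ∀ q ∈ P, eterm (flip S σ) s(q.1, q.2) = eterm σ s(q.1, q.2) + 2 := by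
    intro q hq
    rw [hP, Finset.mem_filter, Finset.mem_product, Finset.mem_compl] at hq
    have h1 := hσ q.1 hq.1.1 q.2 hq.1.2 hq.2
    simp only [eterm, Sym2.lift_mk, flip, hq.1.1, hq.1.2, if_true, if_false, spin_not]
    have h2 : spin (σ q.1) * spin (σ q.2) = -1 := by
      cases h3 : σ q.1 <;> cases h4 : σ q.2 <;> simp_all [spin]
    linarith
  have h1 : ∀ τ : V → Bool, interaction G τ = ∑ e ∈ G.edgeFinset, eterm τ e := fun τ => rfl
  rw [h1, h1, ← Finset.sum_sdiff hsub, ← Finset.sum_sdiff hsub]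
  have h2 : ∑ e ∈ G.edgeFinset \ E, eterm (flip S σ) e = ∑ e ∈ G.edgeFinset \ E, eterm σ e :=
    Finset.sum_congr rfl fun e he => by
      rw [Finset.mem_sdiff] at he
      exact hout e he.1 he.2
  have h3 : ∑ e ∈ E, eterm (flip S σ) e = ∑ e ∈ E, eterm σ e + 2 * bsize G S := by
    rw [hE, Finset.sum_image hinj, Finset.sum_image hinj, Finset.sum_congr rfl hin,
      Finset.sum_add_distrib, Finset.sum_const, nsmul_eq_mul, hcard]
    ring
  rw [h2, h3]
  ring

lemma weight_pos (β : ℝ) (σ : V → Bool) : 0 < weight G β σ := Real.exp_pos _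

open Classical in
/-- Peierls estimate for one cut -/
lemma peierls_one (β : ℝ) (S : Finset V) :
    ∑ σ ∈ Finset.univ.filter (fun σ : V → Bool =>
        ∀ u ∈ S, ∀ v, v ∉ S → G.Adj u v → σ u ≠ σ v), weight G β σ
      ≤ Real.exp (-2 * β * bsize G S) * ∑ σ : V → Bool, weight G β σ := by
  have h1 : ∀ σ ∈ Finset.univ.filter (fun σ : V → Bool =>
        ∀ u ∈ S, ∀ v, v ∉ S → G.Adj u v → σ u ≠ σ v),
      weight G β σ = Real.exp (-2 * β * bsize G S) * weight G β (flip S σ) := by
    intro σ hσ
    rw [Finset.mem_filter] at hσ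
    unfold weight
    rw [interaction_flip G S σ hσ.2, ← Real.exp_add]
    congr 1
    ring
  rw [Finset.sum_congr rfl h1, ← Finset.mul_sum]
  apply mul_le_mul_of_nonneg_left _ (Real.exp_pos _).le
  have h2 : ∑ σ ∈ Finset.univ.filter (fun σ : V → Bool =>
        ∀ u ∈ S, ∀ v, v ∉ S → G.Adj u v → σ u ≠ σ v), weight G β (flip S σ)
      ≤ ∑ σ : V → Bool, weight G β (flip S σ) :=
    Finset.sum_le_sum_of_subset_of_nonneg (Finset.filter_subset _ _)
      (fun σ _ _ => (weight_pos G β _).le)
  refine h2.trans (le_of_eq ?_)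
  exact Equiv.sum_comp (⟨flip S, flip S, flip_flip S, flip_flip S⟩ : (V → Bool) ≃ (V → Bool))
    (fun σ => weight G β σ)

open Classical in
/-- the relevant cuts -/
noncomputable def cuts (x y : V) : Finset (Finset V) :=
  Finset.univ.filter (fun S => x ∈ S ∧ y ∉ S ∧ Conn G S ∧ Conn G Sᶜ)

lemma mem_cuts (x y : V) (S : Finset V) :
    S ∈ cuts G x y ↔ x ∈ S ∧ y ∉ S ∧ Conn G S ∧ Conn G Sᶜ := by
  simp [cuts]

theorem peierls (hconn : G.Connected) (β : ℝ) (x y : V) :
    1 - twoPoint G β x y ≤ 2 * ∑ S ∈ cuts G x y, Real.exp (-2 * β * bsize G S) := by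
  classical
  set Z := ∑ σ : V → Bool, weight G β σ with hZ
  have hZpos : 0 < Z := Finset.sum_pos (fun σ _ => weight_pos G β σ) ⟨fun _ => true, by simp⟩
  have h1 : 1 - twoPoint G β x y
      = (∑ σ : V → Bool, (1 - spin (σ x) * spin (σ y)) * weight G β σ) / Z := by
    unfold twoPoint
    rw [← hZ, eq_div_iff hZpos.ne', sub_mul, div_mul_cancel₀ _ hZpos.ne', one_mul, hZ,
      ← Finset.sum_sub_distrib]
    exact Finset.sum_congr rfl fun σ _ => by ring
  have h2 : ∑ σ : V → Bool, (1 - spin (σ x) * spin (σ y)) * weight G β σ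
      = 2 * ∑ σ ∈ Finset.univ.filter (fun σ : V → Bool => σ x ≠ σ y), weight G β σ := by
    rw [Finset.sum_filter, Finset.mul_sum]
    refine Finset.sum_congr rfl fun σ _ => ?_
    by_cases h : σ x = σ y
    · have : spin (σ y) * spin (σ y) = 1 := by cases σ y <;> simp [spin]
      rw [h, this]; simp
    · have : spin (σ x) * spin (σ y) = -1 := by
        cases h3 : σ x <;> cases h4 : σ y <;> simp_all [spin]
      rw [this, if_pos h]; ring
  have h3 : ∑ σ ∈ Finset.univ.filter (fun σ : V → Bool => σ x ≠ σ y), weight G β σ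
      ≤ ∑ S ∈ cuts G x y, ∑ σ ∈ Finset.univ.filter (fun σ : V → Bool =>
        ∀ u ∈ S, ∀ v, v ∉ S → G.Adj u v → σ u ≠ σ v), weight G β σ := by
    have e1 : ∑ σ ∈ Finset.univ.filter (fun σ : V → Bool => σ x ≠ σ y), weight G β σ
        = ∑ σ : V → Bool, if σ x ≠ σ y then weight G β σ else 0 := Finset.sum_filter _ _
    have e2 : ∑ S ∈ cuts G x y, ∑ σ ∈ Finset.univ.filter (fun σ : V → Bool =>
        ∀ u ∈ S, ∀ v, v ∉ S → G.Adj u v → σ u ≠ σ v), weight G β σ
        = ∑ σ : V → Bool, ∑ S ∈ cuts G x y,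
          if (∀ u ∈ S, ∀ v, v ∉ S → G.Adj u v → σ u ≠ σ v) then weight G β σ else 0 := by
      rw [Finset.sum_comm]
      exact Finset.sum_congr rfl fun S _ => Finset.sum_filter _ _
    rw [e1, e2]
    apply Finset.sum_le_sum
    intro σ _
    have hnn : ∀ S ∈ cuts G x y, (0:ℝ) ≤
        if (∀ u ∈ S, ∀ v, v ∉ S → G.Adj u v → σ u ≠ σ v) then weight G β σ else 0 := by
      intro S _
      split_ifs
      · exact (weight_pos G β σ).le
      · exact le_rfl
    by_cases h : σ x ≠ σ y
    · rw [if_pos h]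
      obtain ⟨S, hx, hy, hS, hS', hall⟩ := exists_cut G hconn x y σ h
      have := Finset.single_le_sum hnn ((mem_cuts G x y S).2 ⟨hx, hy, hS, hS'⟩)
      rwa [if_pos hall] at this
    · rw [if_neg h]
      exact Finset.sum_nonneg hnn
  rw [h1, h2, div_le_iff₀ hZpos]
  have h4 : ∑ S ∈ cuts G x y, ∑ σ ∈ Finset.univ.filter (fun σ : V → Bool =>
        ∀ u ∈ S, ∀ v, v ∉ S → G.Adj u v → σ u ≠ σ v), weight G β σ
      ≤ ∑ S ∈ cuts G x y, Real.exp (-2 * β * bsize G S) * Z :=
    Finset.sum_le_sum fun S _ => peierls_one G β S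
  rw [← Finset.sum_mul] at h4
  calc 2 * ∑ σ ∈ Finset.univ.filter (fun σ : V → Bool => σ x ≠ σ y), weight G β σ
      ≤ 2 * ((∑ S ∈ cuts G x y, Real.exp (-2 * β * bsize G S)) * Z) :=
        mul_le_mul_of_nonneg_left (h3.trans h4) (by norm_num)
    _ = _ := by ring

/-- a connected graph has a rooted spanning tree -/
lemma trees_pos (hconn : G.Connected) (y : V) :
    0 < (trees (fun v => G.neighborFinset v) {y}).card := by
  classical
  rw [Finset.card_pos]
  have h : ∀ v, v ≠ y → ∃ t, G.Adj v t ∧ G.dist t y < G.dist v y := by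
    intro v hv
    obtain ⟨p, hp⟩ := (hconn.preconnected v y).exists_walk_length_eq_dist
    cases p with
    | nil => exact absurd rfl hv
    | cons h q =>
      rename_i t
      refine ⟨t, h, ?_⟩
      have h1 := SimpleGraph.dist_le q
      rw [SimpleGraph.Walk.length_cons] at hp
      omega
  choose! π hπ using h
  refine ⟨fun v => if v = y then y else π v, ?_⟩
  rw [mem_trees]
  refine ⟨?_, ?_, ?_⟩
  · intro v hv
    rw [Finset.mem_singleton] at hv
    simp [hv]
  · intro v hv
    rw [Finset.mem_singleton] at hv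
    simp only [if_neg hv, SimpleGraph.mem_neighborFinset]
    exact (hπ v hv).1
  · have hk : ∀ (k : ℕ) (v : V), G.dist v y ≤ k →
        ∃ n, (fun v => if v = y then y else π v)^[n] v ∈ ({y} : Finset V) := by
      intro k
      induction k with
      | zero =>
        intro v hv
        have : v = y := by
          have h0 : G.dist v y = 0 := by omega
          exact (hconn.dist_eq_zero_iff).1 h0
        exact ⟨0, by simp [this]⟩
      | succ k ih =>
        intro v hv
        by_cases hvy : v = y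
        · exact ⟨0, by simp [hvy]⟩
        · have h1 := (hπ v hvy).2
          obtain ⟨n, hn⟩ := ih (π v) (by omega)
          refine ⟨n + 1, ?_⟩
          rw [Function.iterate_succ_apply]
          simpa [hvy] using hn
    intro v
    exact hk _ v le_rfl

lemma bsize_pos (hconn : G.Connected) (S : Finset V) (x y : V) (hx : x ∈ S) (hy : y ∉ S) :
    1 ≤ bsize G S := by
  obtain ⟨u, _, v, _, hu, hv, huv⟩ := conn_univ G hconn (fun v => v ∈ S)
    ⟨x, Finset.mem_univ _, hx⟩ ⟨y, Finset.mem_univ _, hy⟩
  have h1 : 1 ≤ (G.neighborFinset u \ S).card :=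
    Finset.card_pos.2 ⟨v, by simp [huv, hv]⟩
  unfold bsize
  exact h1.trans (Finset.single_le_sum (f := fun v => (G.neighborFinset v \ S).card)
    (fun _ _ => Nat.zero_le _) hu)

/-- counting cuts -/
theorem sum_cuts (hconn : G.Connected) (M : ℝ) (hM : 1 ≤ M)
    (hD : ∀ (i j : V) (f : V → ℝ), (f i - f j) ^ 2 ≤ M * energy G f) (x y : V) (hxy : x ≠ y) :
    ∑ S ∈ cuts G x y, (kap M ^ (2 * (bsize G S + 1)))⁻¹ ≤ M := by
  classical
  set τ : ℝ := ((trees (fun v => G.neighborFinset v) {y}).card : ℝ) with hτ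
  have hτpos : 0 < τ := by rw [hτ]; exact_mod_cast trees_pos G hconn y
  have hk := kap_ge M hM
  have h1 : ∀ S ∈ cuts G x y, (kap M ^ (2 * (bsize G S + 1)))⁻¹
      ≤ ((((trees (fun v => G.neighborFinset v ∩ S) (insert x Sᶜ)).card
          * (trees (fun v => G.neighborFinset v ∩ Sᶜ) (insert y S)).card : ℕ)) : ℝ) / τ := by
    intro S hS
    rw [mem_cuts] at hS
    have h := tree_ratio G S M hM hD hS.2.2.1 hS.2.2.2 x y hS.1 hS.2.1
    rw [← hτ] at h
    have hkp : 0 < kap M ^ (2 * (bsize G S + 1)) := by positivity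
    rw [le_div_iff₀ hτpos, inv_mul_le_iff₀ hkp]
    push_cast
    exact h
  have h2 : ∑ S ∈ cuts G x y, ((((trees (fun v => G.neighborFinset v ∩ S) (insert x Sᶜ)).card
          * (trees (fun v => G.neighborFinset v ∩ Sᶜ) (insert y S)).card : ℕ)) : ℝ) / τ
      ≤ ((trees (fun v => G.neighborFinset v) {x, y}).card : ℝ) / τ := by
    rw [← Finset.sum_div]
    apply div_le_div_of_nonneg_right _ hτpos.le
    have h3 := sum_trees_le (fun v => G.neighborFinset v) x y hxy
    have h4 : ∑ S ∈ cuts G x y, ((trees (fun v => G.neighborFinset v ∩ S) (insert x Sᶜ)).card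
          * (trees (fun v => G.neighborFinset v ∩ Sᶜ) (insert y S)).card)
        ≤ ∑ S ∈ Finset.univ.filter (fun S : Finset V => x ∈ S ∧ y ∉ S),
          (trees (fun v => G.neighborFinset v ∩ S) (insert x Sᶜ)).card
            * (trees (fun v => G.neighborFinset v ∩ Sᶜ) (insert y S)).card := by
      apply Finset.sum_le_sum_of_subset
      intro S hS
      rw [mem_cuts] at hS
      rw [Finset.mem_filter]
      exact ⟨Finset.mem_univ _, hS.1, hS.2.1⟩
    exact_mod_cast h4.trans h3
  have h5 := two_roots G M x y hxy (fun f => hD x y f)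
  refine (Finset.sum_le_sum h1).trans (h2.trans ?_)
  rw [div_le_iff₀ hτpos]
  exact h5

theorem main (hconn : G.Connected) (hV : Nontrivial V) (M : ℝ) (hM : 1 ≤ M)
    (hG : greenMax G ≤ ENNReal.ofReal M) (β : ℝ) (hβ : 2 * Real.log (kap M) ≤ β) (x y : V) :
    1 - 2 * M * kap M ^ 4 * Real.exp (-2 * β) ≤ twoPoint G β x y := by
  classical
  have hk := kap_ge M hM
  have hkpos : 0 < kap M := by linarith
  by_cases hxy : x = y
  · subst hxy
    have h1 : twoPoint G β x x = 1 := by
      unfold twoPoint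
      have hZpos : 0 < ∑ σ : V → Bool, weight G β σ :=
        Finset.sum_pos (fun σ _ => weight_pos G β σ) ⟨fun _ => true, by simp⟩
      rw [div_eq_one_iff_eq hZpos.ne']
      refine Finset.sum_congr rfl fun σ _ => ?_
      have : spin (σ x) * spin (σ x) = 1 := by cases σ x <;> simp [spin]
      rw [this, one_mul]
    rw [h1]
    have : 0 ≤ 2 * M * kap M ^ 4 * Real.exp (-2 * β) := by positivity
    linarith
  have hD := fun i j f => dirichlet G hconn hV M (by linarith) hG i j f
  have h1 := peierls G hconn β x y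
  have h2 := sum_cuts G hconn M hM hD x y hxy
  have hq : kap M ^ 4 * Real.exp (-2 * β) ≤ 1 := by
    have h3 : kap M ^ 4 = Real.exp (4 * Real.log (kap M)) := by
      rw [mul_comm, Real.exp_mul, Real.exp_log hkpos]
      norm_cast
    rw [h3, ← Real.exp_add]
    exact Real.exp_le_one_iff.2 (by linarith)
  have h3 : ∀ S ∈ cuts G x y, Real.exp (-2 * β * bsize G S)
      ≤ (kap M ^ (2 * (bsize G S + 1)))⁻¹ * (kap M ^ 4 * Real.exp (-2 * β)) := by
    intro S hS
    rw [mem_cuts] at hS
    have hn := bsize_pos G hconn S x y hS.1 hS.2.1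
    set n := bsize G S with hn'
    have hkp : 0 < kap M ^ (2 * (n + 1)) := by positivity
    rw [← div_eq_inv_mul, le_div_iff₀ hkp]
    have h4 : Real.exp (-2 * β * n) = Real.exp (-2 * β) ^ n := by
      rw [← Real.exp_nat_mul]; ring_nf
    have h5 : kap M ^ (2 * (n + 1)) ≤ (kap M ^ 4) ^ n := by
      rw [← pow_mul]
      exact pow_le_pow_right₀ hk (by omega)
    calc Real.exp (-2 * β * n) * kap M ^ (2 * (n + 1))
        ≤ Real.exp (-2 * β) ^ n * (kap M ^ 4) ^ n := by
          rw [h4]
          exact mul_le_mul_of_nonneg_left h5 (by positivity)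
      _ = (kap M ^ 4 * Real.exp (-2 * β)) ^ n := by rw [← mul_pow, mul_comm]
      _ ≤ (kap M ^ 4 * Real.exp (-2 * β)) ^ 1 :=
          pow_le_pow_of_le_one (by positivity) hq hn
      _ = _ := pow_one _
  have h4 : ∑ S ∈ cuts G x y, Real.exp (-2 * β * bsize G S)
      ≤ M * (kap M ^ 4 * Real.exp (-2 * β)) := by
    refine (Finset.sum_le_sum h3).trans ?_
    rw [← Finset.sum_mul]
    exact mul_le_mul_of_nonneg_right h2 (by positivity)
  linarith

end Pool.Agent.helper36.IsingPeierls
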