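import Mathlib

set_option autoImplicit false

namespace Pool.Agent.helper36.SpanCount

theorem sum_inv_sq_le (B : ℕ) :
    ∑ r ∈ Finset.range (B + 1), (1 / ((r : ℚ) + 1) ^ 2) ≤ 2 - 1 / ((B : ℚ) + 1) := by
  induction B with
  | zero => norm_num
  | succ B ih =>
    rw [Finset.sum_range_succ]
    have h1 : (1 : ℚ) / (((B + 1 : ℕ) : ℚ) + 1) ^ 2 ≤
        1 / ((B : ℚ) + 1) - 1 / (((B + 1 : ℕ) : ℚ) + 1) := by
      push_cast
      rw [div_sub_div _ _ (by positivity) (by positivity), div_le_div_iff₀ (by positivity)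
        (by positivity)]
      have : (0 : ℚ) ≤ B := Nat.cast_nonneg B
      nlinarith
    linarith

theorem sum_inv_sq_le_two (B : ℕ) :
    ∑ r ∈ Finset.range B, (1 / ((r : ℚ) + 1) ^ 2) ≤ 2 := by
  cases B with
  | zero => norm_num
  | succ B =>
    have h1 := sum_inv_sq_le B
    have h2 : (0 : ℚ) ≤ 1 / ((B : ℚ) + 1) := by positivity
    linarith

/-- class sums -/
theorem class_sum (g : ℕ) (hg : 0 < g) (B : ℕ) (L : ℕ → ℕ)
    (hL : ∀ m, m < B → L m = 0 ∨ g ≤ L m)
    (hpair : ∀ m m', m < m' → m' < B → L m ≠ 0 → L m' ≠ 0 → g * (m' - m) ^ 2 < L m + L m') :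
    ∑ m ∈ Finset.range B, (1 / (L m : ℚ)) ≤ 9 / g := by
  have hgq : (0 : ℚ) < g := by exact_mod_cast hg
  by_cases hall : ∀ m, m < B → L m = 0
  · have : ∑ m ∈ Finset.range B, (1 / (L m : ℚ)) = 0 := by
      apply Finset.sum_eq_zero
      intro m hm
      rw [hall m (Finset.mem_range.1 hm)]
      simp
    rw [this]
    positivity
  · push Not at hall
    obtain ⟨m1, hm1, hL1⟩ := hall
    have hne : ((Finset.range B).filter (fun m => L m ≠ 0)).Nonempty :=
      ⟨m1, by simp [hm1, hL1]⟩
    obtain ⟨m0, hm0, hmin⟩ := Finset.exists_min_image _ L hne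
    rw [Finset.mem_filter, Finset.mem_range] at hm0
    have key1 : ∀ m, m < B → m < m0 → (1 / (L m : ℚ)) ≤ 2 / g * (1 / ((m0 - m : ℕ) : ℚ) ^ 2) := by
      intro m hm hmm
      by_cases h0 : L m = 0
      · rw [h0]
        simp only [Nat.cast_zero, div_zero]
        positivity
      · have h1 := hpair m m0 hmm hm0.1 h0 hm0.2
        have h2 := hmin m (by simp [hm, h0])
        have h3 : g * (m0 - m) ^ 2 ≤ 2 * L m := by omega
        have h4 : (g : ℚ) * ((m0 - m : ℕ) : ℚ) ^ 2 ≤ 2 * L m := by exact_mod_cast h3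
        have h5 : (0 : ℚ) < L m := by
          have : 0 < L m := Nat.pos_of_ne_zero h0
          exact_mod_cast this
        have h6 : (0 : ℚ) < ((m0 - m : ℕ) : ℚ) := by
          have : 0 < m0 - m := by omega
          exact_mod_cast this
        rw [div_mul_div_comm, div_le_div_iff₀ h5 (by positivity)]
        linarith
    have key2 : ∀ m, m < B → m0 < m → (1 / (L m : ℚ)) ≤ 2 / g * (1 / ((m - m0 : ℕ) : ℚ) ^ 2) := by
      intro m hm hmm
      by_cases h0 : L m = 0
      · rw [h0]
        simp only [Nat.cast_zero, div_zero]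
        positivity
      · have h1 := hpair m0 m hmm hm hm0.2 h0
        have h2 := hmin m (by simp [hm, h0])
        have h3 : g * (m - m0) ^ 2 ≤ 2 * L m := by omega
        have h4 : (g : ℚ) * ((m - m0 : ℕ) : ℚ) ^ 2 ≤ 2 * L m := by exact_mod_cast h3
        have h5 : (0 : ℚ) < L m := by
          have : 0 < L m := Nat.pos_of_ne_zero h0
          exact_mod_cast this
        have h6 : (0 : ℚ) < ((m - m0 : ℕ) : ℚ) := by
          have : 0 < m - m0 := by omega
          exact_mod_cast this
        rw [div_mul_div_comm, div_le_div_iff₀ h5 (by positivity)]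
        linarith
    have key0 : (1 / (L m0 : ℚ)) ≤ 1 / g := by
      have h1 : g ≤ L m0 := (hL m0 hm0.1).resolve_left hm0.2
      have h2 : (g : ℚ) ≤ L m0 := by exact_mod_cast h1
      exact one_div_le_one_div_of_le hgq h2
    obtain ⟨D, hD⟩ : ∃ D, B = m0 + (1 + D) := ⟨B - m0 - 1, by omega⟩
    rw [hD, Finset.sum_range_add, Finset.sum_range_add, Finset.sum_range_one]
    have hA : ∑ x ∈ Finset.range m0, (1 / (L x : ℚ)) ≤ 2 / g * 2 := by
      rw [← Finset.sum_range_reflect]
      calc ∑ j ∈ Finset.range m0, (1 / (L (m0 - 1 - j) : ℚ))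
          ≤ ∑ j ∈ Finset.range m0, 2 / g * (1 / ((j : ℚ) + 1) ^ 2) := by
            apply Finset.sum_le_sum
            intro j hj
            rw [Finset.mem_range] at hj
            have := key1 (m0 - 1 - j) (by omega) (by omega)
            have e : m0 - (m0 - 1 - j) = j + 1 := by omega
            rw [e] at this
            push_cast at this
            exact this
        _ = 2 / g * ∑ j ∈ Finset.range m0, (1 / ((j : ℚ) + 1) ^ 2) := by
            rw [Finset.mul_sum]
        _ ≤ 2 / g * 2 := by
            apply mul_le_mul_of_nonneg_left (sum_inv_sq_le_two m0)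
            positivity
    have hC : ∑ x ∈ Finset.range D, (1 / (L (m0 + (1 + x)) : ℚ)) ≤ 2 / g * 2 := by
      calc ∑ x ∈ Finset.range D, (1 / (L (m0 + (1 + x)) : ℚ))
          ≤ ∑ j ∈ Finset.range D, 2 / g * (1 / ((j : ℚ) + 1) ^ 2) := by
            apply Finset.sum_le_sum
            intro j hj
            rw [Finset.mem_range] at hj
            have := key2 (m0 + (1 + j)) (by omega) (by omega)
            have e : m0 + (1 + j) - m0 = j + 1 := by omega
            rw [e] at this
            push_cast at this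
            exact this
        _ = 2 / g * ∑ j ∈ Finset.range D, (1 / ((j : ℚ) + 1) ^ 2) := by
            rw [Finset.mul_sum]
        _ ≤ 2 / g * 2 := by
            apply mul_le_mul_of_nonneg_left (sum_inv_sq_le_two D)
            positivity
    have e9 : (9 : ℚ) / g = 2 / g * 2 + (1 / g + 2 / g * 2) := by ring
    rw [e9]
    have : m0 + 0 = m0 := rfl
    rw [this]
    linarith

/-- the partition of an initial segment of `ℕ` into intervals of given lengths -/
def pos (len : ℕ → ℕ) (k : ℕ) : ℕ := ∑ m ∈ Finset.range k, len m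

theorem pos_succ (len : ℕ → ℕ) (k : ℕ) : pos len (k + 1) = pos len k + len k :=
  Finset.sum_range_succ _ _

theorem pos_mono (len : ℕ → ℕ) {k l : ℕ} (h : k ≤ l) : pos len k ≤ pos len l := by
  induction l, h using Nat.le_induction with
  | base => exact le_rfl
  | succ l _ ih => rw [pos_succ]; omega

theorem exists_idx (len : ℕ → ℕ) (N : ℕ) (t : ℕ) (ht : t < pos len N) :
    ∃ k, k < N ∧ pos len k ≤ t ∧ t < pos len (k + 1) := by
  induction N with
  | zero => simp [pos] at ht
  | succ N ih =>
    by_cases h : t < pos len N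
    · obtain ⟨k, hk, h1, h2⟩ := ih h
      exact ⟨k, by omega, h1, h2⟩
    · exact ⟨N, by omega, by omega, ht⟩

/-- length of the interval containing `t`, and `0` from `pos len N` on -/
noncomputable def ell (len : ℕ → ℕ) (N t : ℕ) : ℕ :=
  open Classical in
  if h : ∃ k, k < N ∧ pos len k ≤ t ∧ t < pos len (k + 1) then len h.choose else 0

theorem idx_unique (len : ℕ → ℕ) (t k l : ℕ) (h1 : pos len k ≤ t) (h2 : t < pos len (k + 1))
    (h3 : pos len l ≤ t) (h4 : t < pos len (l + 1)) : k = l := by
  rcases lt_trichotomy k l with h | h | h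
  · have := pos_mono len (show k + 1 ≤ l by omega)
    omega
  · exact h
  · have := pos_mono len (show l + 1 ≤ k by omega)
    omega

theorem ell_eq (len : ℕ → ℕ) (N t k : ℕ) (hk : k < N) (h1 : pos len k ≤ t)
    (h2 : t < pos len (k + 1)) : ell len N t = len k := by
  unfold ell
  have hex : ∃ k, k < N ∧ pos len k ≤ t ∧ t < pos len (k + 1) := ⟨k, hk, h1, h2⟩
  rw [dif_pos hex]
  have hc := hex.choose_spec
  rw [idx_unique len t _ k hc.2.1 hc.2.2 h1 h2]

theorem ell_zero (len : ℕ → ℕ) (N t : ℕ) (h : pos len N ≤ t) : ell len N t = 0 := by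
  unfold ell
  rw [dif_neg]
  rintro ⟨k, hk, -, h2⟩
  have := pos_mono len (show k + 1 ≤ N by omega)
  omega

theorem sum_ell (len : ℕ → ℕ) (hlen : ∀ m, 0 < len m) (N : ℕ) :
    ∀ k, k ≤ N → ∑ t ∈ Finset.range (pos len k), (1 / (ell len N t : ℚ)) = k := by
  intro k
  induction k with
  | zero => intro _; simp [pos]
  | succ k ih =>
    intro hk
    rw [pos_succ, Finset.sum_range_add, ih (by omega)]
    have : ∑ x ∈ Finset.range (len k), (1 / (ell len N (pos len k + x) : ℚ)) =
        ∑ x ∈ Finset.range (len k), (1 / (len k : ℚ)) := by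
      apply Finset.sum_congr rfl
      intro x hx
      rw [Finset.mem_range] at hx
      rw [ell_eq len N (pos len k + x) k (by omega) (by omega) (by rw [pos_succ]; omega)]
    rw [this, Finset.sum_const, Finset.card_range, nsmul_eq_mul]
    have h0 : (len k : ℚ) ≠ 0 := by
      have := hlen k
      exact_mod_cast this.ne'
    push_cast
    field_simp

theorem sum_range_mul (f : ℕ → ℚ) (M B : ℕ) :
    ∑ t ∈ Finset.range (M * B), f t =
      ∑ ρ ∈ Finset.range M, ∑ m ∈ Finset.range B, f (M * m + ρ) := by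
  induction B with
  | zero => simp
  | succ B ih =>
    rw [Nat.mul_succ, Finset.sum_range_add, ih, ← Finset.sum_add_distrib]
    apply Finset.sum_congr rfl
    intro ρ _
    rw [Finset.sum_range_succ]

/-- The counting lemma. -/
theorem counting (g h N B : ℕ) (hg : 0 < g) (len : ℕ → ℕ)
    (hlen : ∀ m, g ≤ len m) (hB : pos len N ≤ g * h * B) (hBh : B ≤ h)
    (hnot : ∀ k l μ : ℕ, k < l → l < N → 1 ≤ μ → μ ≤ B →
      ¬ (g * h * μ + pos len (k + 1) ≤ pos len l + g * μ ^ 2 ∧
        pos len (l + 1) ≤ pos len k + g * h * μ + g * μ ^ 2)) : N ≤ 9 * h := by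
  have hpos : ∀ m, 0 < len m := fun m => lt_of_lt_of_le hg (hlen m)
  have h1 : ∑ t ∈ Finset.range (g * h * B), (1 / (ell len N t : ℚ)) = N := by
    obtain ⟨D, hD⟩ : ∃ D, g * h * B = pos len N + D := ⟨g * h * B - pos len N, by omega⟩
    rw [hD, Finset.sum_range_add, sum_ell len hpos N N le_rfl]
    have : ∑ x ∈ Finset.range D, (1 / (ell len N (pos len N + x) : ℚ)) = 0 := by
      apply Finset.sum_eq_zero
      intro x _
      rw [ell_zero len N _ (by omega)]
      simp
    rw [this, add_zero]
  rw [sum_range_mul] at h1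
  have h2 : ∀ ρ, ρ < g * h → ∑ m ∈ Finset.range B, (1 / (ell len N (g * h * m + ρ) : ℚ)) ≤
      9 / g := by
    intro ρ hρ
    apply class_sum g hg B (fun m => ell len N (g * h * m + ρ))
    · intro m hm
      by_cases ht : g * h * m + ρ < pos len N
      · right
        obtain ⟨k, hk, h3, h4⟩ := exists_idx len N _ ht
        rw [ell_eq len N _ k hk h3 h4]
        exact hlen k
      · left
        exact ell_zero len N _ (by omega)
    · intro m m' hmm hm' h3 h4
      have ht' : g * h * m' + ρ < pos len N := by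
        by_contra hc
        exact h4 (ell_zero len N _ (by omega))
      have hlt : g * h * m + ρ ≤ g * h * m' + ρ := by
        have := Nat.mul_le_mul_left (g * h) hmm.le
        omega
      obtain ⟨k, hk, h5, h6⟩ := exists_idx len N (g * h * m + ρ) (by omega)
      obtain ⟨l, hl, h7, h8⟩ := exists_idx len N (g * h * m' + ρ) ht'
      rw [ell_eq len N _ k hk h5 h6, ell_eq len N _ l hl h7 h8]
      obtain ⟨μ, rfl⟩ : ∃ μ, m' = m + μ := ⟨m' - m, by omega⟩
      have hμ : 1 ≤ μ := by omega
      have hμB : μ ≤ B := by omega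
      have e : m + μ - m = μ := by omega
      rw [e]
      rw [Nat.mul_add] at h7 h8
      rw [pos_succ] at h6 h8
      rcases lt_trichotomy k l with hkl | hkl | hkl
      · have h9 := hnot k l μ hkl hl hμ hμB
        rw [pos_succ, pos_succ] at h9
        by_contra hc
        apply h9
        constructor <;> omega
      · subst hkl
        have h9 : g * h * μ < len k := by omega
        have h10 : g * μ ^ 2 ≤ g * h * μ := by
          have : μ ≤ h := by omega
          calc g * μ ^ 2 = g * μ * μ := by ring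
            _ ≤ g * h * μ := Nat.mul_le_mul_right _ (Nat.mul_le_mul_left _ this)
        omega
      · have := pos_mono len (show l + 1 ≤ k by omega)
        rw [pos_succ] at this
        omega
  have h3 : (N : ℚ) ≤ (g * h : ℕ) * (9 / g) := by
    rw [← h1]
    calc ∑ ρ ∈ Finset.range (g * h), ∑ m ∈ Finset.range B, (1 / (ell len N (g * h * m + ρ) : ℚ))
        ≤ ∑ ρ ∈ Finset.range (g * h), (9 / g : ℚ) :=
          Finset.sum_le_sum fun ρ hρ => h2 ρ (Finset.mem_range.1 hρ)
      _ = (g * h : ℕ) * (9 / g) := by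
          rw [Finset.sum_const, Finset.card_range, nsmul_eq_mul]
  have hgq : (g : ℚ) ≠ 0 := by exact_mod_cast hg.ne'
  have h4 : ((g * h : ℕ) : ℚ) * (9 / g) = ((9 * h : ℕ) : ℚ) := by
    push_cast
    field_simp
  rw [h4] at h3
  exact_mod_cast h3

end Pool.Agent.helper36.SpanCount
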