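import Mathlib
import Pool.Agent.helper36.SpanCount

set_option autoImplicit false

namespace Pool.Agent.helper36.SpanCorner

open Pool.Agent.helper36.SpanCount

/-- the heights -/
def yy (H q : ℤ) : ℤ := q * (q + H)

/-- lower bound for telescoping sums of differences of a convex function -/
theorem conv_low (H : ℤ) (Q0 : ℤ) (R C : ℕ → ℤ) (k : ℕ) (N : ℕ)
    (hR : ∀ m, m < N → R m ≤ R (m + 1)) (hC : ∀ m, m < N → C m ≤ C (m + 1)) :
    ∀ l, k ≤ l → l ≤ N → R k ≤ R l ∧ C k ≤ C l ∧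
      yy H (Q0 + R k - C k) - yy H (Q0 + R k - C l) ≤
      ∑ m ∈ Finset.Ico k l, (yy H (Q0 + R (m + 1) - C m) - yy H (Q0 + R (m + 1) - C (m + 1))) := by
  intro l hkl
  induction l, hkl using Nat.le_induction with
  | base => intro _; simp
  | succ l hkl ih =>
    intro hN
    obtain ⟨h1, h2, h3⟩ := ih (by omega)
    have h4 := hR l (by omega)
    have h5 := hC l (by omega)
    refine ⟨by omega, by omega, ?_⟩
    rw [Finset.sum_Ico_succ_top (by omega)]
    have h6 : yy H (Q0 + R k - C l) - yy H (Q0 + R k - C (l + 1)) ≤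
        yy H (Q0 + R (l + 1) - C l) - yy H (Q0 + R (l + 1) - C (l + 1)) := by
      unfold yy
      nlinarith [mul_nonneg (show 0 ≤ R (l + 1) - R k by omega) (show 0 ≤ C (l + 1) - C l by omega)]
    linarith

theorem conv_up (H : ℤ) (Q0 : ℤ) (R C : ℕ → ℤ) (k : ℕ) (N : ℕ) (X : ℤ)
    (hC : ∀ m, m < N → C m ≤ C (m + 1)) :
    ∀ l, k ≤ l → l ≤ N → (∀ m, m < l → R (m + 1) ≤ X) →
      ∑ m ∈ Finset.Ico k l, (yy H (Q0 + R (m + 1) - C m) - yy H (Q0 + R (m + 1) - C (m + 1))) ≤
      yy H (Q0 + X - C k) - yy H (Q0 + X - C l) := by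
  intro l hkl
  induction l, hkl using Nat.le_induction with
  | base => intro _ _; simp
  | succ l hkl ih =>
    intro hN hX
    have h3 := ih (by omega) (fun m hm => hX m (by omega))
    have h5 := hC l (by omega)
    have hx := hX l (by omega)
    rw [Finset.sum_Ico_succ_top (by omega)]
    have h6 : yy H (Q0 + R (l + 1) - C l) - yy H (Q0 + R (l + 1) - C (l + 1)) ≤
        yy H (Q0 + X - C l) - yy H (Q0 + X - C (l + 1)) := by
      unfold yy
      nlinarith [mul_nonneg (show 0 ≤ X - R (l + 1) by omega) (show 0 ≤ C (l + 1) - C l by omega)]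
    linarith

theorem mono_of (N : ℕ) (R : ℕ → ℤ) (hR : ∀ m, m < N → R m ≤ R (m + 1)) :
    ∀ k l, k ≤ l → l ≤ N → R k ≤ R l := by
  intro k l hkl
  induction l, hkl using Nat.le_induction with
  | base => intro _; exact le_rfl
  | succ l hkl ih =>
    intro hN
    have := ih (by omega)
    have := hR l (by omega)
    omega

section seq

variable (r c : ℕ → ℕ) (K n H : ℤ) (N : ℕ) (I J : ℕ → ℕ) (Q0 : ℤ) (R C : ℕ → ℤ)

/-- excess at a corner -/
def eps (k : ℕ) : ℤ :=
  (J k : ℤ) - J (k + 1) - (yy H (Q0 + R (k + 1) - C k) - yy H (Q0 + R (k + 1) - C (k + 1)))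

theorem sum_eps (k : ℕ) : ∀ l, k ≤ l →
    (J k : ℤ) - J l = ∑ m ∈ Finset.Ico k l, eps H J Q0 R C m +
      ∑ m ∈ Finset.Ico k l, (yy H (Q0 + R (m + 1) - C m) - yy H (Q0 + R (m + 1) - C (m + 1))) := by
  intro l hkl
  induction l, hkl using Nat.le_induction with
  | base => simp
  | succ l hkl ih =>
    rw [Finset.sum_Ico_succ_top (by omega), Finset.sum_Ico_succ_top (by omega)]
    unfold eps at ih ⊢
    linarith

/-- the data of a long backward path with `N` corners -/
structure Path : Prop where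
  hn : 0 < n
  hS : ∀ i j : ℕ, ∀ q : ℤ, 1 ≤ q → q ≤ K → (i : ℤ) + r j < n * (K + 1 - q) →
    yy H q ≤ j + c i
  hR : ∀ m, m < N → R m ≤ R (m + 1)
  hC : ∀ m, m < N → C m ≤ C (m + 1)
  ha : ∀ k, k ≤ N → (c (I k) : ℤ) + J k + 1 = yy H (Q0 + R k - C k)
  hb : ∀ k, k < N → (r (J k) : ℤ) + I (k + 1) + 1 = n * (K + 1 - (Q0 + R (k + 1) - C k))
  hd : ∀ k, k < N → 1 ≤ eps H J Q0 R C k
  hQ1 : ∀ k, k ≤ N → 1 ≤ Q0 + R k - C k
  hQK : ∀ k, k ≤ N → Q0 + R k - C k ≤ K

variable {r c K n H N I J Q0 R C}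

theorem K1 (P : Path r c K n H N I J Q0 R C) (k l : ℕ) (hkl : k ≤ l) (hl : l < N) (μ : ℤ)
    (hμ : 0 ≤ μ)
    (hv : -H ≤ Q0 + R k - C l - μ)
    (hφ : ((I k : ℤ) + n * R k) - (I (l + 1) + n * R (l + 1)) ≤ n * μ) :
    ∑ m ∈ Finset.Ico k l, eps H J Q0 R C m ≤
      μ * (2 * (Q0 + R k - C l) + H) - μ ^ 2 - 1 := by
  obtain ⟨h1, h2, h3⟩ := conv_low H Q0 R C k N P.hR P.hC l hkl (by omega)
  have h4 := sum_eps (H := H) (J := J) (Q0 := Q0) (R := R) (C := C) k l hkl
  have hak := P.ha k (by omega)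
  have hbl := P.hb l hl
  have hqk := P.hQK k (by omega)
  have h5 : yy H (Q0 + R k - C l - μ) ≤ (J l : ℤ) + c (I k) := by
    by_cases hq : 1 ≤ Q0 + R k - C l - μ
    · apply P.hS (I k) (J l) _ hq (by omega)
      have : (I k : ℤ) + r (J l) = (((I k : ℤ) + n * R k) - (I (l + 1) + n * R (l + 1))) +
          n * (K + 1 - (Q0 + R k - C l)) - 1 := by
        have e : (r (J l) : ℤ) = n * (K + 1 - (Q0 + R (l + 1) - C l)) - I (l + 1) - 1 := by
          linarith
        rw [e]
        ring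
      rw [this]
      have e2 : n * (K + 1 - (Q0 + R k - C l - μ)) = n * μ + n * (K + 1 - (Q0 + R k - C l)) := by
        ring
      rw [e2]
      linarith
    · have hq0 : Q0 + R k - C l - μ ≤ 0 := by omega
      have : yy H (Q0 + R k - C l - μ) ≤ 0 := by
        unfold yy
        apply mul_nonpos_of_nonpos_of_nonneg hq0
        omega
      have h6 : (0 : ℤ) ≤ (J l : ℤ) + c (I k) := by positivity
      linarith
  have h7 : yy H (Q0 + R k - C l) - yy H (Q0 + R k - C l - μ) =
      μ * (2 * (Q0 + R k - C l) + H) - μ ^ 2 := by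
    unfold yy
    ring
  linarith

theorem K2 (P : Path r c K n H N I J Q0 R C) (k l : ℕ) (hkl : k < l) (hl : l ≤ N) (μ : ℤ)
    (hμ : 0 ≤ μ)
    (hφ : n * μ ≤ ((I (k + 1) : ℤ) + n * R (k + 1)) - (I l + n * R l)) :
    μ * (2 * (Q0 + R l - C k) + H) + μ ^ 2 + 1 ≤ ∑ m ∈ Finset.Ico k l, eps H J Q0 R C m ∧
    Q0 + R l - C k + μ ≤ K := by
  have h1 := mono_of N R P.hR
  have h2 := conv_up H Q0 R C k N (R l) P.hC l hkl.le hl (fun m hm => h1 (m + 1) l (by omega) hl)
  have h4 := sum_eps (H := H) (J := J) (Q0 := Q0) (R := R) (C := C) k l hkl.le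
  have hal := P.ha l hl
  have hbk := P.hb k (by omega)
  have hqk := P.hQ1 k (by omega)
  have hRkl := h1 k l hkl.le hl
  have hn := P.hn
  have hval : (I l : ℤ) + r (J k) = - (((I (k + 1) : ℤ) + n * R (k + 1)) - (I l + n * R l)) +
      n * (K + 1 - (Q0 + R l - C k)) - 1 := by
    have e : (r (J k) : ℤ) = n * (K + 1 - (Q0 + R (k + 1) - C k)) - I (k + 1) - 1 := by
      linarith
    rw [e]
    ring
  have e2 : n * (K + 1 - (Q0 + R l - C k + μ)) = - (n * μ) + n * (K + 1 - (Q0 + R l - C k)) := by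
    ring
  have hlt : (I l : ℤ) + r (J k) < n * (K + 1 - (Q0 + R l - C k + μ)) := by
    rw [hval, e2]
    linarith
  have hqK : Q0 + R l - C k + μ ≤ K := by
    by_contra hc
    have h5 : K + 1 - (Q0 + R l - C k + μ) ≤ 0 := by omega
    have h6 : n * (K + 1 - (Q0 + R l - C k + μ)) ≤ 0 :=
      mul_nonpos_of_nonneg_of_nonpos hn.le h5
    have h7 : (0 : ℤ) ≤ (I l : ℤ) + r (J k) := by positivity
    linarith
  refine ⟨?_, hqK⟩
  have h5 := P.hS (I l) (J k) _ (by omega) hqK hlt
  have h7 : yy H (Q0 + R l - C k + μ) - yy H (Q0 + R l - C k) =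
      μ * (2 * (Q0 + R l - C k) + H) + μ ^ 2 := by
    unfold yy
    ring
  linarith

/-- weights -/
def ww (H M q : ℤ) : ℤ := M / (2 * q + H)

theorem ww_mul (H : ℤ) (h : ℕ) (q : ℤ) (h1 : 0 < 2 * q + H) (h2 : 2 * q + H ≤ h) :
    (2 * q + H) * ww H ((Nat.factorial h : ℕ) : ℤ) q = (Nat.factorial h : ℕ) := by
  unfold ww
  apply Int.mul_ediv_cancel'
  obtain ⟨a, ha⟩ : ∃ a : ℕ, (a : ℤ) = 2 * q + H := ⟨(2 * q + H).toNat, by omega⟩
  rw [← ha]
  have : a ∣ Nat.factorial h := Nat.dvd_factorial (by omega) (by omega)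
  exact_mod_cast this

theorem ww_anti (H : ℤ) (h : ℕ) (q q' : ℤ) (h1 : 0 < 2 * q + H) (hq : q ≤ q')
    (h2 : 2 * q' + H ≤ h) :
    ww H ((Nat.factorial h : ℕ) : ℤ) q' ≤ ww H ((Nat.factorial h : ℕ) : ℤ) q := by
  have e1 := ww_mul H h q h1 (by omega)
  have e2 := ww_mul H h q' (by omega) h2
  have hM : (0 : ℤ) < ((Nat.factorial h : ℕ) : ℤ) := by exact_mod_cast Nat.factorial_pos h
  by_contra hc
  push Not at hc
  have h3 : 0 < ww H ((Nat.factorial h : ℕ) : ℤ) q := by
    by_contra h4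
    push Not at h4
    have := mul_nonpos_of_nonneg_of_nonpos h1.le h4
    linarith
  nlinarith

theorem sum_weighted (e w : ℕ → ℤ) (W : ℤ) (k l : ℕ) (he : ∀ m, k ≤ m → m < l → 0 ≤ e m)
    (hw : ∀ m, k ≤ m → m < l → w m ≤ W) :
    ∑ m ∈ Finset.Ico k l, e m * w m ≤ W * ∑ m ∈ Finset.Ico k l, e m := by
  rw [Finset.mul_sum]
  apply Finset.sum_le_sum
  intro m hm
  rw [Finset.mem_Ico] at hm
  rw [mul_comm W]
  exact mul_le_mul_of_nonneg_left (hw m hm.1 hm.2) (he m hm.1 hm.2)

theorem sum_weighted' (e w : ℕ → ℤ) (W : ℤ) (k l : ℕ) (he : ∀ m, k ≤ m → m < l → 0 ≤ e m)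
    (hw : ∀ m, k ≤ m → m < l → W ≤ w m) :
    W * ∑ m ∈ Finset.Ico k l, e m ≤ ∑ m ∈ Finset.Ico k l, e m * w m := by
  rw [Finset.mul_sum]
  apply Finset.sum_le_sum
  intro m hm
  rw [Finset.mem_Ico] at hm
  rw [mul_comm W]
  exact mul_le_mul_of_nonneg_left (hw m hm.1 hm.2) (he m hm.1 hm.2)

/-- The number of corners is bounded. -/
theorem corners_le (κ : ℕ) (hκ : 1 ≤ κ) (P : Path r c κ n (6 * κ) N I J Q0 R C)
    (hR0 : R 0 = 0) (hC0 : C 0 = 0)
    (hRb : ∀ k, k ≤ N → R k ≤ κ) : N ≤ 72 * κ := by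
  set H : ℤ := 6 * κ with hH
  obtain ⟨h, hh⟩ : ∃ h : ℕ, h = 8 * κ := ⟨_, rfl⟩
  obtain ⟨g, hg⟩ : ∃ g : ℕ, g = Nat.factorial (h - 1) := ⟨_, rfl⟩
  have hgpos : 0 < g := by rw [hg]; exact Nat.factorial_pos _
  have hMgh : Nat.factorial h = g * h := by
    rw [hg, mul_comm, Nat.mul_factorial_pred (by omega)]
  have hRm := mono_of N R P.hR
  have hCm := mono_of N C P.hC
  have hC2 : ∀ k, k ≤ N → C k ≤ 2 * κ := by
    intro k hk
    have h1 := P.hQ1 k hk
    have h2 := hRb k hk
    have h3 := P.hQK 0 (by omega)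
    rw [hR0, hC0] at h3
    omega
  have hRn : ∀ k, k ≤ N → 0 ≤ R k := fun k hk => by
    have := hRm 0 k (by omega) hk
    omega
  have hCn : ∀ k, k ≤ N → 0 ≤ C k := fun k hk => by
    have := hCm 0 k (by omega) hk
    omega
  have hQ0 : 1 ≤ Q0 := by
    have := P.hQ1 0 (by omega)
    rw [hR0, hC0] at this
    omega
  -- weights
  let w : ℕ → ℤ := fun m => ww H ((Nat.factorial h : ℕ) : ℤ) (Q0 + R m - C m)
  have hhz : (h : ℤ) = 8 * κ := by rw [hh]; push_cast; ring
  have hw_ge : ∀ q : ℤ, 0 < 2 * q + H → q ≤ κ →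
      (g : ℤ) ≤ ww H ((Nat.factorial h : ℕ) : ℤ) q := by
    intro q hq1 hq2
    have h1 := ww_anti H h q κ hq1 hq2 (by omega)
    have h2 := ww_mul H h κ (by omega) (by omega)
    have h3 : (2 * (κ : ℤ) + H) = h := by omega
    rw [h3, hMgh] at h2
    rw [hMgh] at h1 ⊢
    push_cast at h1 h2 ⊢
    have hhpos : (0 : ℤ) < h := by omega
    have h4 : ww H ((g : ℤ) * h) κ = g := by
      have : (h : ℤ) * ww H ((g : ℤ) * h) κ = h * g := by linarith
      exact mul_left_cancel₀ hhpos.ne' this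
    linarith
  let len : ℕ → ℕ := fun m => if m < N then (eps H J Q0 R C m * w m).toNat else g
  have hlen_eq : ∀ m, m < N → ((len m : ℕ) : ℤ) = eps H J Q0 R C m * w m := by
    intro m hm
    have h1 := P.hd m hm
    have h2 := hw_ge (Q0 + R m - C m) (by have := P.hQ1 m hm.le; omega) (P.hQK m hm.le)
    have h3 : 0 ≤ eps H J Q0 R C m * w m := by
      apply mul_nonneg (by omega)
      have : (0 : ℤ) ≤ g := by positivity
      exact le_trans this h2
    simp only [len, if_pos hm]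
    exact Int.toNat_of_nonneg h3
  have hlen : ∀ m, g ≤ len m := by
    intro m
    by_cases hm : m < N
    · have h0 := hlen_eq m hm
      have h1 := P.hd m hm
      have h2 := hw_ge (Q0 + R m - C m) (by have := P.hQ1 m hm.le; omega) (P.hQK m hm.le)
      have h3 : (g : ℤ) ≤ len m := by
        rw [h0]
        have hg0 : (0 : ℤ) ≤ g := by positivity
        have hw0 : (0 : ℤ) ≤ w m := le_trans hg0 h2
        calc (g : ℤ) ≤ 1 * w m := by rw [one_mul]; exact h2
          _ ≤ eps H J Q0 R C m * w m := mul_le_mul_of_nonneg_right h1 hw0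
      exact_mod_cast h3
    · simp [len, hm]
  have hpos : ∀ k l, k ≤ l → l ≤ N → (pos len l : ℤ) - pos len k =
      ∑ m ∈ Finset.Ico k l, eps H J Q0 R C m * w m := by
    intro k l hkl
    induction l, hkl using Nat.le_induction with
    | base => intro _; simp
    | succ l hkl ih =>
      intro hN
      rw [Finset.sum_Ico_succ_top (by omega), ← ih (by omega), pos_succ, ← hlen_eq l (by omega)]
      push_cast
      ring
  have hyy0 : ∀ k, k < N → 0 ≤ yy H (Q0 + R (k + 1) - C k) - yy H (Q0 + R (k + 1) - C (k + 1)) := by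
    intro k hk
    have h1 := P.hQ1 (k + 1) (by omega)
    have h2 := P.hC k hk
    unfold yy
    have h3 : 0 ≤ C (k + 1) - C k := by omega
    have h4 : (Q0 + R (k + 1) - C k) * (Q0 + R (k + 1) - C k + H) -
        (Q0 + R (k + 1) - C (k + 1)) * (Q0 + R (k + 1) - C (k + 1) + H) =
        (C (k + 1) - C k) * ((Q0 + R (k + 1) - C k) + (Q0 + R (k + 1) - C (k + 1)) + H) := by
      ring
    rw [h4]
    apply mul_nonneg h3
    omega
  -- total length
  have htot : pos len N ≤ g * h * (2 * κ) := by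
    have h1 := hpos 0 N (by omega) le_rfl
    have h2 : (pos len 0 : ℤ) = 0 := by simp [pos]
    have hWH := ww_mul H h 0 (by omega) (by omega)
    have h3 := sum_weighted (fun m => eps H J Q0 R C m) w (ww H ((Nat.factorial h : ℕ) : ℤ) 0) 0 N
      (fun m _ hm => by have := P.hd m hm; omega)
      (fun m _ hm => ww_anti H h 0 _ (by omega) (by have := P.hQ1 m hm.le; omega)
        (by have := P.hQK m hm.le; omega))
    have h4 := sum_eps (H := H) (J := J) (Q0 := Q0) (R := R) (C := C) 0 N (by omega)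
    have h5 : 0 ≤ ∑ m ∈ Finset.Ico 0 N,
        (yy H (Q0 + R (m + 1) - C m) - yy H (Q0 + R (m + 1) - C (m + 1))) :=
      Finset.sum_nonneg fun m hm => hyy0 m (Finset.mem_Ico.1 hm).2
    have h6 := P.ha 0 (by omega)
    have h7 : yy H (Q0 + R 0 - C 0) ≤ 7 * κ * κ := by
      have h8 := P.hQK 0 (by omega)
      rw [hR0, hC0] at h8 ⊢
      unfold yy
      rw [hH]
      nlinarith
    have h8 : ∑ m ∈ Finset.Ico 0 N, eps H J Q0 R C m ≤ 7 * κ * κ := by
      have : (0 : ℤ) ≤ J N := by positivity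
      have : (0 : ℤ) ≤ c (I 0) := by positivity
      linarith
    have h9 : (pos len N : ℤ) ≤ (g * h * (2 * κ) : ℕ) := by
      have h10 : (0 : ℤ) ≤ ww H ((Nat.factorial h : ℕ) : ℤ) 0 := by
        have := hw_ge 0 (by omega) (by omega)
        have : (0 : ℤ) ≤ g := by positivity
        linarith
      have h11 : (pos len N : ℤ) ≤ ww H ((Nat.factorial h : ℕ) : ℤ) 0 * (7 * κ * κ) := by
        have := mul_le_mul_of_nonneg_left h8 h10
        linarith
      have h12 : (2 * 0 + H) * ww H ((Nat.factorial h : ℕ) : ℤ) 0 = g * h := by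
        rw [hWH, hMgh]
        push_cast
        ring
      rw [hH] at h12
      have h13 : ww H ((Nat.factorial h : ℕ) : ℤ) 0 * (7 * κ * κ) ≤
          ((2 * 0 + 6 * (κ : ℤ)) * ww H ((Nat.factorial h : ℕ) : ℤ) 0) * (2 * κ) := by
        have h14 : (0 : ℤ) ≤ (κ : ℤ) * κ * ww H ((Nat.factorial h : ℕ) : ℤ) 0 :=
          mul_nonneg (by positivity) h10
        nlinarith
      rw [hH] at h11 h13
      rw [h12] at h13
      push_cast
      linarith
    exact_mod_cast h9
  have hfin := counting g h N (2 * κ) hgpos len hlen htot (by omega) ?_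
  · omega
  · intro k l μ hkl hlN hμ1 hμB ⟨hA, hB⟩
    have hMz : ((Nat.factorial h : ℕ) : ℤ) = g * h := by rw [hMgh]; push_cast; ring
    rcases le_total (((I (k + 1) : ℤ) + n * R (k + 1)) - (I (l + 1) + n * R (l + 1)))
      (n * (μ : ℤ)) with hφ | hφ
    · -- K1 at (k+1, l)
      have hRk := hRn (k + 1) (by omega)
      have hCl := hC2 l (by omega)
      have hv1 : -H ≤ Q0 + R (k + 1) - C l - μ := by omega
      have h1 := K1 P (k + 1) l (by omega) hlN μ (by positivity) hv1 hφ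
      have hvpos : 0 < 2 * (Q0 + R (k + 1) - C l) + H := by omega
      have hvk : Q0 + R (k + 1) - C l ≤ κ := by
        have := P.hQK (k + 1) (by omega)
        have := hCm (k + 1) l (by omega) (by omega)
        omega
      have h2 := sum_weighted (fun m => eps H J Q0 R C m) w
        (ww H ((Nat.factorial h : ℕ) : ℤ) (Q0 + R (k + 1) - C l)) (k + 1) l
        (fun m _ hm => by have := P.hd m (by omega); omega)
        (fun m hm1 hm2 => ww_anti H h _ _ hvpos (by
          have := hRm (k + 1) m hm1 (by omega)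
          have := hCm m l (by omega) (by omega)
          omega) (by have := P.hQK m (by omega); omega))
      have h3 := hpos (k + 1) l (by omega) (by omega)
      have h4 := ww_mul H h (Q0 + R (k + 1) - C l) hvpos (by omega)
      have h5 := hw_ge (Q0 + R (k + 1) - C l) hvpos hvk
      set W := ww H ((Nat.factorial h : ℕ) : ℤ) (Q0 + R (k + 1) - C l) with hW
      have hW0 : 0 ≤ W := by
        have : (0 : ℤ) ≤ g := by positivity
        linarith
      have h6 : (pos len l : ℤ) - pos len (k + 1) ≤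
          W * (μ * (2 * (Q0 + R (k + 1) - C l) + H) - (μ : ℤ) ^ 2 - 1) := by
        rw [h3]
        exact le_trans h2 (mul_le_mul_of_nonneg_left h1 hW0)
      have h7 : W * (μ * (2 * (Q0 + R (k + 1) - C l) + H) - (μ : ℤ) ^ 2 - 1) =
          (g * h) * μ - W * ((μ : ℤ) ^ 2 + 1) := by
        have : (2 * (Q0 + R (k + 1) - C l) + H) * W = g * h := by rw [h4, hMz]
        linear_combination (μ : ℤ) * this
      have h8 : (g : ℤ) * ((μ : ℤ) ^ 2 + 1) ≤ W * ((μ : ℤ) ^ 2 + 1) :=
        mul_le_mul_of_nonneg_right h5 (by positivity)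
      have h9 : ((g * h * μ + pos len (k + 1) : ℕ) : ℤ) ≤ ((pos len l + g * μ ^ 2 : ℕ) : ℤ) := by
        exact_mod_cast hA
      push_cast at h9
      have h10 : (0 : ℤ) < g := by exact_mod_cast hgpos
      nlinarith
    · -- K2 at (k, l+1)
      obtain ⟨h1, hV⟩ := K2 P k (l + 1) (by omega) (by omega) μ (by positivity) hφ
      have hVpos : 0 < 2 * (Q0 + R (l + 1) - C k) + H := by
        have := P.hQ1 k (by omega)
        have := hRm k (l + 1) (by omega) (by omega)
        omega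
      have h2 := sum_weighted' (fun m => eps H J Q0 R C m) w
        (ww H ((Nat.factorial h : ℕ) : ℤ) (Q0 + R (l + 1) - C k)) k (l + 1)
        (fun m _ hm => by have := P.hd m (by omega); omega)
        (fun m hm1 hm2 => ww_anti H h _ _ (by have := P.hQ1 m (by omega); omega) (by
          have := hRm m (l + 1) (by omega) (by omega)
          have := hCm k m (by omega) (by omega)
          omega) (by omega))
      have h3 := hpos k (l + 1) (by omega) (by omega)
      have h4 := ww_mul H h (Q0 + R (l + 1) - C k) hVpos (by omega)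
      have h5 := hw_ge (Q0 + R (l + 1) - C k) hVpos (by omega)
      set W := ww H ((Nat.factorial h : ℕ) : ℤ) (Q0 + R (l + 1) - C k) with hW
      have hW0 : 0 ≤ W := by
        have : (0 : ℤ) ≤ g := by positivity
        linarith
      have h6 : W * (μ * (2 * (Q0 + R (l + 1) - C k) + H) + (μ : ℤ) ^ 2 + 1) ≤
          (pos len (l + 1) : ℤ) - pos len k := by
        rw [h3]
        exact le_trans (mul_le_mul_of_nonneg_left h1 hW0) h2
      have h7 : W * (μ * (2 * (Q0 + R (l + 1) - C k) + H) + (μ : ℤ) ^ 2 + 1) =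
          (g * h) * μ + W * ((μ : ℤ) ^ 2 + 1) := by
        have : (2 * (Q0 + R (l + 1) - C k) + H) * W = g * h := by rw [h4, hMz]
        linear_combination (μ : ℤ) * this
      have h8 : (g : ℤ) * ((μ : ℤ) ^ 2 + 1) ≤ W * ((μ : ℤ) ^ 2 + 1) :=
        mul_le_mul_of_nonneg_right h5 (by positivity)
      have h9 : ((pos len (l + 1) : ℕ) : ℤ) ≤ ((pos len k + g * h * μ + g * μ ^ 2 : ℕ) : ℤ) := by
        exact_mod_cast hB
      push_cast at h9
      have h10 : (0 : ℤ) < g := by exact_mod_cast hgpos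
      nlinarith

end seq

end Pool.Agent.helper36.SpanCorner
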