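import Mathlib
import Pool.Agent.helper36.SpanCorner

set_option autoImplicit false

namespace Pool.Agent.helper36.SpanPath

open Pool.Agent.helper36.SpanCorner

/-- The two properties of the dynamics which are used: spanning, and one backward step. -/
structure Dyn (r c : ℕ → ℕ) (κ : ℕ) (U : ℕ → ℕ → ℕ → Prop) : Prop where
  hκ : 1 ≤ κ
  hS : ∀ i j : ℕ, ∀ q : ℤ, 1 ≤ q → q ≤ κ → (i : ℤ) + r j < (6 * κ) * (κ + 1 - q) →
    yy (6 * κ) q ≤ j + c i
  hU : ∀ t i j, U (t + 1) i j → ∃ q : ℤ, ∃ a b : ℕ, 1 ≤ q ∧ q ≤ κ ∧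
    (a : ℤ) + r j < (6 * κ) * (κ + 1 - q) ∧ (b : ℤ) + c i < yy (6 * κ) q ∧
    (∀ i', a ≤ i' → U t i' j) ∧ (∀ j', b ≤ j' → U t i j')

def Valid (r c : ℕ → ℕ) (κ : ℕ) (i j : ℕ) (q : ℤ) : Prop :=
  (6 * (κ : ℤ)) * (κ - q) ≤ i + r j ∧ yy (6 * κ) q ≤ j + c i ∧ 0 ≤ q ∧ q ≤ κ

section

variable {r c : ℕ → ℕ} {κ : ℕ} {U : ℕ → ℕ → ℕ → Prop}

theorem yy_mono (H : ℤ) (hH : 0 ≤ H) (q q' : ℤ) (h0 : 0 ≤ q) (h : q ≤ q') : yy H q ≤ yy H q' := by
  unfold yy
  nlinarith [mul_nonneg h0 (show 0 ≤ q' - q by omega), mul_nonneg hH (show 0 ≤ q' - q by omega),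
    mul_nonneg (show 0 ≤ q' - q by omega) (show 0 ≤ q' - q by omega)]

theorem yy_lt (H : ℤ) (hH : 0 ≤ H) (q : ℤ) (h0 : 1 ≤ q) : yy H (q - 1) ≤ yy H q - 1 := by
  unfold yy
  nlinarith

theorem step (D : Dyn r c κ U) {t i j : ℕ} {q : ℤ} (hu : U (t + 1) i j)
    (hv : Valid r c κ i j q) :
    (∃ i' : ℕ, i' < i ∧ U t i' j ∧ (i' : ℤ) + r j + 1 = (6 * κ) * (κ - q) ∧
      Valid r c κ i' j (q + 1)) ∨
    (∃ j' : ℕ, j' < j ∧ U t i j' ∧ (j' : ℤ) + c i + 1 = yy (6 * κ) q ∧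
      Valid r c κ i j' (q - 1)) := by
  obtain ⟨p, a, b, hp1, hpκ, ha, hb, hUa, hUb⟩ := D.hU t i j hu
  obtain ⟨hv1, hv2, hv3, hv4⟩ := hv
  have hκ : (1 : ℤ) ≤ κ := by exact_mod_cast D.hκ
  by_cases hpq : p ≤ q
  · right
    have h1 := yy_mono (6 * κ) (by positivity) p q (by omega) hpq
    obtain ⟨j', hj'⟩ : ∃ j' : ℕ, (j' : ℤ) = yy (6 * κ) q - 1 - c i :=
      ⟨(yy (6 * κ) q - 1 - c i).toNat, by omega⟩
    refine ⟨j', by omega, hUb j' (by omega), by omega, ?_, ?_, by omega, by omega⟩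
    · by_contra hc
      push Not at hc
      have h2 := D.hS i j' q (by omega) hv4 (by
        have e : (6 * (κ : ℤ)) * (κ - (q - 1)) = (6 * κ) * (κ + 1 - q) := by ring
        rw [e] at hc
        exact hc)
      omega
    · have h2 := yy_lt (6 * κ) (by positivity) q (by omega)
      omega
  · left
    have h1 : (6 * (κ : ℤ)) * (κ + 1 - p) ≤ (6 * κ) * (κ - q) := by
      apply mul_le_mul_of_nonneg_left _ (by positivity)
      omega
    obtain ⟨i', hi'⟩ : ∃ i' : ℕ, (i' : ℤ) = (6 * κ) * (κ - q) - 1 - r j :=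
      ⟨((6 * κ) * (κ - q) - 1 - r j).toNat, by omega⟩
    have h3 : (6 * (κ : ℤ)) * (κ - (q + 1)) = (6 * κ) * (κ - q) - 6 * κ := by ring
    refine ⟨i', by omega, hUa i' (by omega), by omega, ?_, ?_, by omega, by omega⟩
    · rw [h3]
      omega
    · apply D.hS i' j (q + 1) (by omega) (by omega)
      have e : (6 * (κ : ℤ)) * (κ + 1 - (q + 1)) = (6 * κ) * (κ - q) := by ring
      rw [e]
      omega

theorem exists_level (D : Dyn r c κ U) (i j : ℕ) : ∃ q : ℤ, Valid r c κ i j q := by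
  classical
  have hex : ∃ q : ℕ, (6 * (κ : ℤ)) * (κ - q) ≤ i + r j := ⟨κ, by
    have : (κ : ℤ) - κ = 0 := by ring
    rw [this, mul_zero]
    positivity⟩
  have h1 := Nat.find_spec hex
  have h2 := fun m (hm : m < Nat.find hex) => Nat.find_min hex hm
  set q := Nat.find hex
  have hqκ : q ≤ κ := by
    by_contra hc
    push Not at hc
    apply h2 κ hc
    have : (κ : ℤ) - κ = 0 := by ring
    rw [this, mul_zero]
    positivity
  refine ⟨q, h1, ?_, by positivity, by exact_mod_cast hqκ⟩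
  by_cases hq0 : q = 0
  · rw [hq0]
    unfold yy
    simp only [Nat.cast_zero, zero_mul]
    positivity
  · apply D.hS i j q (by omega) (by exact_mod_cast hqκ)
    have h3 := h2 (q - 1) (by omega)
    push Not at h3
    have e : (6 * (κ : ℤ)) * (κ - ((q - 1 : ℕ) : ℤ)) = (6 * κ) * (κ + 1 - q) := by
      rw [Nat.cast_sub (by omega)]
      push_cast
      ring
    rw [e] at h3
    exact h3

/-- R-run -/
theorem rrun (D : Dyn r c κ U) (d : ℕ) : ∀ (q : ℤ) (t i j : ℕ), κ - q = d → 1 ≤ q → U t i j →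
    Valid r c κ i j q → (i : ℤ) + r j + 1 = (6 * κ) * (κ + 1 - q) → d + 1 ≤ t →
    ∃ s t' i' j' : ℕ, s ≤ d ∧ t' + s + 1 = t ∧ U t' i' j' ∧
      (i' : ℤ) + r j + 1 = (6 * κ) * (κ + 1 - q - s) ∧ j' < j ∧
      (j' : ℤ) + c i' + 1 = yy (6 * κ) (q + s) ∧ Valid r c κ i' j' (q + s - 1) := by
  induction d with
  | zero =>
    intro q t i j hd hq hu hv he ht
    obtain ⟨t, rfl⟩ : ∃ t0, t = t0 + 1 := ⟨t - 1, by omega⟩
    rcases step D hu hv with ⟨i', -, -, -, hv'⟩ | ⟨j', h1, h2, h3, h4⟩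
    · have := hv'.2.2.2
      omega
    · exact ⟨0, t, i, j', le_rfl, rfl, h2, by simpa using he, h1, by simpa using h3,
        by simpa using h4⟩
  | succ d ih =>
    intro q t i j hd hq hu hv he ht
    obtain ⟨t, rfl⟩ : ∃ t0, t = t0 + 1 := ⟨t - 1, by omega⟩
    rcases step D hu hv with ⟨i', h1, h2, h3, h4⟩ | ⟨j', h1, h2, h3, h4⟩
    · obtain ⟨s, t', i'', j'', hs, h5, h6, h7, h8, h9, h10⟩ :=
        ih (q + 1) t i' j (by push_cast at hd; omega) (by omega) h2 h4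
          (by rw [h3]; ring) (by omega)
      refine ⟨s + 1, t', i'', j'', by omega, by omega, h6, ?_, h8, ?_, ?_⟩
      · rw [h7]
        push_cast
        ring
      · rw [h9]
        push_cast
        congr 1
        ring
      · have e : q + ((s + 1 : ℕ) : ℤ) - 1 = q + 1 + s - 1 := by push_cast; ring
        rw [e]
        exact h10
    · exact ⟨0, t, i, j', by omega, rfl, h2, by simpa using he, h1, by simpa using h3,
        by simpa using h4⟩

/-- C-run -/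
theorem crun (D : Dyn r c κ U) (q : ℕ) : ∀ (t i j : ℕ), U t i j → Valid r c κ i j q →
    q + 1 ≤ t →
    ∃ s t' i' j' : ℕ, s ≤ q ∧ t' + s + 1 = t ∧ U t' i' j' ∧ i' < i ∧
      (i' : ℤ) + r j' + 1 = (6 * κ) * (κ - (q - s)) ∧ Valid r c κ i' j' (q - s + 1) ∧
      ((s = 0 ∧ j' = j) ∨ (j' : ℤ) + c i + 1 = yy (6 * κ) (q - s + 1)) := by
  induction q with
  | zero =>
    intro t i j hu hv ht
    obtain ⟨t, rfl⟩ : ∃ t0, t = t0 + 1 := ⟨t - 1, by omega⟩
    rcases step D hu hv with ⟨i', h1, h2, h3, h4⟩ | ⟨j', -, -, -, h4⟩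
    · exact ⟨0, t, i', j, le_rfl, rfl, h2, h1, by simpa using h3, by simpa using h4,
        Or.inl ⟨rfl, rfl⟩⟩
    · have := h4.2.2.1
      simp at this
  | succ q ih =>
    intro t i j hu hv ht
    obtain ⟨t, rfl⟩ : ∃ t0, t = t0 + 1 := ⟨t - 1, by omega⟩
    rcases step D hu hv with ⟨i', h1, h2, h3, h4⟩ | ⟨j', h1, h2, h3, h4⟩
    · refine ⟨0, t, i', j, by omega, rfl, h2, h1, ?_, ?_, Or.inl ⟨rfl, rfl⟩⟩
      · rw [h3]; push_cast; ring
      · have e : (((q + 1 : ℕ) : ℤ) - ((0 : ℕ) : ℤ) + 1) = ((q + 1 : ℕ) : ℤ) + 1 := by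
          push_cast; ring
        rw [e]
        exact h4
    · have e0 : (((q + 1 : ℕ) : ℤ) - 1) = (q : ℤ) := by push_cast; ring
      rw [e0] at h4
      obtain ⟨s, t', i'', j'', hs, h5, h6, h7, h8, h9, h10⟩ := ih t i j' h2 h4 (by omega)
      refine ⟨s + 1, t', i'', j'', by omega, by omega, h6, h7, ?_, ?_, Or.inr ?_⟩
      · rw [h8]; push_cast; ring
      · have e : (((q + 1 : ℕ) : ℤ) - ((s + 1 : ℕ) : ℤ) + 1) = (q : ℤ) - s + 1 := by
          push_cast; ring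
        rw [e]
        exact h9
      · have e : (((q + 1 : ℕ) : ℤ) - ((s + 1 : ℕ) : ℤ) + 1) = (q : ℤ) - s + 1 := by
          push_cast; ring
        rw [e]
        rcases h10 with ⟨h10, h11⟩ | h10
        · subst h10
          subst h11
          rw [h3]
          simp
        · exact h10

/-- state right after the first R-move at a corner -/
structure RS (r c : ℕ → ℕ) (κ : ℕ) (U : ℕ → ℕ → ℕ → Prop) (t i i1 j : ℕ) (Q : ℤ) : Prop where
  hu : U t i1 j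
  hlt : i1 < i
  hc : (c i : ℤ) + j + 1 = yy (6 * κ) Q
  hr : (i1 : ℤ) + r j + 1 = (6 * κ) * (κ + 1 - Q)
  hv : Valid r c κ i1 j Q
  hQ : 1 ≤ Q

theorem trans (D : Dyn r c κ U) {t i i1 j : ℕ} {Q : ℤ} (h : RS r c κ U t i i1 j Q)
    (ht : 2 * κ + 2 ≤ t) :
    ∃ s s' t' i' i1' j' : ℕ, ∃ Q' : ℤ, RS r c κ U t' i' i1' j' Q' ∧ t' + s + s' + 2 = t ∧
      Q' + s' = Q + s ∧ (r j : ℤ) + i' + 1 = (6 * κ) * (κ + 1 - (Q + s)) ∧
      (i' : ℤ) + (6 * κ) * s + 1 ≤ i ∧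
      (j' : ℤ) + yy (6 * κ) (Q + s) - yy (6 * κ) Q' + 1 ≤ j := by
  have hQκ := h.hv.2.2.2
  have hQ1 := h.hQ
  obtain ⟨s, t1, i', j1, hs, h1, h2, h3, h4, h5, h6⟩ :=
    rrun D (κ - Q).toNat Q t i1 j (by omega) h.hQ h.hu h.hv h.hr (by omega)
  obtain ⟨q, hq⟩ : ∃ q : ℕ, (q : ℤ) = Q + s - 1 := ⟨(Q + s - 1).toNat, by omega⟩
  rw [← hq] at h6
  have hqκ := h6.2.2.2
  obtain ⟨s', t', i1', j', hs', h7, h8, h9, h10, h11, h12⟩ :=
    crun D q t1 i' j1 h2 h6 (by omega)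
  have hc' : (c i' : ℤ) + j' + 1 = yy (6 * κ) (Q + s - s') := by
    have e : (q : ℤ) - s' + 1 = Q + s - s' := by omega
    rcases h12 with ⟨ha, hb⟩ | h12
    · subst ha
      subst hb
      simp only [Nat.cast_zero, sub_zero]
      linarith
    · rw [e] at h12
      linarith
  refine ⟨s, s', t', i', i1', j', Q + s - s', ⟨h8, h9, hc', ?_, ?_, by omega⟩, by omega,
    by ring, ?_, ?_, ?_⟩
  · rw [h10]
    have e : (κ : ℤ) - (q - s') = κ + 1 - (Q + s - s') := by omega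
    rw [e]
  · have e : (q : ℤ) - s' + 1 = Q + s - s' := by omega
    rw [e] at h11
    exact h11
  · have e : (κ : ℤ) + 1 - (Q + s) = κ + 1 - Q - s := by ring
    rw [e, ← h3]
    ring
  · have h13 := h.hr
    have h14 := h.hlt
    have e : (6 * (κ : ℤ)) * (κ + 1 - Q - s) = (6 * κ) * (κ + 1 - Q) - (6 * κ) * s := by ring
    rw [e] at h3
    have h15 : (i1 : ℤ) < i := by exact_mod_cast h14
    linarith
  · have h15 : (j1 : ℤ) < j := by exact_mod_cast h4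
    linarith

/-- first corner -/
theorem first_corner (D : Dyn r c κ U) {t i j : ℕ} (hu : U t i j) (ht : 3 * κ + 3 ≤ t) :
    ∃ t' i' i1' j' : ℕ, ∃ Q' : ℤ, RS r c κ U t' i' i1' j' Q' ∧ t ≤ t' + 3 * κ + 3 ∧
      (i' : ℤ) < (6 * κ) * κ := by
  have hκ := D.hκ
  obtain ⟨q, hv⟩ := exists_level D i j
  obtain ⟨q, rfl⟩ : ∃ q' : ℕ, (q' : ℤ) = q := ⟨q.toNat, by have := hv.2.2.1; omega⟩
  have hqκ := hv.2.2.2
  obtain ⟨s, t1, i1, j1, hs, h1, h2, h3, h4, h5, h6⟩ := crun D q t i j hu hv (by omega)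
  have hq1 := h5.2.2.2
  obtain ⟨s2, t2, i2, j2, hs2, h7, h8, h9, h10, h11, h12⟩ :=
    rrun D (κ - (q - s + 1) : ℤ).toNat (q - s + 1) t1 i1 j1 (by omega) (by omega) h2 h5
      (by rw [h4]; ring) (by omega)
  obtain ⟨q3, hq3⟩ : ∃ q3 : ℕ, (q3 : ℤ) = (q : ℤ) - s + 1 + s2 - 1 :=
    ⟨((q : ℤ) - s + 1 + s2 - 1).toNat, by omega⟩
  rw [← hq3] at h12
  have hqκ3 := h12.2.2.2
  obtain ⟨s3, t3, i3, j3, hs3, h13, h14, h15, h16, h17, h18⟩ :=
    crun D q3 t2 i2 j2 h8 h12 (by omega)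
  refine ⟨t3, i2, i3, j3, q3 - s3 + 1, ⟨h14, h15, ?_, ?_, h17, by omega⟩, by omega, ?_⟩
  · rcases h18 with ⟨ha, hb⟩ | h18
    · subst ha
      subst hb
      have e : (q3 : ℤ) - ((0 : ℕ) : ℤ) + 1 = (q : ℤ) - s + 1 + s2 := by push_cast; omega
      rw [e]
      linarith
    · linarith
  · rw [h16]
    ring
  · have h19 : (i2 : ℤ) + r j1 + 1 ≤ (6 * κ) * κ := by
      rw [h9]
      apply mul_le_mul_of_nonneg_left _ (by positivity)
      omega
    have : (0 : ℤ) ≤ r j1 := by positivity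
    omega

/-- states of the backward path, with cumulative run lengths -/
structure St where
  t : ℕ
  i : ℕ
  i1 : ℕ
  j : ℕ
  Q : ℤ
  R : ℤ
  C : ℤ

def Good (r c : ℕ → ℕ) (κ : ℕ) (U : ℕ → ℕ → ℕ → Prop) (x : St) : Prop :=
  RS r c κ U x.t x.i x.i1 x.j x.Q

structure Rel (r : ℕ → ℕ) (κ : ℕ) (x y : St) : Prop where
  ht : (y.t : ℤ) + (y.R - x.R) + (y.C - x.C) + 2 = x.t
  hQ : y.Q = x.Q + (y.R - x.R) - (y.C - x.C)
  hR : x.R ≤ y.R
  hC : x.C ≤ y.C
  hb : (r x.j : ℤ) + y.i + 1 = (6 * κ) * (κ + 1 - (x.Q + (y.R - x.R)))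
  hi : (y.i : ℤ) + (6 * κ) * (y.R - x.R) + 1 ≤ x.i
  hj : (y.j : ℤ) + yy (6 * κ) (x.Q + (y.R - x.R)) - yy (6 * κ) y.Q + 1 ≤ x.j

theorem trans' (D : Dyn r c κ U) (x : St) (h : Good r c κ U x ∧ 2 * κ + 2 ≤ x.t) :
    ∃ y : St, Good r c κ U y ∧ Rel r κ x y := by
  obtain ⟨s, s', t', i', i1', j', Q', h1, h2, h3, h4, h5, h6⟩ := trans D h.1 h.2
  refine ⟨⟨t', i', i1', j', Q', x.R + s, x.C + s'⟩, h1, ?_, ?_, ?_, ?_, ?_, ?_, ?_⟩
  · simp only
    omega
  · simp only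
    omega
  · simp only
    omega
  · simp only
    omega
  · simp only
    have e : x.R + s - x.R = (s : ℤ) := by ring
    rw [e]
    exact h4
  · simp only
    have e : x.R + s - x.R = (s : ℤ) := by ring
    rw [e]
    exact h5
  · simp only
    have e : x.R + s - x.R = (s : ℤ) := by ring
    rw [e]
    exact h6

open Classical in
/-- iteration -/
noncomputable def seq (D : Dyn r c κ U) (x0 : St) : ℕ → St
  | 0 => x0
  | k + 1 =>
    if h : Good r c κ U (seq D x0 k) ∧ 2 * κ + 2 ≤ (seq D x0 k).t then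
      (trans' D (seq D x0 k) h).choose
    else seq D x0 k

theorem seq_succ (D : Dyn r c κ U) (x0 : St) (k : ℕ)
    (h : Good r c κ U (seq D x0 k) ∧ 2 * κ + 2 ≤ (seq D x0 k).t) :
    Good r c κ U (seq D x0 (k + 1)) ∧ Rel r κ (seq D x0 k) (seq D x0 (k + 1)) := by
  have e : seq D x0 (k + 1) = (trans' D (seq D x0 k) h).choose := by
    rw [seq, dif_pos h]
  rw [e]
  exact (trans' D (seq D x0 k) h).choose_spec

theorem seq_inv (D : Dyn r c κ U) (x0 : St) (N : ℕ) (hg : Good r c κ U x0)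
    (hR : x0.R = 0) (hC : x0.C = 0) (hi : (x0.i : ℤ) < (6 * κ) * κ)
    (ht : 2 * N + 5 * κ + 2 ≤ x0.t) : ∀ k, k ≤ N →
    Good r c κ U (seq D x0 k) ∧
    ((seq D x0 k).t : ℤ) + 2 * k + (seq D x0 k).R + (seq D x0 k).C = x0.t ∧
    ((seq D x0 k).i : ℤ) + (6 * κ) * (seq D x0 k).R ≤ x0.i ∧
    (seq D x0 k).Q = x0.Q + (seq D x0 k).R - (seq D x0 k).C ∧
    0 ≤ (seq D x0 k).R ∧ (seq D x0 k).R ≤ κ ∧ 0 ≤ (seq D x0 k).C ∧ (seq D x0 k).C ≤ 2 * κ := by
  intro k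
  have hκ := D.hκ
  have hQ0 := hg.hv.2.2.2
  induction k with
  | zero =>
    intro _
    refine ⟨hg, ?_, ?_, ?_, ?_, ?_, ?_, ?_⟩
    · simp [seq, hR, hC]
    · simp [seq, hR]
    · simp [seq, hR, hC]
    · simp [seq, hR]
    · simp [seq, hR]
    · simp [seq, hC]
    · simp [seq, hC]
  | succ k ih =>
    intro hk
    obtain ⟨h1, h2, h3, h4, h5, h6, h7, h8⟩ := ih (by omega)
    obtain ⟨h9, h10⟩ := seq_succ D x0 k ⟨h1, by omega⟩
    have hR' := h10.hR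
    have hC' := h10.hC
    have hi' := h10.hi
    have hQ' := h10.hQ
    have ht' := h10.ht
    have hQ1 := h9.hQ
    have h11 : ((seq D x0 (k + 1)).i : ℤ) + (6 * κ) * (seq D x0 (k + 1)).R ≤ x0.i := by
      have e : (6 * (κ : ℤ)) * ((seq D x0 (k + 1)).R - (seq D x0 k).R) =
        (6 * κ) * (seq D x0 (k + 1)).R - (6 * κ) * (seq D x0 k).R := by ring
      rw [e] at hi'
      linarith
    have h12 : (seq D x0 (k + 1)).R ≤ κ := by
      by_contra hc
      push Not at hc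
      have : (6 * (κ : ℤ)) * κ ≤ (6 * κ) * (seq D x0 (k + 1)).R :=
        mul_le_mul_of_nonneg_left hc.le (by positivity)
      have : (0 : ℤ) ≤ (seq D x0 (k + 1)).i := by positivity
      linarith
    refine ⟨h9, ?_, h11, by omega, by omega, h12, by omega, by omega⟩
    push_cast
    omega

/-- The time bound. -/
theorem time_bound (D : Dyn r c κ U) {t i j : ℕ} (hu : U t i j) : t < 160 * κ := by
  by_contra hc
  push Not at hc
  have hκ := D.hκ
  obtain ⟨t', i', i1', j', Q', h1, h2, h3⟩ := first_corner D hu (by omega)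
  let x0 : St := ⟨t', i', i1', j', Q', 0, 0⟩
  have hinv := seq_inv D x0 (72 * κ + 1) h1 rfl rfl h3 (by
    show 2 * (72 * κ + 1) + 5 * κ + 2 ≤ t'
    omega)
  have hrel : ∀ k, k < 72 * κ + 1 → Rel r κ (seq D x0 k) (seq D x0 (k + 1)) := by
    intro k hk
    obtain ⟨g1, g2, g3, g4, g5, g6, g7, g8⟩ := hinv k (by omega)
    refine (seq_succ D x0 k ⟨g1, ?_⟩).2
    have : (x0.t : ℤ) = t' := rfl
    omega
  have P : Path r c κ (6 * κ) (6 * κ) (72 * κ + 1) (fun k => (seq D x0 k).i)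
      (fun k => (seq D x0 k).j) Q' (fun k => (seq D x0 k).R) (fun k => (seq D x0 k).C) := by
    refine ⟨by positivity, D.hS, ?_, ?_, ?_, ?_, ?_, ?_, ?_⟩
    · intro k hk
      exact (hrel k hk).hR
    · intro k hk
      exact (hrel k hk).hC
    · intro k hk
      obtain ⟨g1, g2, g3, g4, g5, g6, g7, g8⟩ := hinv k hk
      have g9 : (seq D x0 k).Q = Q' + (seq D x0 k).R - (seq D x0 k).C := g4
      rw [← g9]
      exact g1.hc
    · intro k hk
      obtain ⟨g1, g2, g3, g4, g5, g6, g7, g8⟩ := hinv k hk.le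
      have g9 : (seq D x0 k).Q = Q' + (seq D x0 k).R - (seq D x0 k).C := g4
      have g10 := (hrel k hk).hb
      have e : (κ : ℤ) + 1 - (Q' + (seq D x0 (k + 1)).R - (seq D x0 k).C) =
          κ + 1 - ((seq D x0 k).Q + ((seq D x0 (k + 1)).R - (seq D x0 k).R)) := by
        rw [g9]
        ring
      rw [e]
      exact g10
    · intro k hk
      obtain ⟨g1, g2, g3, g4, g5, g6, g7, g8⟩ := hinv k hk.le
      obtain ⟨g1', g2', g3', g4', g5', g6', g7', g8'⟩ := hinv (k + 1) (by omega)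
      have g9 : (seq D x0 k).Q = Q' + (seq D x0 k).R - (seq D x0 k).C := g4
      have g9' : (seq D x0 (k + 1)).Q =
        Q' + (seq D x0 (k + 1)).R - (seq D x0 (k + 1)).C := g4'
      have g10 := (hrel k hk).hj
      unfold eps
      have e1 : Q' + (seq D x0 (k + 1)).R - (seq D x0 k).C =
          (seq D x0 k).Q + ((seq D x0 (k + 1)).R - (seq D x0 k).R) := by
        rw [g9]
        ring
      simp only
      rw [e1, ← g9']
      linarith
    · intro k hk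
      obtain ⟨g1, g2, g3, g4, g5, g6, g7, g8⟩ := hinv k hk
      have g9 : (seq D x0 k).Q = Q' + (seq D x0 k).R - (seq D x0 k).C := g4
      rw [← g9]
      exact g1.hQ
    · intro k hk
      obtain ⟨g1, g2, g3, g4, g5, g6, g7, g8⟩ := hinv k hk
      have g9 : (seq D x0 k).Q = Q' + (seq D x0 k).R - (seq D x0 k).C := g4
      rw [← g9]
      exact g1.hv.2.2.2
  have hfin := corners_le κ hκ P rfl rfl (fun k hk => (hinv k hk).2.2.2.2.2.1)
  omega

end

end Pool.Agent.helper36.SpanPath
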